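import Pool.Agent.Lib.MP_de1a09_co.Forest

/-! Assembling the embeddings from blocks and hosts. -/

set_option autoImplicit false
set_option linter.unusedVariables false
set_option linter.unusedSectionVars false

open Finset

namespace Pool.Agent.Lib.MP_de1a09_co

noncomputable section
open Classical

/-- offsets along the heap -/
def offs {k : ℕ} {G : Type} [AddCommGroup G] (K : ℕ) (st : Fin k → G) (j : Fin k) : G :=
  if h : j.1 = 0 then 0 else offs K st (hp K j) + st j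
termination_by j.1
decreasing_by
  simp only [hp]
  exact lt_of_le_of_lt (Nat.div_le_self _ _) (by omega)

variable {K k r d0 σ : ℕ} {ι X : Type} [Fintype X] [Fintype ι] (F : Forest K k r d0 σ ι X)

theorem assemble {Bk C S : Type} [Fintype Bk] [Fintype S] (N N' M : ℕ) [NeZero N]
    (cl : Bk → C) (HubR : C → C → Prop) (hne : ∀ c y, HubR c y → c ≠ y)
    (hanti : ∀ c y, HubR c y → ¬ HubR y c)
    (c : ι → C) (sl : X → S) (blk : ι → S → Fin k → Bk) (act : ι → S → Fin k → Prop)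
    (h : X → Bk × ZMod N) (Zb : Bk → Prop) (bv : X → Bk)
    (hbv : ∀ v, bv v = blk (F.tr v) (sl v) (F.ad v))
    (sl_tp : ∀ u v, F.tp u = F.tp v → sl u = sl v)
    (sl_ty : ∀ u v, sl u = sl v → F.ty u = F.ty v)
    (hact : ∀ v, ¬ F.A v → act (F.tr v) (sl v) (F.ad v))
    (binj : ∀ i s j s' j', act i s j → act i s' j' → blk i s j = blk i s' j' → s = s' ∧ j = j')
    (bne : ∀ i s j, cl (blk i s j) ≠ c i)
    (hsz : ∀ i s, cnt (fun v => (¬ F.A v ∧ F.A (F.p v)) ∧ F.tr v = i ∧ sl v = s) ≤ N')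
    (hhub : ∀ e, F.Cross e → HubR (c (F.tr e)) (cl (bv (F.oend e))))
    (hZ : ∀ v, ¬ F.A v → (Zb (bv v) ↔ isZ (F.role v)))
    (hlow : ∀ i s j, act i s j → j.1 ≠ 0 → cl (blk i s (hp K j)) ≠ cl (blk i s j) ∧
      ¬ HubR (cl (blk i s (hp K j))) (cl (blk i s j)) ∧
      ¬ HubR (cl (blk i s j)) (cl (blk i s (hp K j))))
    (huse : ∀ U W, cnt (fun q : ι × S × Fin k => (act q.1 q.2.1 q.2.2 ∧ q.2.2.1 ≠ 0) ∧
      s(blk q.1 q.2.1 (hp K q.2.2), blk q.1 q.2.1 q.2.2) = s(U, W)) ≤ N)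
    (hc : ∀ v, F.A v → cl (h v).1 = c (F.tr v))
    (hinj : ∀ u v, F.A u → F.A v → F.tr u = F.tr v → h u = h v → u = v)
    (hAA : ∀ e e', F.AA e → F.AA e' → s(h e, h (F.p e)) = s(h e', h (F.p e')) →
      F.tr e = F.tr e')
    (hV : ∀ x U, ¬ Zb U → cnt (fun e => F.Cross e ∧ h (F.aend e) = x ∧ bv (F.oend e) = U) ≤ N)
    (hM : ∀ x U, Zb U → cnt (fun e => F.Cross e ∧ h (F.aend e) = x ∧ bv (F.oend e) = U) ≤ M)
    (hNM : N' + 2 * M < N) :
    ∃ f : X → Bk × ZMod N, (∀ u v, F.tr u = F.tr v → f u = f v → u = v) ∧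
      ∀ e e', ¬ F.Rt e → ¬ F.Rt e' → s(f e, f (F.p e)) = s(f e', f (F.p e')) →
        F.tr e = F.tr e' := by
  obtain ⟨idx, hidx⟩ := exists_fib_inj (J := ZMod N)
    (fun q : ι × S × Fin k => act q.1 q.2.1 q.2.2 ∧ q.2.2.1 ≠ 0)
    (fun q => s(blk q.1 q.2.1 (hp K q.2.2), blk q.1 q.2.1 q.2.2))
    (fun q _ => by rw [ZMod.card]; exact huse _ _)
  let ord := Fintype.equivFin Bk
  let st : ι → S → Fin k → ZMod N := fun i s j =>
    if ord (blk i s (hp K j)) < ord (blk i s j) then idx (i, s, j) else - idx (i, s, j)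
  let off : X → ZMod N := fun v => offs K (st (F.tr v) (sl v)) (F.ad v)
  have off0 : ∀ v, F.A (F.p v) → off v = 0 := fun v hv => by
    simp only [off]; rw [offs, dif_pos ((F.ad0 v).2 hv)]
  have slp : ∀ v, ¬ F.A (F.p v) → sl (F.p v) = sl v := fun v hv => sl_tp _ _ (F.tp_par v hv)
  have off1 : ∀ v, ¬ F.A v → ¬ F.A (F.p v) →
      off v = off (F.p v) + st (F.tr v) (sl v) (F.ad v) := fun v hv hv' => by
    simp only [off]
    rw [offs, dif_neg (fun h => hv' ((F.ad0 v).1 h)), F.tr_p, slp v hv', F.ad_par v hv' hv]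
  have bvp : ∀ v, ¬ F.A v → ¬ F.A (F.p v) →
      bv (F.p v) = blk (F.tr v) (sl v) (hp K (F.ad v)) := fun v hv hv' => by
    rw [hbv, F.tr_p, slp v hv', F.ad_par v hv' hv]
  let Top : X → Prop := fun v => ¬ F.A v ∧ F.A (F.p v)
  have ae : ∀ v, ¬ F.A v → F.aend v = F.p v ∧ F.oend v = v := fun v hv => by
    simp [Forest.aend, Forest.oend, hv]
  have ae' : ∀ v, F.A v → F.aend v = v ∧ F.oend v = F.p v := fun v hv => by
    simp [Forest.aend, Forest.oend, hv]
  have sgl : ∀ v, Top v → F.role v ≠ rT → ¬ isZ (F.role v) := by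
    intro v hv h1 h2
    rcases F.role_top v hv.1 hv.2 with g | g | g
    · exact h1 g
    · have : F.role v = rB := g.1
      rw [this] at h2; revert h2; unfold isZ; decide
    · have : F.role v = rS := g.1
      rw [this] at h2; revert h2; unfold isZ; decide
  obtain ⟨κ1, hκ1⟩ := konig (E := ZMod N) (fun v => Top v ∧ F.role v ≠ rT)
    (fun v => (F.tr v, sl v)) (fun v => (h (F.p v), bv v))
    (fun v hv => by
      rw [ZMod.card]
      refine le_trans (cnt_mono fun u hu => ?_) ((hsz (F.tr v) (sl v)).trans (by omega))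
      exact ⟨hu.1.1, congrArg Prod.fst hu.2, congrArg Prod.snd hu.2⟩)
    (fun v hv => by
      rw [ZMod.card]
      refine le_trans (cnt_mono fun u hu => ?_)
        (hV (h (F.p v)) (bv v) fun hz => sgl v hv.1 hv.2 ((hZ v hv.1.1).1 hz))
      rw [(ae u hu.1.1.1).1, (ae u hu.1.1.1).2]
      exact ⟨Or.inl hu.1.1, congrArg Prod.fst hu.2, congrArg Prod.snd hu.2⟩)
  let conf : X → ZMod N → X → ZMod N → Prop := fun x a x' a' =>
    ((F.tr x = F.tr x' ∧ sl x = sl x') ∧ a = a') ∨ ∃ e e', F.Cross e ∧ F.Cross e' ∧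
      F.tp (F.oend e) = x ∧ F.tp (F.oend e') = x' ∧ h (F.aend e) = h (F.aend e') ∧
      bv (F.oend e) = bv (F.oend e') ∧ a + off (F.oend e) = a' + off (F.oend e')
  obtain ⟨κ2, hκ2⟩ := greedy (E := ZMod N) (fun v => Top v ∧ F.role v = rT) conf
    (by
      rintro x a x' a' (⟨⟨g1, g2⟩, g3⟩ | ⟨e, e', g1, g2, g3, g4, g5, g6, g7⟩)
      exacts [Or.inl ⟨⟨g1.symm, g2.symm⟩, g3.symm⟩,
        Or.inr ⟨e', e, g2, g1, g4, g3, g5.symm, g6.symm, g7.symm⟩])
    (by
      intro x hx g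
      rw [ZMod.card]
      have e1 : cnt (fun a => ∃ x', (Top x' ∧ F.tr x' = F.tr x ∧ sl x' = sl x) ∧ g x' = a) ≤ N' :=
        (cnt_surj g fun a ha => ha).trans (hsz _ _)
      have e2 : cnt (fun e => F.Cross e ∧ F.tp (F.oend e) = x) ≤ 2 := by
        have e3 : cnt (fun e => F.Cross e ∧ F.tp (F.oend e) = x) ≤ cnt (fun e => e = x) +
            cnt (fun e => (F.A e ∧ ¬ F.A (F.p e)) ∧ F.tp (F.p e) = x) := by
          refine cnt_le_add fun e he => ?_
          rcases he.1 with g1 | g1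
          · left
            have := he.2
            rwa [(ae e g1.1).2, F.tp_self e g1.2] at this
          · right
            have := he.2
            rw [(ae' e g1.1).2] at this
            exact ⟨g1, this⟩
        have e4 : cnt (fun e => e = x) ≤ 1 := cnt_le_one fun u v hu hv => hu.trans hv.symm
        have e5 : cnt (fun e => (F.A e ∧ ¬ F.A (F.p e)) ∧ F.tp (F.p e) = x) ≤ 1 :=
          cnt_le_one fun u v hu hv => F.bot_uniq u v hu.1.1 hv.1.1 hu.1.2 hv.1.2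
            (hu.2.trans hv.2.symm)
        omega
      have e3 := cnt_exists_le_mul (fun (a : ZMod N) (e : X) => ∃ e', (F.Cross e' ∧
        h (F.aend e') = h (F.aend e) ∧ bv (F.oend e') = bv (F.oend e)) ∧
          g (F.tp (F.oend e')) + off (F.oend e') - off (F.oend e) = a)
        (fun e => F.Cross e ∧ F.tp (F.oend e) = x) M (fun e he => by
          refine (cnt_surj (fun e' => g (F.tp (F.oend e')) + off (F.oend e') - off (F.oend e))
            fun a ha => ha).trans (hM _ _ ((hZ _ (F.oend_nA he.1)).2 ?_))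
          rcases he.1 with g1 | g1
          · have := he.2
            rw [(ae e g1.1).2, F.tp_self e g1.2] at this
            rw [(ae e g1.1).2, this]
            exact Or.inl hx.2
          · rw [(ae' e g1.1).2]
            exact (F.role_bot e g1.1 g1.2).1)
      refine lt_of_le_of_lt ((cnt_le_add ?_).trans (add_le_add e1 (e3.trans
        (Nat.mul_le_mul_right _ e2)))) hNM
      rintro a ⟨x', g1, g2, ⟨g3, g4⟩ | ⟨e, e', g3, g4, g5, g6, g7, g8, g9⟩⟩
      · exact Or.inl ⟨x', ⟨g1.1, g3.1.symm, g3.2.symm⟩, g4.symm⟩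
      · refine Or.inr ⟨e, ⟨g3, g5⟩, e', ⟨g4, g7.symm, g8.symm⟩, ?_⟩
        rw [g6, ← g9]; ring)
  let κ : X → ZMod N := fun v => if F.role v = rT then κ2 v else κ1 v
  let f : X → Bk × ZMod N := fun v => if F.A v then h v else (bv v, κ (F.tp v) + off v)
  have fA : ∀ v, F.A v → f v = h v := fun v hv => by simp only [f, hv, if_true]
  have fn : ∀ v, ¬ F.A v → f v = (bv v, κ (F.tp v) + off v) := fun v hv => by
    simp only [f, hv, if_false]
  have tpTop : ∀ v, ¬ F.A v → Top (F.tp v) := fun v hv => ⟨F.tp_nA v hv, F.tp_p v hv⟩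
  have κinj : ∀ x x', Top x → Top x' → F.tr x = F.tr x' → sl x = sl x' → κ x = κ x' →
      x = x' := by
    intro x x' g1 g2 g3 g4 g5
    have g6 : F.role x = F.role x' := by
      unfold Forest.role
      rw [sl_ty _ _ g4, show F.ad x = F.ad x' from
        Fin.ext (((F.ad0 x).2 g1.2).trans ((F.ad0 x').2 g2.2).symm)]
    by_cases g7 : F.role x = rT
    · have g8 : F.role x' = rT := g6 ▸ g7
      simp only [κ, g7, g8, if_true] at g5
      by_contra hne'
      exact hκ2 x x' ⟨g1, g7⟩ ⟨g2, g8⟩ hne' (Or.inl ⟨⟨g3, g4⟩, g5⟩)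
    · have g8 : F.role x' ≠ rT := g6 ▸ g7
      simp only [κ, g7, g8, if_false] at g5
      exact hκ1 x x' ⟨g1, g7⟩ ⟨g2, g8⟩ (Or.inl (Prod.ext g3 g4)) g5
  have cross : ∀ e e', F.Cross e → F.Cross e' → h (F.aend e) = h (F.aend e') →
      f (F.oend e) = f (F.oend e') → F.tr e = F.tr e' := by
    intro e e' g1 g2 g3 g4
    have n1 := F.oend_nA g1
    have n2 := F.oend_nA g2
    rw [fn _ n1, fn _ n2, Prod.mk.injEq] at g4
    by_cases g5 : F.tp (F.oend e) = F.tp (F.oend e')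
    · rw [← F.tr_oend e, ← F.tr_oend e', ← F.tr_tp, g5, F.tr_tp]
    have dbl : ∀ e, F.Cross e → Zb (bv (F.oend e)) → F.role (F.tp (F.oend e)) = rT := by
      intro e g1 g2
      rcases g1 with g1 | g1
      · rw [(ae e g1.1).2] at g2 ⊢
        rw [F.tp_self e g1.2]
        by_contra hc'
        exact sgl e g1 hc' ((hZ e g1.1).1 g2)
      · rw [(ae' e g1.1).2]
        exact (F.role_bot e g1.1 g1.2).2
    have sng : ∀ e, F.Cross e → ¬ Zb (bv (F.oend e)) → Top e ∧ F.role e ≠ rT := by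
      intro e g1 g2
      rcases g1 with g1 | g1
      · rw [(ae e g1.1).2] at g2
        exact ⟨g1, fun hc' => g2 ((hZ e g1.1).2 (Or.inl hc'))⟩
      · rw [(ae' e g1.1).2] at g2
        exact absurd ((hZ _ g1.2).2 (F.role_bot e g1.1 g1.2).1) g2
    by_cases g6 : Zb (bv (F.oend e))
    · have d1 := dbl e g1 g6
      have d2 := dbl e' g2 (g4.1 ▸ g6)
      simp only [κ, d1, d2, if_true] at g4
      exact absurd (Or.inr ⟨e, e', g1, g2, rfl, rfl, g3, g4.1, g4.2⟩)
        (hκ2 _ _ ⟨tpTop _ n1, d1⟩ ⟨tpTop _ n2, d2⟩ g5)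
    · have d1 := sng e g1 g6
      have d2 := sng e' g2 (g4.1 ▸ g6)
      rw [(ae e d1.1.1).2, (ae e' d2.1.1).2, off0 e d1.1.2, off0 e' d2.1.2, F.tp_self e d1.1.2,
        F.tp_self e' d2.1.2] at g4
      rw [(ae e d1.1.1).1, (ae e' d2.1.1).1] at g3
      simp only [κ, d1.2, d2.2, if_false, add_zero] at g4
      rw [hκ1 e e' d1 d2 (Or.inr (Prod.ext g3 g4.1)) g4.2]
  have low : ∀ e e', ¬ F.A e → ¬ F.A (F.p e) → ¬ F.A e' → ¬ F.A (F.p e') →
      s(f e, f (F.p e)) = s(f e', f (F.p e')) → F.tr e = F.tr e' := by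
    intro e e' g1 g2 g3 g4 g5
    rw [fn _ g1, fn _ g2, fn _ g3, fn _ g4, F.tp_par e g2, F.tp_par e' g4, off1 e g1 g2,
      off1 e' g3 g4, bvp e g1 g2, bvp e' g3 g4, hbv e, hbv e'] at g5
    have z1 : (F.ad e).1 ≠ 0 := fun h => g2 ((F.ad0 e).1 h)
    have z2 : (F.ad e').1 ≠ 0 := fun h => g4 ((F.ad0 e').1 h)
    have fin := hidx (F.tr e, sl e, F.ad e) (F.tr e', sl e', F.ad e') ⟨hact e g1, z1⟩
      ⟨hact e' g3, z2⟩
    have n1 : blk (F.tr e) (sl e) (hp K (F.ad e)) ≠ blk (F.tr e) (sl e) (F.ad e) :=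
      fun h => (hlow _ _ _ (hact e g1) z1).1 (congrArg cl h)
    rcases Sym2.eq_iff.1 g5 with ⟨g6, g7⟩ | ⟨g6, g7⟩ <;> rw [Prod.mk.injEq] at g6 g7
    · refine congrArg Prod.fst (fin (by simp only [g6.1, g7.1]) ?_)
      have e1 : st (F.tr e) (sl e) (F.ad e) = st (F.tr e') (sl e') (F.ad e') := by
        linear_combination g6.2 - g7.2
      simp only [st, g6.1, g7.1] at e1
      split_ifs at e1
      exacts [e1, neg_injective e1]
    · refine congrArg Prod.fst (fin (by simp only [g6.1, g7.1]; exact Sym2.eq_swap) ?_)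
      have e1 : st (F.tr e) (sl e) (F.ad e) = - st (F.tr e') (sl e') (F.ad e') := by
        linear_combination g6.2 - g7.2
      simp only [st, ← g6.1, ← g7.1] at e1
      split_ifs at e1 with c1 c2 c2
      · exact absurd c1 (not_lt.2 c2.le)
      · rwa [neg_neg] at e1
      · exact neg_injective e1
      · exact absurd (ord.injective (le_antisymm (not_lt.1 c2) (not_lt.1 c1))) n1
  refine ⟨f, fun u v g1 g2 => ?_, fun e e' g1 g2 g3 => ?_⟩
  · by_cases a1 : F.A u <;> by_cases a2 : F.A v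
    · rw [fA u a1, fA v a2] at g2
      exact hinj u v a1 a2 g1 g2
    · rw [fA u a1, fn v a2] at g2
      exact absurd (by rw [← hbv, ← g1, ← hc u a1, g2]) (bne (F.tr v) (sl v) (F.ad v))
    · rw [fn u a1, fA v a2] at g2
      exact absurd (by rw [← hbv, g1, ← hc v a2, ← g2]) (bne (F.tr u) (sl u) (F.ad u))
    · rw [fn u a1, fn v a2, Prod.mk.injEq, hbv, hbv, g1] at g2
      obtain ⟨e1, e2⟩ := binj _ _ _ _ _ (g1 ▸ hact u a1) (hact v a2) g2.1
      have e3 : off u = off v := by simp only [off, g1, e1, e2]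
      rw [e3, add_left_inj] at g2
      refine F.ad_inj u v a1 a2 (κinj _ _ (tpTop u a1) (tpTop v a2)
        (by rw [F.tr_tp, F.tr_tp, g1]) ?_ g2.2) e2
      rw [sl_tp _ _ (F.tp_tp a1), sl_tp _ _ (F.tp_tp a2), e1]
  · let P1 : Sym2 (Bk × ZMod N) → Prop := fun z => ∃ x y, z = s(x, y) ∧ cl x.1 = cl y.1
    let P2 : Sym2 (Bk × ZMod N) → Prop := fun z => ∃ x y, z = s(x, y) ∧ HubR (cl x.1) (cl y.1)
    have P12 : ∀ z, P1 z → ¬ P2 z := by
      rintro z ⟨x, y, rfl, q1⟩ ⟨x', y', q2, q3⟩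
      rcases Sym2.eq_iff.1 q2 with ⟨rfl, rfl⟩ | ⟨rfl, rfl⟩
      exacts [hne _ _ q3 q1, hne _ _ q3 q1.symm]
    have cAA : ∀ e, F.AA e → P1 s(f e, f (F.p e)) := fun e he =>
      ⟨_, _, rfl, by rw [fA _ he.2.1, fA _ he.2.2, hc _ he.2.1, hc _ he.2.2, F.tr_p]⟩
    have eC : ∀ e, F.Cross e → s(f e, f (F.p e)) = s(h (F.aend e), f (F.oend e)) := by
      rintro e (g | g)
      · rw [(ae e g.1).1, (ae e g.1).2, fA _ g.2]; exact Sym2.eq_swap
      · rw [(ae' e g.1).1, (ae' e g.1).2, fA _ g.1]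
    have hC : ∀ e, F.Cross e → HubR (cl (h (F.aend e)).1) (cl (f (F.oend e)).1) := fun e he => by
      rw [hc _ (F.aend_A he), F.tr_aend, fn _ (F.oend_nA he)]; exact hhub e he
    have cC : ∀ e, F.Cross e → P2 s(f e, f (F.p e)) := fun e he => ⟨_, _, eC e he, hC e he⟩
    have cL : ∀ e, ¬ F.A e → ¬ F.A (F.p e) → ¬ P1 s(f e, f (F.p e)) ∧ ¬ P2 s(f e, f (F.p e)) := by
      intro e q1 q2
      have q3 := hlow _ _ _ (hact e q1) (fun h => q2 ((F.ad0 e).1 h))
      rw [← bvp e q1 q2, ← hbv] at q3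
      rw [fn _ q1, fn _ q2]
      constructor
      · rintro ⟨x, y, q4, q5⟩
        rcases Sym2.eq_iff.1 q4 with ⟨rfl, rfl⟩ | ⟨rfl, rfl⟩
        exacts [q3.1 q5.symm, q3.1 q5]
      · rintro ⟨x, y, q4, q5⟩
        rcases Sym2.eq_iff.1 q4 with ⟨rfl, rfl⟩ | ⟨rfl, rfl⟩
        exacts [q3.2.2 q5, q3.2.1 q5]
    have tri : ∀ e, ¬ F.Rt e → F.AA e ∨ F.Cross e ∨ (¬ F.A e ∧ ¬ F.A (F.p e)) := by
      intro e he
      unfold Forest.AA Forest.Cross
      tauto
    rcases tri e g1 with c1 | c1 | c1 <;> rcases tri e' g2 with c2 | c2 | c2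
    · rw [fA _ c1.2.1, fA _ c1.2.2, fA _ c2.2.1, fA _ c2.2.2] at g3
      exact hAA e e' c1 c2 g3
    · exact absurd (cC e' c2) (P12 _ (g3 ▸ cAA e c1))
    · exact absurd (g3 ▸ cAA e c1) (cL e' c2.1 c2.2).1
    · exact absurd (cC e c1) (P12 _ (g3 ▸ cAA e' c2))
    · rw [eC e c1, eC e' c2] at g3
      rcases Sym2.eq_iff.1 g3 with ⟨g4, g5⟩ | ⟨g4, g5⟩
      · exact cross e e' c1 c2 g4 g5
      · have q1 := hC e c1
        rw [g4, g5] at q1
        exact absurd q1 (hanti _ _ (hC e' c2))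
    · exact absurd (g3 ▸ cC e c1) (cL e' c2.1 c2.2).2
    · exact absurd (g3 ▸ cAA e' c2) (cL e c1.1 c1.2).1
    · exact absurd (g3 ▸ cC e' c2) (cL e c1.1 c1.2).2
    · exact low e e' c1.1 c1.2 c2.1 c2.2 g3

end

end Pool.Agent.Lib.MP_de1a09_co
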