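import Pool.Agent.Lib.MP_de1a09_co.Basic

/-! Balanced allocations. -/

set_option autoImplicit false
set_option linter.unusedVariables false
set_option linter.unusedSectionVars false

open Finset

namespace Pool.Agent.Lib.MP_de1a09_co

noncomputable section
open Classical

lemma exists_enum {Θ : Type*} [Fintype Θ] (Q : Θ → Prop) (hQ : 0 < cnt Q) :
    ∃ g : ℕ → Θ, (∀ i, Q (g i)) ∧ ∀ i j, i < cnt Q → j < cnt Q → g i = g j → i = j := by
  let ι := (univ.filter Q).equivFin.symm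
  obtain ⟨x0, hx0⟩ := cnt_pos.1 hQ
  refine ⟨fun i => if h : i < (univ.filter Q).card then (ι ⟨i, h⟩).1 else x0, fun i => ?_,
    fun i j hi hj h => ?_⟩
  · dsimp only
    split_ifs with h
    exacts [(mem_filter.1 (ι ⟨i, h⟩).2).2, hx0]
  · unfold cnt at hi hj
    simp only [hi, hj, dite_true] at h
    simpa using ι.injective (Subtype.ext h)

lemma exists_bal {S C Θ : Type*} [Fintype S] [Fintype Θ] (P : S → Prop) (f : S → C)
    (Q : Θ → Prop) (hQ : 0 < cnt Q) :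
    ∃ θ : S → Θ, (∀ s, Q (θ s)) ∧ ∀ τ θ0, cnt (fun s => (P s ∧ f s = τ) ∧ θ s = θ0) * cnt Q ≤
      cnt (fun s => P s ∧ f s = τ) + cnt Q := by
  obtain ⟨e, h1, h2⟩ := exists_rank P f
  obtain ⟨g, g1, g2⟩ := exists_enum Q hQ
  refine ⟨fun s => g (e s % cnt Q), fun s => g1 _, fun τ θ0 => ?_⟩
  have : cnt (fun s => (P s ∧ f s = τ) ∧ g (e s % cnt Q) = θ0) ≤
      cnt (fun s => P s ∧ f s = τ) / cnt Q + 1 := by
    refine cnt_le_of_inj_nat (fun s => e s / cnt Q) _ (fun s hs => ?_) fun s s' hs hs' h => ?_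
    · have := h1 s hs.1.1
      rw [hs.1.2] at this
      exact Nat.lt_succ_of_le (Nat.div_le_div_right this.le)
    · refine h2 s s' hs.1.1 hs'.1.1 (hs.1.2.trans hs'.1.2.symm) ?_
      have := g2 _ _ (Nat.mod_lt _ hQ) (Nat.mod_lt _ hQ) (hs.2.trans hs'.2.symm)
      rw [← Nat.div_add_mod (e s) (cnt Q), ← Nat.div_add_mod (e s') (cnt Q), this, h]
  refine (Nat.mul_le_mul_right _ this).trans ?_
  rw [add_mul, one_mul]
  exact add_le_add_left (Nat.div_mul_le_self _ _) _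

lemma cnt_pair {S C J : Type*} [Fintype S] [Fintype C] [Fintype J] (P : S → Prop) (f : S → C)
    (W : C → J → Prop) : cnt (fun q : S × J => P q.1 ∧ W (f q.1) q.2) =
      ∑ τ, cnt (fun s => P s ∧ f s = τ) * cnt (W τ) := by
  rw [← sum_fib_mul f (fun τ => cnt (W τ)) P, cnt_prod]
  refine sum_congr rfl fun s _ => ?_
  split_ifs with h
  · exact cnt_congr fun j => by simp [h]
  · exact cnt_false fun j hj => h hj.1

lemma exists_bal' {S C Θ J : Type*} [Fintype S] [Fintype Θ] [Fintype C] [Fintype J]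
    (P : S → Prop) (f : S → C) (Q : Θ → Prop) (hQ : 0 < cnt Q) :
    ∃ θ : S → Θ, (∀ s, Q (θ s)) ∧ ∀ (W : C → J → Prop) (F : Θ → Prop),
      cnt (fun q : S × J => (P q.1 ∧ F (θ q.1)) ∧ W (f q.1) q.2) * cnt Q ≤
        cnt (fun x => Q x ∧ F x) * (cnt (fun q : S × J => P q.1 ∧ W (f q.1) q.2) +
          Fintype.card C * Fintype.card J * cnt Q) := by
  obtain ⟨θ, h1, h2⟩ := exists_bal P f Q hQ
  refine ⟨θ, h1, fun W F => ?_⟩
  rw [cnt_pair (fun s => P s ∧ F (θ s)) f W, cnt_pair P f W, sum_mul]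
  have e1 : ∀ τ, cnt (fun s => (P s ∧ F (θ s)) ∧ f s = τ) * cnt Q ≤
      cnt (fun x => Q x ∧ F x) * (cnt (fun s => P s ∧ f s = τ) + cnt Q) := by
    intro τ
    rw [cnt_fib _ θ, sum_mul, ← sum_ite_const]
    refine sum_le_sum fun θ0 _ => ?_
    split_ifs with h
    · exact le_trans (Nat.mul_le_mul_right _ (cnt_mono fun s hs => ⟨⟨hs.1.1.1, hs.1.2⟩, hs.2⟩))
        (h2 τ θ0)
    · rw [cnt_false fun s hs => h (by rw [← hs.2]; exact ⟨h1 s, hs.1.1.2⟩), zero_mul]
  calc _ ≤ ∑ τ, cnt (fun x => Q x ∧ F x) * (cnt (fun s => P s ∧ f s = τ) * cnt (W τ) +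
        Fintype.card J * cnt Q) := by
        refine sum_le_sum fun τ _ => ?_
        have e2 := Nat.mul_le_mul_right (cnt (W τ)) (e1 τ)
        have e3 := Nat.mul_le_mul_left (cnt (fun x => Q x ∧ F x) * cnt Q) (cnt_le_card (W τ))
        nlinarith
    _ = _ := by
        rw [← mul_sum, sum_add_distrib, sum_const, card_univ, smul_eq_mul, mul_assoc]

end

end Pool.Agent.Lib.MP_de1a09_co
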