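import Mathlib

/-! Counting, ranks, greedy choice, edge colouring of bipartite multigraphs. -/

set_option autoImplicit false
set_option linter.unusedVariables false
set_option linter.unusedSectionVars false

open Finset

namespace Pool.Agent.Lib.MP_de1a09_co

noncomputable section
open Classical

/-- number of elements of a finite type with a property -/
def cnt {α : Type*} [Fintype α] (p : α → Prop) : ℕ := (univ.filter p).card

section cnt
variable {α β : Type*} [Fintype α] [Fintype β]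

lemma cnt_eq_sum (p : α → Prop) : cnt p = ∑ x, if p x then 1 else 0 := by
  unfold cnt; rw [card_filter]

lemma cnt_mono {p q : α → Prop} (h : ∀ x, p x → q x) : cnt p ≤ cnt q :=
  card_le_card fun x hx => by
    simp only [mem_filter, mem_univ, true_and] at hx ⊢; exact h x hx

lemma cnt_congr {p q : α → Prop} (h : ∀ x, p x ↔ q x) : cnt p = cnt q :=
  le_antisymm (cnt_mono fun x => (h x).1) (cnt_mono fun x => (h x).2)

lemma cnt_le_card (p : α → Prop) : cnt p ≤ Fintype.card α := card_le_univ _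

lemma cnt_true : cnt (fun _ : α => True) = Fintype.card α := by simp [cnt]

lemma cnt_false {p : α → Prop} (h : ∀ x, ¬ p x) : cnt p = 0 := by
  unfold cnt; rw [card_eq_zero, filter_eq_empty_iff]; exact fun x _ => h x

lemma cnt_pos {p : α → Prop} : 0 < cnt p ↔ ∃ x, p x := by
  unfold cnt; rw [card_pos]; constructor
  · rintro ⟨x, hx⟩; exact ⟨x, (mem_filter.1 hx).2⟩
  · rintro ⟨x, hx⟩; exact ⟨x, mem_filter.2 ⟨mem_univ _, hx⟩⟩

lemma cnt_inj {p : α → Prop} {q : β → Prop} (f : α → β) (h1 : ∀ x, p x → q (f x))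
    (h2 : ∀ x y, p x → p y → f x = f y → x = y) : cnt p ≤ cnt q := by
  unfold cnt
  refine card_le_card_of_injOn f (fun x hx => ?_) (fun x hx y hy h => ?_)
  · simp only [coe_filter, mem_univ, true_and, Set.mem_ofPred_eq] at hx ⊢; exact h1 x hx
  · simp only [coe_filter, mem_univ, true_and, Set.mem_ofPred_eq] at hx hy; exact h2 x y hx hy h

lemma cnt_le_of_inj_nat {p : α → Prop} (f : α → ℕ) (M : ℕ) (h1 : ∀ x, p x → f x < M)
    (h2 : ∀ x y, p x → p y → f x = f y → x = y) : cnt p ≤ M := by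
  unfold cnt
  calc _ ≤ (range M).card := by
        refine card_le_card_of_injOn f (fun x hx => ?_) (fun x hx y hy h => ?_)
        · simp only [coe_filter, mem_univ, true_and, Set.mem_ofPred_eq] at hx
          simpa using h1 x hx
        · simp only [coe_filter, mem_univ, true_and, Set.mem_ofPred_eq] at hx hy
          exact h2 x y hx hy h
    _ = M := card_range M

lemma cnt_surj {p : α → Prop} {q : β → Prop} (f : α → β)
    (h : ∀ y, q y → ∃ x, p x ∧ f x = y) : cnt q ≤ cnt p := by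
  unfold cnt
  refine card_le_card_of_surjOn f (fun y hy => ?_)
  simp only [coe_filter, mem_univ, true_and, Set.mem_ofPred_eq] at hy
  obtain ⟨x, hx, rfl⟩ := h y hy
  exact ⟨x, by simpa using hx, rfl⟩

lemma cnt_le_one {p : α → Prop} (h : ∀ x y, p x → p y → x = y) : cnt p ≤ 1 :=
  cnt_le_of_inj_nat (fun _ => 0) 1 (by simp) fun x y hx hy _ => h x y hx hy

lemma cnt_or (p q : α → Prop) : cnt (fun x => p x ∨ q x) ≤ cnt p + cnt q := by
  simp only [cnt_eq_sum, ← sum_add_distrib]
  refine sum_le_sum fun x _ => ?_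
  by_cases h1 : p x <;> by_cases h2 : q x <;> simp [h1, h2]

lemma cnt_le_add {p q r : α → Prop} (h : ∀ x, p x → q x ∨ r x) : cnt p ≤ cnt q + cnt r :=
  (cnt_mono h).trans (cnt_or q r)

lemma cnt_split (p q : α → Prop) :
    cnt p = cnt (fun x => p x ∧ q x) + cnt (fun x => p x ∧ ¬ q x) := by
  simp only [cnt_eq_sum, ← sum_add_distrib]
  refine sum_congr rfl fun x _ => ?_
  by_cases h1 : p x <;> by_cases h2 : q x <;> simp [h1, h2]

lemma cnt_add_not (p : α → Prop) : cnt p + cnt (fun x => ¬ p x) = Fintype.card α := by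
  rw [← cnt_true, cnt_split (fun _ => True) p]; simp

lemma cnt_disj {p q r : α → Prop} (h1 : ∀ x, p x → r x) (h2 : ∀ x, q x → r x)
    (h3 : ∀ x, p x → ¬ q x) : cnt p + cnt q ≤ cnt r := by
  rw [cnt_split r p]
  exact add_le_add (cnt_mono fun x hx => ⟨h1 x hx, hx⟩)
    (cnt_mono fun x hx => ⟨h2 x hx, fun h => h3 x h hx⟩)

lemma cnt_fib (p : α → Prop) (f : α → β) : cnt p = ∑ b, cnt (fun x => p x ∧ f x = b) := by
  simp only [cnt_eq_sum]
  rw [sum_comm]
  refine sum_congr rfl fun x _ => ?_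
  by_cases h : p x
  · simp [h]
  · simp [h]

lemma cnt_exists_le (r : α → β → Prop) :
    cnt (fun x => ∃ b, r x b) ≤ ∑ b, cnt (fun x => r x b) := by
  simp only [cnt_eq_sum]
  rw [sum_comm]
  refine sum_le_sum fun x _ => ?_
  split_ifs with h
  · obtain ⟨b, hb⟩ := h
    calc 1 = if r x b then 1 else 0 := by simp [hb]
      _ ≤ _ := single_le_sum (f := fun b => if r x b then 1 else 0) (fun _ _ => Nat.zero_le _)
        (mem_univ b)
  · exact Nat.zero_le _

lemma sum_ite_const (q : β → Prop) (M : ℕ) : (∑ b, if q b then M else 0) = cnt q * M := by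
  rw [cnt_eq_sum, sum_mul]
  refine sum_congr rfl fun b _ => ?_
  split_ifs <;> simp

lemma cnt_exists_le_mul (r : α → β → Prop) (q : β → Prop) (M : ℕ)
    (h : ∀ b, q b → cnt (fun x => r x b) ≤ M) :
    cnt (fun x => ∃ b, q b ∧ r x b) ≤ cnt q * M := by
  refine (cnt_exists_le _).trans ?_
  rw [← sum_ite_const]
  refine sum_le_sum fun b _ => ?_
  split_ifs with hb
  · exact (cnt_mono fun x hx => hx.2).trans (h b hb)
  · exact (cnt_false fun x hx => hb hx.1).le

lemma cnt_fib_le {p : α → Prop} (f : α → β) (q : β → Prop) (M : ℕ) (h1 : ∀ x, p x → q (f x))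
    (h2 : ∀ b, q b → cnt (fun x => p x ∧ f x = b) ≤ M) : cnt p ≤ cnt q * M :=
  (cnt_mono fun x hx => ⟨f x, h1 x hx, hx, rfl⟩).trans
    (cnt_exists_le_mul (fun x b => p x ∧ f x = b) q M h2)

lemma cnt_prod (p : α × β → Prop) : cnt p = ∑ a, cnt (fun b => p (a, b)) := by
  simp only [cnt_eq_sum]; rw [Fintype.sum_prod_type]

lemma cnt_prod' (p : α × β → Prop) : cnt p = ∑ b, cnt (fun a => p (a, b)) := by
  simp only [cnt_eq_sum]; rw [Fintype.sum_prod_type_right]

lemma cnt_sigma {V : α → Type*} [∀ a, Fintype (V a)] (p : (Σ a, V a) → Prop) :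
    cnt p = ∑ a, cnt (fun b => p ⟨a, b⟩) := by
  simp only [cnt_eq_sum]; rw [Fintype.sum_sigma]

lemma cnt_and_mul (p : α → Prop) (q : β → Prop) :
    cnt (fun x : α × β => p x.1 ∧ q x.2) = cnt p * cnt q := by
  rw [cnt_prod, ← sum_ite_const]
  refine sum_congr rfl fun a _ => ?_
  split_ifs with h
  · exact cnt_congr fun b => by simp [h]
  · exact cnt_false fun b hb => h hb.1

lemma cnt_fin_lt (n M : ℕ) : cnt (fun x : Fin n => x.val < M) ≤ M :=
  cnt_le_of_inj_nat (fun x => x.val) M (fun _ h => h) fun x y _ _ h => Fin.ext h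

lemma sum_fib_mul (f : α → β) (w : β → ℕ) (p : α → Prop) :
    (∑ x, if p x then w (f x) else 0) = ∑ b, cnt (fun x => p x ∧ f x = b) * w b := by
  simp only [cnt_eq_sum, sum_mul]
  rw [sum_comm]
  refine sum_congr rfl fun x _ => ?_
  by_cases h : p x
  · simp [h]
  · simp [h]

lemma exists_not_of_cnt_lt {p : α → Prop} (h : cnt p < Fintype.card α) : ∃ x, ¬ p x := by
  have := cnt_add_not p
  exact cnt_pos.1 (by omega)

end cnt

/-- rank inside fibres -/
lemma exists_rank {S C : Type*} [Fintype S] (P : S → Prop) (f : S → C) :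
    ∃ e : S → ℕ, (∀ s, P s → e s < cnt fun s' => P s' ∧ f s' = f s) ∧
      ∀ s s', P s → P s' → f s = f s' → e s = e s' → s = s' := by
  let ι := Fintype.equivFin S
  have lt : ∀ (p q : S → Prop) (s : S), (∀ x, p x → q x) → q s → ¬ p s → cnt p < cnt q := by
    intro p q s h1 h2 h3
    have := cnt_disj (p := p) (q := fun x => x = s) (r := q) h1 (fun x hx => hx ▸ h2)
      (fun x hx h => h3 (h ▸ hx))
    have h4 : 0 < cnt (fun x => x = s) := cnt_pos.2 ⟨s, rfl⟩
    omega
  refine ⟨fun s => cnt fun s' => (P s' ∧ f s' = f s) ∧ ι s' < ι s, fun s hs => ?_, ?_⟩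
  · exact lt _ _ s (fun x hx => hx.1) ⟨hs, rfl⟩ (fun h => lt_irrefl _ h.2)
  · have key : ∀ s s', P s → P s' → f s = f s' → ι s < ι s' →
        (cnt fun x => (P x ∧ f x = f s) ∧ ι x < ι s) <
          cnt fun x => (P x ∧ f x = f s') ∧ ι x < ι s' := by
      intro s s' hs hs' hf hl
      exact lt _ _ s (fun x hx => ⟨⟨hx.1.1, hx.1.2.trans hf⟩, hx.2.trans hl⟩) ⟨⟨hs, hf⟩, hl⟩
        (fun h => lt_irrefl _ h.2)
    intro s s' hs hs' hf he
    rcases lt_trichotomy (ι s) (ι s') with h | h | h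
    · exact absurd he (key s s' hs hs' hf h).ne
    · exact ι.injective h
    · exact absurd he (key s' s hs' hs hf.symm h).ne'

/-- injective labels inside fibres -/
lemma exists_fib_inj {S C J : Type*} [Fintype S] [Fintype J] [Nonempty J] (P : S → Prop)
    (f : S → C) (h : ∀ s, P s → cnt (fun s' => P s' ∧ f s' = f s) ≤ Fintype.card J) :
    ∃ j : S → J, ∀ s s', P s → P s' → f s = f s' → j s = j s' → s = s' := by
  obtain ⟨e, h1, h2⟩ := exists_rank P f
  let ι := (Fintype.equivFin J).symm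
  refine ⟨fun s => if hs : P s then ι ⟨e s, (h1 s hs).trans_le (h s hs)⟩ else
    Classical.arbitrary J, fun s s' hs hs' hf hj => h2 s s' hs hs' hf ?_⟩
  simp only [hs, hs', dite_true] at hj
  simpa using ι.injective hj

/-- greedy choice under binary conflicts -/
lemma greedy {S E : Type*} [Fintype S] [Fintype E] [Nonempty E] (P : S → Prop)
    (conf : S → E → S → E → Prop) (symm : ∀ s h s' h', conf s h s' h' → conf s' h' s h)
    (hbad : ∀ s, P s → ∀ f : S → E,
      cnt (fun h => ∃ s', P s' ∧ s' ≠ s ∧ conf s h s' (f s')) < Fintype.card E) :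
    ∃ f : S → E, ∀ s s', P s → P s' → s ≠ s' → ¬ conf s (f s) s' (f s') := by
  suffices h : ∀ T : Finset S, ∃ f : S → E,
      ∀ s ∈ T, ∀ s' ∈ T, P s → P s' → s ≠ s' → ¬ conf s (f s) s' (f s') by
    obtain ⟨f, hf⟩ := h univ
    exact ⟨f, fun s s' => hf s (mem_univ _) s' (mem_univ _)⟩
  intro T
  induction T using Finset.induction_on with
  | empty => exact ⟨fun _ => Classical.arbitrary E, by simp⟩
  | insert a T ha ih =>
    obtain ⟨f, hf⟩ := ih
    by_cases hP : P a
    swap
    · refine ⟨f, fun s hs s' hs' h1 h2 => hf s ?_ s' ?_ h1 h2⟩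
      · rcases mem_insert.1 hs with rfl | h; exacts [absurd h1 hP, h]
      · rcases mem_insert.1 hs' with rfl | h; exacts [absurd h2 hP, h]
    obtain ⟨h, hc⟩ := exists_not_of_cnt_lt (hbad a hP f)
    have hne : ∀ s ∈ T, s ≠ a := fun s hs => by rintro rfl; exact ha hs
    refine ⟨Function.update f a h, fun s hs s' hs' p1 p2 hss => ?_⟩
    rcases mem_insert.1 hs with h1 | h1 <;> rcases mem_insert.1 hs' with h2 | h2
    · exact absurd (h1.trans h2.symm) hss
    · rw [h1, Function.update_self, Function.update_of_ne (hne s' h2)]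
      exact fun hcf => hc ⟨s', p2, hne s' h2, hcf⟩
    · rw [h2, Function.update_self, Function.update_of_ne (hne s h1)]
      exact fun hcf => hc ⟨s, p1, hne s h1, symm _ _ _ _ hcf⟩
    · rw [Function.update_of_ne (hne s h1), Function.update_of_ne (hne s' h2)]
      exact hf s h1 s' h2 p1 p2 hss

/-- edge colouring of bipartite multigraphs -/
lemma konig {S L R E : Type*} [Fintype S] [Fintype E] [Nonempty E] (P : S → Prop)
    (l : S → L) (r : S → R)
    (hl : ∀ s, P s → cnt (fun s' => P s' ∧ l s' = l s) ≤ Fintype.card E)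
    (hr : ∀ s, P s → cnt (fun s' => P s' ∧ r s' = r s) ≤ Fintype.card E) :
    ∃ f : S → E, ∀ s s', P s → P s' → (l s = l s' ∨ r s = r s') → f s = f s' → s = s' := by
  suffices h : ∀ T : Finset S, (∀ s ∈ T, P s) → ∃ f : S → E,
      ∀ s ∈ T, ∀ s' ∈ T, (l s = l s' ∨ r s = r s') → f s = f s' → s = s' by
    obtain ⟨f, hf⟩ := h (univ.filter P) (fun s hs => (mem_filter.1 hs).2)
    exact ⟨f, fun s s' h1 h2 => hf s (by simpa using h1) s' (by simpa using h2)⟩
  intro T
  induction T using Finset.induction_on with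
  | empty => exact fun _ => ⟨fun _ => Classical.arbitrary E, by simp⟩
  | insert e T he ih =>
    intro hP
    obtain ⟨f, hf⟩ := ih fun s hs => hP s (mem_insert_of_mem hs)
    have hPe : P e := hP e (mem_insert_self _ _)
    have free : ∀ Q : S → Prop, Q e → cnt (fun s' => P s' ∧ Q s') ≤ Fintype.card E →
        ∃ a, ∀ s ∈ T, Q s → f s ≠ a := by
      intro Q hQ hg
      have h1 : cnt (fun a => ∃ s ∈ T, Q s ∧ f s = a) ≤ cnt (fun s => s ∈ T ∧ Q s) :=
        cnt_surj f fun a ⟨s, h1, h2, h3⟩ => ⟨s, ⟨h1, h2⟩, h3⟩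
      have h2 := cnt_disj (p := fun s => s ∈ T ∧ Q s) (q := fun s => s = e)
        (r := fun s' => P s' ∧ Q s')
        (fun s hs => ⟨hP s (mem_insert_of_mem hs.1), hs.2⟩)
        (fun s hs => by rw [hs]; exact ⟨hPe, hQ⟩)
        (fun s hs h => he (h ▸ hs.1))
      have h3 : 0 < cnt (fun s => s = e) := cnt_pos.2 ⟨e, rfl⟩
      obtain ⟨a, ha⟩ := exists_not_of_cnt_lt (p := fun a => ∃ s ∈ T, Q s ∧ f s = a)
        (by omega)
      exact ⟨a, fun s h1 h2 h3 => ha ⟨s, h1, h2, h3⟩⟩
    obtain ⟨a, ha⟩ := free (fun s => l s = l e) rfl (hl e hPe)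
    obtain ⟨b, hb⟩ := free (fun s => r s = r e) rfl (hr e hPe)
    -- the set of left vertices to be swapped
    let step : L → L → Prop := fun x' x => ∃ p ∈ T, ∃ q ∈ T, l p = x ∧ f p = a ∧ f q = b ∧
      r q = r p ∧ l q = x'
    let W : L → Prop := fun x => ∃ p ∈ T, f p = a ∧ r p = r e ∧ Relation.ReflTransGen step (l p) x
    have W1 : ∀ x, W x → ∃ p ∈ T, l p = x ∧ f p = a ∧
        (r p = r e ∨ ∃ q ∈ T, f q = b ∧ r q = r p ∧ W (l q)) := by
      rintro x ⟨p, h1, h2, h3, h4⟩
      rcases h4.cases_tail with h | ⟨x', h5, p', h6, q, h7, h8, h9, h10, h11, h12⟩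
      · exact ⟨p, h1, h.symm, h2, Or.inl h3⟩
      · exact ⟨p', h6, h8, h9, Or.inr ⟨q, h7, h10, h11, p, h1, h2, h3, h12 ▸ h5⟩⟩
    have W2 : ∀ p ∈ T, ∀ q ∈ T, f p = a → f q = b → r q = r p → W (l q) → W (l p) := by
      rintro p h1 q h2 h3 h4 h5 ⟨p', h6, h7, h8, h9⟩
      exact ⟨p', h6, h7, h8, h9.tail ⟨p, h1, q, h2, rfl, h3, h4, h5, rfl⟩⟩
    have W3 : ∀ p ∈ T, ∀ q ∈ T, f p = a → f q = b → r q = r p → W (l p) → W (l q) := by
      intro p h1 q h2 h3 h4 h5 h6
      obtain ⟨p', g1, g2, g3, g4⟩ := W1 _ h6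
      obtain rfl : p' = p := hf p' g1 p h1 (Or.inl g2) (g3.trans h3.symm)
      rcases g4 with g4 | ⟨q', g5, g6, g7, g8⟩
      · exact absurd h4 (hb q h2 (h5.trans g4))
      · obtain rfl : q' = q := hf q' g5 q h2 (Or.inr (g7.trans h5.symm)) (g6.trans h4.symm)
        exact g8
    have We : ¬ W (l e) := fun h => by
      obtain ⟨p, g1, g2, g3, -⟩ := W1 _ h
      exact ha p g1 g2 g3
    let g : S → E := fun s => if W (l s) then Equiv.swap a b (f s) else f s
    have mixed : ∀ s ∈ T, ∀ s' ∈ T, W (l s) → ¬ W (l s') → r s = r s' →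
        Equiv.swap a b (f s) ≠ f s' := by
      intro s h1 s' h2 w1 w2 hr' hh
      by_cases c1 : f s = a
      · rw [c1, Equiv.swap_apply_left] at hh
        exact w2 (W3 s h1 s' h2 c1 hh.symm hr'.symm w1)
      by_cases c2 : f s = b
      · rw [c2, Equiv.swap_apply_right] at hh
        exact w2 (W2 s' h2 s h1 hh.symm c2 hr' w1)
      rw [Equiv.swap_apply_of_ne_of_ne c1 c2] at hh
      obtain rfl := hf s h1 s' h2 (Or.inr hr') hh
      exact w2 w1
    have hg : ∀ s ∈ T, ∀ s' ∈ T, (l s = l s' ∨ r s = r s') → g s = g s' → s = s' := by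
      intro s h1 s' h2 h3 h4
      by_cases w1 : W (l s) <;> by_cases w2 : W (l s') <;> simp only [g, w1, w2, if_true,
        if_false] at h4
      · exact hf s h1 s' h2 h3 ((Equiv.swap a b).injective h4)
      · rcases h3 with h3 | h3
        · exact absurd (h3 ▸ w1) w2
        · exact absurd h4 (mixed s h1 s' h2 w1 w2 h3)
      · rcases h3 with h3 | h3
        · exact absurd (h3 ▸ w2) w1
        · exact absurd h4.symm (mixed s' h2 s h1 w2 w1 h3.symm)
      · exact hf s h1 s' h2 h3 h4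
    have hge : ∀ s ∈ T, (l s = l e ∨ r s = r e) → g s ≠ a := by
      intro s h1 h2 h3
      by_cases w1 : W (l s) <;> simp only [g, w1, if_true, if_false] at h3
      · rcases h2 with h2 | h2
        · exact We (h2 ▸ w1)
        · have : f s = b := by
            have := congrArg (Equiv.swap a b) h3
            rwa [Equiv.swap_apply_self, Equiv.swap_apply_left] at this
          exact hb s h1 h2 this
      · rcases h2 with h2 | h2
        · exact ha s h1 h2 h3
        · exact w1 ⟨s, h1, h3, h2, Relation.ReflTransGen.refl⟩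
    have hne : ∀ s ∈ T, s ≠ e := fun s hs => by rintro rfl; exact he hs
    refine ⟨Function.update g e a, fun s hs s' hs' h3 h4 => ?_⟩
    rcases mem_insert.1 hs with h1 | h1 <;> rcases mem_insert.1 hs' with h2 | h2
    · exact h1.trans h2.symm
    · subst h1
      rw [Function.update_self, Function.update_of_ne (hne s' h2)] at h4
      exact absurd h4.symm (hge s' h2 (h3.imp Eq.symm Eq.symm))
    · subst h2
      rw [Function.update_self, Function.update_of_ne (hne s h1)] at h4
      exact absurd h4 (hge s h1 h3)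
    · rw [Function.update_of_ne (hne s h1), Function.update_of_ne (hne s' h2)] at h4
      exact hg s h1 s' h2 h3 h4

end

end Pool.Agent.Lib.MP_de1a09_co
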