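import Pool.Agent.Lib.MP_de1a09_co.Bal

/-! Sorting the trees into batches. -/

set_option autoImplicit false
set_option linter.unusedVariables false
set_option linter.unusedSectionVars false

open Finset

namespace Pool.Agent.Lib.MP_de1a09_co

noncomputable section
open Classical

theorem exists_batch (t Eb Jb nb R B : ℕ) (hR : 4 ≤ R) (hnb : 0 < nb) (hEb : 0 < Eb)
    (ht : t ≤ Jb * (Eb * nb)) (hB : B = Eb + 6 + Jb * (Eb + R ^ 2))
    (PB PS PO : Fin t → ℕ) (hP : ∀ i, PB i + PS i + PO i ≤ i.1 + 2) :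
    ∃ (bt : Fin t → Fin B) (a ab : Fin B → ℕ), (∀ β, 0 < ab β ∧ ab β < a β ∧ a β < R) ∧
      (∀ i, 5 < (bt i).1) ∧ (∀ β, cnt (fun i => bt i = β) ≤ nb) ∧
      ∀ i, PB i * (R - 3) ≤ ((bt i).1 - 5) * ab (bt i) * nb ∧
        PS i * (R - 3) ≤ ((bt i).1 - 5) * (a (bt i) - ab (bt i)) * nb ∧
        PO i * (R - 3) ≤ ((bt i).1 - 5) * (R - a (bt i)) * nb := by
  set w := Eb * nb with hw
  have w0 : 0 < w := by positivity
  obtain ⟨R', rfl⟩ : ∃ R', R = R' + 3 := ⟨R - 3, by omega⟩
  simp only [Nat.add_sub_cancel]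
  let j : Fin t → ℕ := fun i => i.1 / w
  have hj : ∀ i, j i < Jb := fun i => (Nat.div_lt_iff_lt_mul w0).2 (i.2.trans_le ht)
  let sg : Fin t → ℕ := fun i => (j i + 1) * w + 1
  have hsg : ∀ i, i.1 + 2 ≤ sg i := fun i => by
    have := Nat.lt_div_mul_add (a := i.1) w0
    simp only [sg, j, add_mul]; omega
  have sg0 : ∀ i, 0 < sg i := fun i => Nat.succ_pos _
  let x : Fin t → ℕ := fun i => PB i * R' / sg i
  let y : Fin t → ℕ := fun i => PS i * R' / sg i
  have x1 : ∀ i, x i * sg i ≤ PB i * R' := fun i => Nat.div_mul_le_self _ _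
  have y1 : ∀ i, y i * sg i ≤ PS i * R' := fun i => Nat.div_mul_le_self _ _
  have x2 : ∀ i, PB i * R' ≤ (x i + 1) * sg i := fun i => by
    have := Nat.lt_div_mul_add (a := PB i * R') (sg0 i)
    simp only [x, add_mul]; omega
  have y2 : ∀ i, PS i * R' ≤ (y i + 1) * sg i := fun i => by
    have := Nat.lt_div_mul_add (a := PS i * R') (sg0 i)
    simp only [y, add_mul]; omega
  have xy : ∀ i, (x i + y i) * sg i + PO i * R' ≤ R' * sg i := fun i => by
    have := Nat.mul_le_mul_right R' ((hP i).trans (hsg i))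
    have := x1 i
    have := y1 i
    nlinarith
  have xy' : ∀ i, x i + y i ≤ R' := fun i =>
    Nat.le_of_mul_le_mul_right ((Nat.le_add_right _ _).trans (xy i)) (sg0 i)
  let cat : Fin t → Fin Jb × Fin (R' + 3) × Fin (R' + 3) := fun i =>
    (⟨j i, hj i⟩, ⟨x i, by have := xy' i; omega⟩, ⟨y i, by have := xy' i; omega⟩)
  obtain ⟨e, e1, e2⟩ := exists_rank (fun _ : Fin t => True) cat
  simp only [true_and, forall_const] at e1 e2
  let n : Fin Jb × Fin (R' + 3) × Fin (R' + 3) → ℕ := fun C => cnt fun i => cat i = C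
  let S := (Fin Jb × Fin (R' + 3) × Fin (R' + 3)) × Fin (t + 1)
  let P : S → Prop := fun s => s.2.1 < n s.1 / nb + 1
  have elt : ∀ i, e i / nb < t + 1 := fun i => Nat.lt_succ_of_le ((Nat.div_le_self _ _).trans
    ((e1 i).le.trans ((cnt_le_card _).trans (by simp))))
  let gr : Fin t → S := fun i => (cat i, ⟨e i / nb, elt i⟩)
  have hP' : ∀ i, P (gr i) := fun i => Nat.lt_succ_of_le (Nat.div_le_div_right (e1 i).le)
  obtain ⟨L, hL⟩ : ∃ L, L = Eb + (R' + 3) ^ 2 := ⟨_, rfl⟩
  rw [← hL] at hB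
  have L0 : 0 < L := by rw [hL]; positivity
  haveI : Nonempty (Fin L) := ⟨⟨0, L0⟩⟩
  obtain ⟨τ, hτ⟩ := exists_fib_inj (J := Fin L) P (fun s => s.1.1) (fun s _ => by
    generalize s.1.1 = c
    rw [Fintype.card_fin, cnt_fib _ (fun s : S => s.1.2)]
    have a1 : ∑ C, n (c, C) ≤ w := by
      calc _ ≤ ∑ C, cnt (fun i => j i = c.1 ∧ (cat i).2 = C) := sum_le_sum fun C _ =>
            cnt_mono fun i hi => ⟨congrArg (fun z => z.1.1) hi, congrArg Prod.snd hi⟩
        _ = cnt (fun i => j i = c.1) := (cnt_fib _ _).symm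
        _ ≤ w := cnt_le_of_inj_nat (fun i => i.1 % w) w (fun i _ => Nat.mod_lt _ w0)
            fun i i' h1 h2 h3 => Fin.ext (by
              rw [← Nat.div_add_mod i.1 w, ← Nat.div_add_mod i'.1 w, h3]
              exact congrArg (fun z => w * z + _) (h1.trans h2.symm))
    have a2 : (∑ C, n (c, C) / nb) ≤ Eb := by
      refine Nat.le_of_mul_le_mul_right (le_trans ?_ a1) hnb
      rw [sum_mul]
      exact sum_le_sum fun C _ => Nat.div_mul_le_self _ _
    calc _ ≤ ∑ C, (n (c, C) / nb + 1) := sum_le_sum fun C _ =>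
          cnt_le_of_inj_nat (fun s => s.2.1) _
            (fun s hs => by rw [← hs.1.2, ← hs.2]; exact hs.1.1) fun s s' hs hs' h =>
            Prod.ext (Prod.ext (hs.1.2.trans hs'.1.2.symm) (hs.2.trans hs'.2.symm)) (Fin.ext h)
      _ ≤ _ := by
          rw [sum_add_distrib]
          simp only [sum_const, card_univ, Fintype.card_prod, Fintype.card_fin, smul_eq_mul,
            mul_one, hL, pow_two]
          omega)
  have blt : ∀ i, Eb + 6 + (j i * L + (τ (gr i)).1) < B := fun i => by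
    have h1 := Nat.mul_le_mul_right L (Nat.succ_le_of_lt (hj i))
    have h2 := (τ (gr i)).2
    rw [Nat.succ_mul] at h1
    omega
  let bt : Fin t → Fin B := fun i => ⟨_, blt i⟩
  have binj : ∀ i i', bt i = bt i' → gr i = gr i' := by
    intro i i' h
    have h1 : j i * L + (τ (gr i)).1 = j i' * L + (τ (gr i')).1 := by
      have := congrArg Fin.val h
      simp only [bt] at this
      omega
    have h2 : j i = j i' := by
      have := congrArg (· / L) h1
      simpa [mul_comm _ L, Nat.mul_add_div L0, Nat.div_eq_of_lt (τ _).2] using this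
    rw [h2] at h1
    exact hτ _ _ (hP' i) (hP' i') (Fin.ext h2) (Fin.ext (Nat.add_left_cancel h1))
  let a : Fin B → ℕ := fun β => if h : ∃ i, bt i = β then x h.choose + y h.choose + 2 else 2
  let ab : Fin B → ℕ := fun β => if h : ∃ i, bt i = β then x h.choose + 1 else 1
  have ha : ∀ i, a (bt i) = x i + y i + 2 ∧ ab (bt i) = x i + 1 := by
    intro i
    have h : ∃ i', bt i' = bt i := ⟨i, rfl⟩
    have h1 := congrArg Prod.fst (binj _ _ h.choose_spec)
    have h2 : x h.choose = x i := congrArg (fun z => z.2.1.1) h1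
    have h3 : y h.choose = y i := congrArg (fun z => z.2.2.1) h1
    simp only [a, ab, dif_pos h, h2, h3, and_self]
  refine ⟨bt, a, ab, fun β => ?_, fun i => by simp only [bt]; omega, fun β => ?_, fun i => ?_⟩
  · by_cases h : ∃ i, bt i = β
    · obtain ⟨i, rfl⟩ := h
      have := xy' i
      rw [(ha i).1, (ha i).2]; omega
    · simp only [a, ab, dif_neg h]; omega
  · refine cnt_le_of_inj_nat (fun i => e i % nb) nb (fun i _ => Nat.mod_lt _ hnb)
      fun i i' h1 h2 h3 => ?_
    have h4 := binj i i' (h1.trans h2.symm)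
    have h5 : e i / nb = e i' / nb := congrArg (fun z => z.2.1) h4
    refine e2 i i' (congrArg Prod.fst h4) ?_
    rw [← Nat.div_add_mod (e i) nb, ← Nat.div_add_mod (e i') nb, h5, h3]
  · have h1 : sg i ≤ ((bt i).1 - 5) * nb := by
      have h2 : (j i + 1) * Eb + 1 ≤ (bt i).1 - 5 := by
        have : j i * Eb ≤ j i * L := Nat.mul_le_mul_left _ (by omega)
        simp only [bt, add_mul]; omega
      have := Nat.mul_le_mul_right nb h2
      simp only [sg, hw]
      nlinarith
    rw [(ha i).1, (ha i).2]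
    have h3 := xy' i
    refine ⟨(x2 i).trans ?_, (y2 i).trans ?_, ?_⟩
    · nlinarith [Nat.mul_le_mul_left (x i + 1) h1]
    · rw [show x i + y i + 2 - (x i + 1) = y i + 1 by omega]
      nlinarith [Nat.mul_le_mul_left (y i + 1) h1]
    · obtain ⟨z, hz⟩ : ∃ z, R' = x i + y i + z := ⟨R' - (x i + y i), by omega⟩
      rw [show R' + 3 - (x i + y i + 2) = z + 1 by omega]
      have h4 := xy i
      have h5 : PO i * R' ≤ z * sg i := by rw [hz] at h4 ⊢; nlinarith
      nlinarith [Nat.mul_le_mul_left (z + 1) h1]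

end

end Pool.Agent.Lib.MP_de1a09_co
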