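import Pool.Agent.Lib.MP_de1a09_co.Tree

/-! Decomposition of a tree into hubs and bounded pieces. -/

set_option autoImplicit false
set_option linter.unusedVariables false
set_option linter.unusedSectionVars false

open Finset

namespace Pool.Agent.Lib.MP_de1a09_co

noncomputable section
open Classical

abbrev Role : Type := Fin 7
abbrev rN : Role := 0
abbrev rB : Role := 1
abbrev rS : Role := 2
abbrev rO : Role := 3
abbrev rE : Role := 4
abbrev rT : Role := 5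
abbrev rD : Role := 6

def isZ (x : Role) : Prop := x = rT ∨ x = rD
def isOE (x : Role) : Prop := x = rO ∨ x = rE

def allowed (x y : Role) : Prop :=
  ((x = rB ∨ x = rS ∨ x = rE) ∧ y = rO) ∨ (x = rO ∧ y = rE) ∨ (x = rT ∧ (isOE y ∨ y = rD)) ∨
    (isOE x ∧ y = rD) ∨ (x = rD ∧ isOE y)

/-- heap parent -/
def hp {k : ℕ} (K : ℕ) (a : Fin k) : Fin k :=
  ⟨(a.1 - 1) / K, lt_of_le_of_lt ((Nat.div_le_self _ _).trans (Nat.sub_le _ _)) a.2⟩

def Valid {k : ℕ} (K : ℕ) (τ : Fin k → Role) : Prop :=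
  ∀ a, τ a ≠ rN → a.1 ≠ 0 → allowed (τ (hp K a)) (τ a)

def Zinc {k : ℕ} (K : ℕ) (τ : Fin k → Role) (a : Fin k) : Prop :=
  isZ (τ a) ∨ (a.1 ≠ 0 ∧ τ a ≠ rN ∧ isZ (τ (hp K a)))

/-- a decomposed rooted tree -/
structure Dec (K k r d0 σ : ℕ) (V : Type) [Fintype V] : Type extends RT V where
  A : V → Prop
  Big : V → Prop
  tp : V → V
  ad : V → Fin k
  ty : V → Fin k → Role
  A_rt : A rt
  Big_A : ∀ v, Big v → A v
  cntA : cnt A ≤ 3 * σ
  cntBig : cnt Big ≤ r
  small_ch : ∀ v, ¬ Big v → cnt (fun u => u ≠ rt ∧ p u = v) ≤ d0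
  small_big : ∀ u u', u ≠ rt → u' ≠ rt → p u = p u' → ¬ Big (p u) → Big u → Big u' → u = u'
  tp_nA : ∀ v, ¬ A v → ¬ A (tp v)
  tp_p : ∀ v, ¬ A v → A (p (tp v))
  tp_self : ∀ v, A (p v) → tp v = v
  tp_par : ∀ v, ¬ A (p v) → tp (p v) = tp v
  tp_d : ∀ v, d (tp v) ≤ d v
  ad0 : ∀ v, (ad v).1 = 0 ↔ A (p v)
  ad_par : ∀ v, ¬ A (p v) → ¬ A v → ad (p v) = hp K (ad v)
  ad_inj : ∀ u v, ¬ A u → ¬ A v → tp u = tp v → ad u = ad v → u = v
  ty_tp : ∀ u v, tp u = tp v → ty u = ty v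
  valid : ∀ v, Valid K (ty v)
  role_ne : ∀ v, ¬ A v → ty v (ad v) ≠ rN
  role_ex : ∀ v a, ty v a ≠ rN → ∃ u, ¬ A u ∧ tp u = tp v ∧ ad u = a
  role_top : ∀ v, ¬ A v → A (p v) → ty v (ad v) = rT ∨ (ty v (ad v) = rB ∧ Big (p v)) ∨
    (ty v (ad v) = rS ∧ ¬ Big (p v))
  role_bot : ∀ b, A b → ¬ A (p b) → isZ (ty (p b) (ad (p b))) ∧
    ty (tp (p b)) (ad (tp (p b))) = rT
  bot_uniq : ∀ b b', A b → A b' → ¬ A (p b) → ¬ A (p b') → tp (p b) = tp (p b') → b = b'
  zt_ch : ∀ x, cnt (fun u => ¬ A u ∧ p u = x ∧ ty u (ad u) = rT) ≤ K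
  cntZ : cnt (fun v => ¬ A v ∧ Zinc K (ty v) (ad v)) ≤ 14 * σ

theorem exists_Dec {V : Type} [Fintype V] (T : RT V) (n J h r d0 σ : ℕ) (hn : Fintype.card V ≤ n)
    (hJ : 0 < J) (hh : 0 < h) (hd0 : 2 ^ J ≤ d0) (hr : 2 * (1 + n / d0) ≤ r)
    (hσ : 2 ^ J + 2 * n / J + 2 ^ J * (n / h) ≤ σ) :
    ∃ D : Dec (2 ^ J) ((2 ^ J + 1) ^ h) r d0 σ V, D.toRT = T := by
  obtain ⟨j, hj, hj2⟩ := T.exists_scale J hJ
  obtain ⟨ρ, hρ, hρ2⟩ := T.exists_res h hh
  set K := 2 ^ J with hK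
  have hK0 : 0 < K := by positivity
  set K' := 2 ^ j with hK'
  have hK'0 : 0 < K' := by positivity
  have hKK : K' ≤ K := Nat.pow_le_pow_right (by norm_num) hj.le
  let S : V → Prop := fun v => v = T.rt ∨ K' ≤ T.ch v ∨ T.d v % h = ρ
  have hS : K' * cnt S ≤ σ := by
    have e1 : cnt S ≤ cnt (fun v => v = T.rt) + (cnt (fun v => K' ≤ T.ch v) +
        cnt (fun v => T.d v % h = ρ)) := (cnt_or _ _).trans (add_le_add_right (cnt_or _ _) _)
    have e2 : cnt (fun v => v = T.rt) ≤ 1 := cnt_le_one fun x y hx hy => hx.trans hy.symm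
    have e3 : K' * cnt (fun v => K' ≤ T.ch v) ≤ 2 * n / J :=
      (Nat.le_div_iff_mul_le hJ).2 (hj2.trans (by omega))
    have e4 : cnt (fun v => T.d v % h = ρ) ≤ n / h := (Nat.le_div_iff_mul_le hh).2 (hρ2.trans hn)
    have e5 : K' * cnt (fun v => T.d v % h = ρ) ≤ K * (n / h) := Nat.mul_le_mul hKK e4
    have e6 := Nat.mul_le_mul_left K' (e1.trans (add_le_add_left e2 _))
    rw [mul_add, mul_add] at e6
    omega
  have hS1 : cnt S ≤ σ := le_trans (Nat.le_mul_of_pos_left _ hK'0) hS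
  have Srt : S T.rt := Or.inl rfl
  let X := T.X S
  let A : V → Prop := fun v => S v ∨ (T.Br S v ∧ ¬ S v) ∨ ((v ≠ T.rt ∧ X v) ∧ S (T.p v))
  have Art : A T.rt := Or.inl Srt
  have hA : cnt A ≤ 3 * cnt S := by
    have e1 : cnt A ≤ cnt S + (cnt (fun v => T.Br S v ∧ ¬ S v) +
      cnt (fun v => (v ≠ T.rt ∧ X v) ∧ S (T.p v))) :=
      (cnt_or _ _).trans (add_le_add_right (cnt_or _ _) _)
    have e2 := RT.cnt_Br (T := T) Srt
    have e3 : cnt (fun v => (v ≠ T.rt ∧ X v) ∧ S (T.p v)) ≤ cnt S := RT.cnt_Ch (T := T) Srt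
    omega
  have AX : ∀ v, A v → X v := by
    rintro v (h | h | h)
    exacts [RT.X_of h, RT.X_Br h.1, h.1.2]
  have BrA : ∀ v, T.Br S v → A v := fun v hv => by
    by_cases h : S v
    exacts [Or.inl h, Or.inr (Or.inl ⟨hv, h⟩)]
  have nrt : ∀ v, ¬ A v → v ≠ T.rt := fun v hv h => hv (h ▸ Art)
  have nrt' : ∀ v, ¬ A (T.p v) → v ≠ T.rt := fun v hv h => hv (by rw [h, T.p_rt]; exact Art)
  have chA : ∀ v, ¬ A v → T.ch v < K' := fun v hv =>
    not_le.1 fun h => hv (Or.inl (Or.inr (Or.inl h)))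
  have uniqX : ∀ u u', ¬ A (T.p u) → T.p u = T.p u' → X u → X u' → u = u' := by
    intro u u' h1 h2 h3 h4
    by_contra hne
    exact h1 (BrA _ ⟨u, u', hne, nrt' u h1, nrt' u' (h2 ▸ h1), rfl, h2.symm, h3, h4⟩)
  let S0 : V → Prop := fun v => v = T.rt ∨ d0 < T.ch v
  let Big : V → Prop := fun v => S0 v ∨ (T.Br S0 v ∧ ¬ S0 v)
  have S0S : ∀ v, S0 v → S v := fun v hv => hv.imp_right fun h => Or.inl (by omega)
  obtain ⟨idx, hidx1, hidx2⟩ := exists_rank (fun u => u ≠ T.rt) T.p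
  let tp := T.top A
  let adr := T.adr A K idx
  have tp1 : ∀ v, A (T.p v) → tp v = v := fun v hv => by
    simp only [tp]; rw [RT.top, dif_pos (Or.inr hv)]
  have tp2 : ∀ v, ¬ A (T.p v) → tp (T.p v) = tp v := fun v hv => by
    simp only [tp]; conv_rhs => rw [RT.top, dif_neg (not_or.2 ⟨nrt' v hv, hv⟩)]
  have ad1 : ∀ v, A (T.p v) → adr v = 0 := fun v hv => by
    simp only [adr]; rw [RT.adr, dif_pos (Or.inr hv)]
  have ad2 : ∀ v, ¬ A (T.p v) → adr v = K * adr (T.p v) + idx v + 1 := fun v hv => by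
    simp only [adr]; conv_lhs => rw [RT.adr, dif_neg (not_or.2 ⟨nrt' v hv, hv⟩)]
  have idxK : ∀ v, ¬ A (T.p v) → idx v < K := fun v hv =>
    (hidx1 v (nrt' v hv)).trans ((chA _ hv).trans_le hKK)
  have tpA : ∀ v, ¬ A v → ¬ A (tp v) ∧ A (T.p (tp v)) := by
    refine T.induct _ fun v ih hv => ?_
    by_cases h : A (T.p v)
    · rw [tp1 v h]; exact ⟨hv, h⟩
    · rw [← tp2 v h]; exact ih (nrt v hv) h
  have tpd : ∀ v, T.d (tp v) ≤ T.d v := by
    refine T.induct _ fun v ih => ?_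
    by_cases h : A (T.p v)
    · rw [tp1 v h]
    · rw [← tp2 v h]
      have := ih (nrt' v h)
      have := T.d_p v (nrt' v h)
      omega
  have tpX : ∀ v, X v → X (tp v) := by
    refine T.induct _ fun v ih hv => ?_
    by_cases h : A (T.p v)
    · rw [tp1 v h]; exact hv
    · rw [← tp2 v h]; exact ih (nrt' v h) (RT.X_p hv)
  have tpeq : ∀ v, T.d (tp v) = T.d v → A (T.p v) := by
    intro v hv
    by_contra h
    have e1 := tpd (T.p v)
    rw [tp2 v h] at e1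
    have := T.d_p v (nrt' v h)
    omega
  have adlt : ∀ v, ¬ A v → adr v < (K + 1) ^ ((T.d v + h - ρ) % h) := by
    refine T.induct _ fun v ih hv => ?_
    by_cases h1 : A (T.p v)
    · rw [ad1 v h1]; positivity
    · have e1 := ih (nrt v hv) h1
      have e2 : (T.d v + h - ρ) % h = (T.d (T.p v) + h - ρ) % h + 1 := by
        have e3 := T.d_p v (nrt v hv)
        have e4 : T.d v % h ≠ ρ := fun h => hv (Or.inl (Or.inr (Or.inr h)))
        have e5 : T.d v + h - ρ = (T.d (T.p v) + h - ρ) + 1 := by omega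
        have e6 : (T.d v + h - ρ) % h ≠ 0 := by
          intro e7
          apply e4
          have e8 : (T.d v + h - ρ + ρ) % h = ρ := by
            rw [Nat.add_mod, e7, zero_add, Nat.mod_mod, Nat.mod_eq_of_lt hρ]
          rwa [show T.d v + h - ρ + ρ = T.d v + h by omega, Nat.add_mod_right] at e8
        rw [e5] at e6 ⊢
        generalize T.d (T.p v) + h - ρ = x at e6 ⊢
        have e9 := Nat.mod_lt x hh
        rcases Nat.lt_or_ge (x % h + 1) h with e10 | e10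
        · rw [← Nat.mod_add_mod, Nat.mod_eq_of_lt e10]
        · exact absurd (by rw [← Nat.mod_add_mod, show x % h + 1 = h by omega, Nat.mod_self]) e6
      rw [e2, ad2 v h1, pow_succ]
      have := idxK v h1
      nlinarith
  have kpos : 0 < (K + 1) ^ h := by positivity
  have adlt' : ∀ v, ¬ A v → adr v < (K + 1) ^ h := fun v hv =>
    (adlt v hv).trans_le (Nat.pow_le_pow_right (by omega) (Nat.mod_lt _ hh).le)
  let ad : V → Fin ((K + 1) ^ h) := fun v =>
    if hv : adr v < (K + 1) ^ h then ⟨adr v, hv⟩ else ⟨(K + 1) ^ h - 1, by omega⟩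
  have adv : ∀ v, ¬ A v → (ad v).1 = adr v := fun v hv => by simp only [ad, adlt' v hv, dite_true]
  have ad0 : ∀ v, (ad v).1 = 0 ↔ A (T.p v) := by
    intro v
    have e1 : 1 < (K + 1) ^ h := Nat.one_lt_pow hh.ne' (by omega)
    by_cases h1 : A (T.p v)
    · simp [ad, ad1 v h1, h1, kpos]
    · simp only [h1, iff_false, ad]
      split_ifs with h2
      · simp only [ad2 v h1]; omega
      · simp only; omega
  have adpar : ∀ v, ¬ A (T.p v) → ¬ A v → ad (T.p v) = hp K (ad v) := by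
    intro v h1 h2
    apply Fin.ext
    simp only [hp, adv _ h1, adv _ h2, ad2 v h1, Nat.add_sub_cancel]
    rw [Nat.mul_add_div hK0, Nat.div_eq_of_lt (idxK v h1), add_zero]
  have adinj : ∀ u v, ¬ A u → ¬ A v → tp u = tp v → ad u = ad v → u = v := by
    refine T.induct _ fun u ih v hu hv h1 h2 => ?_
    by_cases h3 : A (T.p u)
    · have h4 : A (T.p v) := (ad0 v).1 (h2 ▸ (ad0 u).2 h3)
      rwa [tp1 u h3, tp1 v h4] at h1
    · have h4 : ¬ A (T.p v) := fun h => h3 ((ad0 u).1 (h2 ▸ (ad0 v).2 h))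
      have h5 : T.p u = T.p v := ih (nrt u hu) _ h3 h4 (by rw [tp2 u h3, tp2 v h4, h1])
        (by rw [adpar u h3 hu, adpar v h4 hv, h2])
      have h6 : adr u = adr v := by rw [← adv u hu, ← adv v hv, h2]
      rw [ad2 u h3, ad2 v h4, h5] at h6
      exact hidx2 u v (nrt u hu) (nrt v hv) h5 (by omega)
  let HasB : V → Prop := fun v => ∃ b, A b ∧ T.p b = v
  let role : V → Role := fun v => if A (T.p v) then (if X v then rT else
    if Big (T.p v) then rB else rS) else if HasB v then rD else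
    if (T.d v + T.d (tp v)) % 2 = 1 then rO else rE
  let ty : V → Fin ((K + 1) ^ h) → Role := fun v a =>
    if hx : ∃ u, ¬ A u ∧ tp u = tp v ∧ ad u = a then role hx.choose else rN
  have ty1 : ∀ u v, ¬ A u → tp u = tp v → ty v (ad u) = role u := by
    intro u v hu huv
    have hx : ∃ u', ¬ A u' ∧ tp u' = tp v ∧ ad u' = ad u := ⟨u, hu, huv, rfl⟩
    simp only [ty, dif_pos hx]
    obtain ⟨e1, e2, e3⟩ := hx.choose_spec
    rw [adinj _ _ e1 hu (e2.trans huv.symm) e3]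
  have ty2 : ∀ v a, ty v a ≠ rN → ∃ u, ¬ A u ∧ tp u = tp v ∧ ad u = a := by
    intro v a hva
    by_contra hx
    exact hva (by simp only [ty, dif_neg hx])
  have role_ne : ∀ v, role v ≠ rN := fun v => by
    simp only [role]; split_ifs <;> decide
  -- vertices of the Steiner tree inside a piece form a path
  have pathX : ∀ u u', ¬ A u → ¬ A u' → X u → X u' → tp u = tp u' → T.d u = T.d u' → u = u' := by
    refine T.induct _ fun u ih u' hu hu' x1 x2 h1 h2 => ?_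
    by_cases h3 : A (T.p u)
    · have h4 : A (T.p u') := tpeq u' (by rw [← h1, tp1 u h3, h2])
      rwa [tp1 u h3, tp1 u' h4] at h1
    · have h4 : ¬ A (T.p u') := fun h => h3 (tpeq u (by rw [h1, tp1 u' h, h2]))
      have e1 := T.d_p u (nrt u hu)
      have e2 := T.d_p u' (nrt u' hu')
      exact uniqX u u' h3 (ih (nrt u hu) _ h3 h4 (RT.X_p x1) (RT.X_p x2)
        (by rw [tp2 u h3, tp2 u' h4, h1]) (by omega)) x1 x2
  have anc : ∀ u, ¬ A u → X u → ∀ e, T.d (tp u) ≤ e → e ≤ T.d u →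
      ∃ w, ¬ A w ∧ X w ∧ tp w = tp u ∧ T.d w = e := by
    refine T.induct _ fun u ih hu hx e h1 h2 => ?_
    rcases h2.eq_or_lt with h2 | h2
    · exact ⟨u, hu, hx, rfl, h2.symm⟩
    · have h3 : ¬ A (T.p u) := fun h => by rw [tp1 u h] at h1; omega
      have e1 := T.d_p u (nrt u hu)
      obtain ⟨w, g1, g2, g3, g4⟩ := ih (nrt u hu) h3 (RT.X_p hx) e (by rw [tp2 u h3]; exact h1)
        (by omega)
      exact ⟨w, g1, g2, g3.trans (tp2 u h3), g4⟩
  have botlt : ∀ b u, A b → ¬ A (T.p b) → ¬ A u → X u → tp u = tp (T.p b) →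
      T.d u ≤ T.d (T.p b) := by
    intro b u hb h1 hu hx h2
    by_contra hlt
    have e0 := tpd (T.p b)
    obtain ⟨w, g1, g2, g3, g4⟩ := anc u hu hx (T.d (T.p b) + 1) (by rw [h2]; omega) (by omega)
    have g5 : ¬ A (T.p w) := fun h => by
      rw [tp1 w h] at g3
      rw [← h2, ← g3] at e0
      omega
    have e1 := T.d_p w (nrt w g1)
    have g6 : T.p w = T.p b := pathX _ _ g5 h1 (RT.X_p g2) (RT.X_p (AX b hb))
      (by rw [tp2 w g5, g3, h2]) (by omega)
    exact g1 (uniqX w b g5 g6 g2 (AX b hb) ▸ hb)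
  have botu : ∀ b b', A b → A b' → ¬ A (T.p b) → ¬ A (T.p b') → tp (T.p b) = tp (T.p b') →
      b = b' := by
    intro b b' h1 h2 h3 h4 h5
    have e1 := botlt b _ h1 h3 h4 (RT.X_p (AX _ h2)) h5.symm
    have e2 := botlt b' _ h2 h4 h3 (RT.X_p (AX _ h1)) h5
    exact uniqX b b' h3 (pathX _ _ h3 h4 (RT.X_p (AX _ h1)) (RT.X_p (AX _ h2)) h5 (by omega))
      (AX _ h1) (AX _ h2)
  have rT_iff : ∀ v, role v = rT → A (T.p v) ∧ X v := by
    intro v hv
    simp only [role] at hv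
    split_ifs at hv with h1 h2 <;> first | exact ⟨h1, h2⟩ | exact absurd hv (by decide)
  have rD_iff : ∀ v, role v = rD → HasB v := by
    intro v hv
    simp only [role] at hv
    split_ifs at hv with h1 h2 h3 h4 <;> first | exact h4 | exact absurd hv (by decide)
  have allow : ∀ u, ¬ A u → ¬ A (T.p u) → allowed (role (T.p u)) (role u) := by
    intro u hu h1
    have e1 := T.d_p u (nrt u hu)
    have hB : HasB u → X u := fun ⟨b, g1, g2⟩ => g2 ▸ RT.X_p (AX b g1)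
    by_cases c1 : A (T.p (T.p u))
    · have e2 : tp u = T.p u := by rw [← tp2 u h1, tp1 _ c1]
      have e3 : (T.d u + T.d (tp u)) % 2 = 1 := by rw [e2]; omega
      by_cases c2 : X (T.p u)
      · simp only [role, c1, c2, h1, e3, if_true, if_false]
        split_ifs <;> simp [allowed, isOE]
      · have c3 : ¬ HasB u := fun h => c2 (RT.X_p (hB h))
        simp only [role, c1, c2, h1, e3, c3, if_true, if_false]
        split_ifs <;> simp [allowed, isOE]
    · by_cases c2 : HasB (T.p u)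
      · have c3 : ¬ HasB u := by
          rintro ⟨b, g1, g2⟩
          obtain ⟨b', g3, g4⟩ := c2
          have := botlt b' u g3 (g4 ▸ h1) hu (g2 ▸ RT.X_p (AX b g1)) (by rw [g4, tp2 u h1])
          rw [g4] at this
          omega
        simp only [role, c1, c2, h1, c3, if_true, if_false]
        split_ifs <;> simp [allowed, isOE]
      · simp only [role, c1, c2, h1, tp2 u h1, if_true, if_false]
        split_ifs <;> first | omega | simp [allowed, isOE]
  have cZ : cnt (fun v => ¬ A v ∧ isZ (role v)) ≤ 7 * cnt S := by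
    have e1 : cnt (fun v => ¬ A v ∧ isZ (role v)) ≤
        cnt (fun u => (u ≠ T.rt ∧ T.X S u) ∧ A (T.p u)) + cnt HasB :=
      cnt_le_add fun v hv => hv.2.imp
        (fun h => ⟨⟨nrt v hv.1, (rT_iff v h).2⟩, (rT_iff v h).1⟩) (rD_iff v)
    have e2 := RT.steiner (T := T) (Y := A) Srt AX
    have e3 : cnt HasB ≤ cnt A := cnt_surj T.p fun y hy => hy
    omega
  refine ⟨⟨T, A, Big, tp, ad, ty, Art, ?_, hA.trans (by omega), ?_, ?_, ?_,
    fun v hv => (tpA v hv).1, fun v hv => (tpA v hv).2, tp1, tp2, tpd, ad0, adpar, adinj, ?_, ?_,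
    ?_, ty2, ?_, ?_, botu, ?_, ?_⟩, rfl⟩
  · rintro v (h | h)
    exacts [Or.inl (S0S v h), BrA v (RT.Br_mono S0S h.1)]
  · have e1 : cnt Big ≤ cnt S0 + cnt (fun v => T.Br S0 v ∧ ¬ S0 v) := cnt_or _ _
    have e2 := RT.cnt_Br (T := T) (S := S0) (Or.inl rfl)
    have e3 : cnt S0 ≤ cnt (fun v => v = T.rt) + cnt (fun v => d0 < T.ch v) := cnt_or _ _
    have e4 : cnt (fun v => v = T.rt) ≤ 1 := cnt_le_one fun x y hx hy => hx.trans hy.symm
    have e5 : cnt (fun v => d0 < T.ch v) ≤ n / d0 :=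
      (Nat.le_div_iff_mul_le (by omega)).2 ((T.cnt_high d0).trans hn)
    omega
  · intro v hv
    exact not_lt.1 fun h => hv (Or.inl (Or.inr h))
  · intro u u' h1 h2 h3 h4 h5 h6
    by_contra hne
    have BX : ∀ v, Big v → T.X S0 v := fun v hv => hv.elim RT.X_of fun h => RT.X_Br h.1
    exact h4 (Or.inr ⟨⟨u, u', hne, h1, h2, rfl, h3.symm, BX _ h5, BX _ h6⟩,
      fun h => h4 (Or.inl h)⟩)
  · intro u v huv
    simp only [ty, huv]
  · intro v a h1 h2
    obtain ⟨u, g1, g2, rfl⟩ := ty2 v a h1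
    have g3 : ¬ A (T.p u) := fun h => h2 ((ad0 u).2 h)
    rw [← adpar u g3 g1, ty1 u v g1 g2, ty1 _ v g3 ((tp2 u g3).trans g2)]
    exact allow u g1 g3
  · intro v hv
    rw [ty1 v v hv rfl]; exact role_ne v
  · intro v hv h1
    rw [ty1 v v hv rfl]
    simp only [role, h1, if_true]
    split_ifs with h2 h3
    exacts [Or.inl rfl, Or.inr (Or.inl ⟨rfl, h3⟩), Or.inr (Or.inr ⟨rfl, h3⟩)]
  · intro b h1 h2
    have e1 := tpA _ h2
    have e2 := RT.X_p (AX b h1)
    rw [ty1 _ _ h2 rfl, ty1 _ _ e1.1 rfl]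
    constructor
    · have e3 : HasB (T.p b) := ⟨b, h1, rfl⟩
      simp only [role, e3, show X (T.p b) from e2, if_true]
      split_ifs
      exacts [Or.inl rfl, Or.inr rfl]
    · simp only [role, e1.2, tpX _ e2, if_true]
  · intro x
    by_cases hx : S x
    · refine (cnt_false fun u hu => hu.1 ?_).le.trans (Nat.zero_le _)
      have := rT_iff u (ty1 u u hu.1 rfl ▸ hu.2.2)
      exact Or.inr (Or.inr ⟨⟨nrt u hu.1, this.2⟩, hu.2.1 ▸ hx⟩)
    · have : T.ch x < K' := not_le.1 fun h => hx (Or.inr (Or.inl h))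
      exact (cnt_mono fun u hu => ⟨nrt u hu.1, hu.2.1⟩).trans (this.le.trans hKK)
  · have e1 : cnt (fun v => ¬ A v ∧ Zinc K (ty v) (ad v)) ≤ cnt (fun v => ¬ A v ∧ isZ (role v)) +
        cnt (fun v => v ≠ T.rt ∧ (¬ A (T.p v) ∧ isZ (role (T.p v)))) := by
      refine cnt_le_add fun v hv => ?_
      rcases hv.2 with h | ⟨h1, -, h3⟩
      · exact Or.inl ⟨hv.1, ty1 v v hv.1 rfl ▸ h⟩
      · have g3 : ¬ A (T.p v) := fun h => h1 ((ad0 v).2 h)
        rw [← adpar v g3 hv.1, ty1 _ v g3 (tp2 v g3)] at h3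
        exact Or.inr ⟨nrt v hv.1, g3, h3⟩
    have e2 : cnt (fun v => v ≠ T.rt ∧ (¬ A (T.p v) ∧ isZ (role (T.p v)))) ≤
        cnt (fun v => ¬ A v ∧ isZ (role v)) * K' :=
      cnt_fib_le T.p _ K' (fun v hv => hv.2) fun b hb =>
        (cnt_mono fun u hu => ⟨hu.1.1, hu.2⟩).trans (chA b hb.1).le
    have e3 := Nat.mul_le_mul_right K' cZ
    nlinarith

end

end Pool.Agent.Lib.MP_de1a09_co
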