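import Pool.Agent.Lib.MP_de1a09_co.Basic

/-! The staircase design on cells. -/

set_option autoImplicit false
set_option linter.unusedVariables false
set_option linter.unusedSectionVars false

open Finset

namespace Pool.Agent.Lib.MP_de1a09_co

noncomputable section
open Classical

/-- the staircase design -/
structure Design (B R : ℕ) [NeZero R] (a : Fin B → ℕ) : Type where
  D : Fin B → Fin B × ZMod R → Fin B × ZMod R → Prop
  Root : Fin B → Fin B × ZMod R → Prop
  ne : ∀ β x y, D β x y → x.1 ≠ y.1 ∧ x.1 ≠ β ∧ y.1 ≠ β ∧ Root β x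
  fib1 : ∀ β x, cnt (D β x) ≤ R - a β
  fib2 : ∀ β y, cnt (fun x => D β x y) ≤ R - a β
  big : ∀ β : Fin B, (β.1 - 5) * R * (R - a β) ≤
    cnt (fun q : (Fin B × ZMod R) × (Fin B × ZMod R) => D β q.1 q.2)
  uniq : ∀ β β' x y, D β x y → (D β' x y ∨ D β' y x) → β = β'
  asym : ∀ β x y, D β x y → ¬ D β y x
  anti : ∀ x y : Fin B × ZMod R, x.2.val < a x.1 → Root x.1 y → y.2.val < a y.1 → ¬ Root y.1 x
  nohub : ∀ β x y, D β x y → ¬ (x.2.val < a x.1 ∧ Root x.1 y) ∧ ¬ (y.2.val < a y.1 ∧ Root y.1 x)

lemma exists_interval (f : ℕ → ℕ) (B x : ℕ) (h : x < ∑ b ∈ range B, f b) :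
    ∃ γ < B, ∑ b ∈ range γ, f b ≤ x ∧ x < ∑ b ∈ range γ, f b + f γ := by
  induction B with
  | zero => simp at h
  | succ B ih =>
    rw [sum_range_succ] at h
    by_cases h1 : x < ∑ b ∈ range B, f b
    · obtain ⟨γ, g1, g2⟩ := ih h1
      exact ⟨γ, by omega, g2⟩
    · exact ⟨B, by omega, by omega, h⟩

lemma card_interval_le (M lo len : ℕ) :
    ((range M).filter fun x => lo ≤ x ∧ x < lo + len).card ≤ len := by
  calc _ ≤ (Ico lo (lo + len)).card := card_le_card fun x hx => by
        simp only [mem_filter, mem_Ico] at hx ⊢; exact hx.2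
    _ = len := by simp

theorem exists_design (B R : ℕ) [NeZero R] (a : Fin B → ℕ) (ha : ∀ β, a β < R) :
    Nonempty (Design B R a) := by
  let a' : ℕ → ℕ := fun b => if h : b < B then a ⟨b, h⟩ else 0
  have ha' : ∀ β : Fin B, a' β.1 = a β := fun β => by simp [a']
  have hR : 0 < R := Nat.pos_of_ne_zero (NeZero.ne R)
  have ha'R : ∀ b, a' b ≤ R := fun b => by
    simp only [a']; split_ifs with h
    exacts [(ha _).le, Nat.zero_le _]
  let Qs : ℕ → ℕ := fun β => ∑ b ∈ range β, (R - a' b)
  let Ps : ℕ → ℕ := fun β => ∑ b ∈ range β, a' b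
  have Qs1 : ∀ β : Fin B, Qs (β.1 + 1) = Qs β.1 + (R - a β) := fun β => by
    simp only [Qs]; rw [sum_range_succ, ha']
  have Ps1 : ∀ β : Fin B, Ps (β.1 + 1) = Ps β.1 + a β := fun β => by
    simp only [Ps]; rw [sum_range_succ, ha']
  have Qm : ∀ b c, b ≤ c → Qs b ≤ Qs c := fun b c h =>
    sum_le_sum_of_subset (range_subset_range.2 h)
  have Pm : ∀ b c, b ≤ c → Ps b ≤ Ps c := fun b c h =>
    sum_le_sum_of_subset (range_subset_range.2 h)
  have QP : ∀ b, Qs b + Ps b = b * R := fun b => by
    simp only [Qs, Ps]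
    rw [← sum_add_distrib, sum_congr rfl fun c _ => Nat.sub_add_cancel (ha'R c)]
    simp
  let pos : Fin B × ZMod R → ℕ := fun x =>
    if x.2.val < a x.1 then Qs B + 2 * R + Ps x.1.1 + x.2.val else Qs x.1.1 + (x.2.val - a x.1)
  have posP : ∀ x : Fin B × ZMod R, x.2.val < a x.1 →
      pos x = Qs B + 2 * R + Ps x.1.1 + x.2.val := fun x h => by simp only [pos, h, if_true]
  have posQ : ∀ x : Fin B × ZMod R, ¬ x.2.val < a x.1 →
      pos x = Qs x.1.1 + (x.2.val - a x.1) := fun x h => by simp only [pos, h, if_false]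
  have vlt : ∀ x : Fin B × ZMod R, x.2.val < R := fun x => ZMod.val_lt _
  have QB : ∀ β : Fin B, Qs (β.1 + 1) ≤ Qs B := fun β => Qm _ _ β.2
  have pinj : ∀ x y, pos x = pos y → x = y := by
    intro x y h
    have fin : x.1 = y.1 → x.2.val = y.2.val → x = y := fun h1 h2 =>
      Prod.ext h1 (ZMod.val_injective R h2)
    have e1 := vlt x
    have e2 := vlt y
    have e3 := Qs1 x.1
    have e4 := Qs1 y.1
    have e5 := Ps1 x.1
    have e6 := Ps1 y.1
    have e7 := QB x.1
    have e8 := QB y.1
    by_cases h1 : x.2.val < a x.1 <;> by_cases h2 : y.2.val < a y.1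
    · rw [posP x h1, posP y h2] at h
      rcases lt_trichotomy x.1.1 y.1.1 with c | c | c
      · have := Pm (_ + 1) _ c; omega
      · exact fin (Fin.ext c) (by rw [c] at h; omega)
      · have := Pm (_ + 1) _ c; omega
    · rw [posP x h1, posQ y h2] at h; omega
    · rw [posQ x h1, posP y h2] at h; omega
    · rw [posQ x h1, posQ y h2] at h
      rcases lt_trichotomy x.1.1 y.1.1 with c | c | c
      · have := Qm (_ + 1) _ c; omega
      · have c' : x.1 = y.1 := Fin.ext c
        exact fin c' (by rw [c'] at h h1; omega)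
      · have := Qm (_ + 1) _ c; omega
  let D : Fin B → Fin B × ZMod R → Fin B × ZMod R → Prop := fun β x y =>
    pos x < (β.1 + 1) * R ∧ pos x + R + Qs B < pos y + Qs (β.1 + 1) ∧
      pos y + Qs β.1 ≤ pos x + R + Qs B ∧ x.1 ≠ β ∧ y.1 ≠ β
  have Phigh : ∀ x : Fin B × ZMod R, x.2.val < a x.1 → (x.1.1 + 1) * R ≤ pos x := by
    intro x h
    have e1 := QP x.1.1
    have e2 := Qm _ _ x.1.2.le
    rw [posP x h, add_mul]; omega
  have L5 : ∀ β x y, D β x y → y.2.val < a y.1 → (y.1.1 + 1) * R ≤ pos x := by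
    rintro β x y ⟨h1, h2, h3, -⟩ h
    rw [posP y h] at h3
    rw [add_mul] at h1 ⊢
    have e1 := QP β.1
    have e2 := QP y.1.1
    rcases le_total β.1 y.1.1 with c | c
    · have := Pm _ _ c; omega
    · have := Qm _ _ c; omega
  have Dlt : ∀ β x y, D β x y → pos x + R < pos y := by
    rintro β x y ⟨h1, h2, h3, -⟩
    have := QB β; omega
  refine ⟨⟨D, fun β x => pos x < (β.1 + 1) * R, ?_, ?_, ?_, ?_, ?_, ?_, ?_, ?_⟩⟩
  · intro β x y h
    refine ⟨fun e => ?_, h.2.2.2.1, h.2.2.2.2, h.1⟩
    have e0 := Dlt β x y h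
    have e1 := vlt x
    have e2 := vlt y
    have e3 := Qs1 y.1
    have e4 := QB y.1
    by_cases h1 : x.2.val < a x.1 <;> by_cases h2 : y.2.val < a y.1
    · rw [posP x h1, posP y h2, e] at e0; omega
    · rw [posP x h1, posQ y h2, e] at e0; omega
    · have e5 := L5 β x y h h2
      have e6 := QP (y.1.1 + 1)
      rw [posQ x h1, e] at e5
      rw [e] at h1
      omega
    · rw [posQ x h1, posQ y h2, e] at e0; omega
  · intro β x
    refine cnt_le_of_inj_nat (fun y => pos x + R + Qs B - pos y - Qs β.1) _ ?_ ?_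
    · rintro y ⟨h1, h2, h3, -⟩
      have := Qs1 β; omega
    · rintro y z ⟨h1, h2, h3, -⟩ ⟨h4, h5, h6, -⟩ h
      exact pinj _ _ (by omega)
  · intro β y
    refine cnt_le_of_inj_nat (fun x => pos x + R + Qs B - pos y - Qs β.1) _ ?_ ?_
    · rintro x ⟨h1, h2, h3, -⟩
      have := Qs1 β; omega
    · rintro x z ⟨h1, h2, h3, -⟩ ⟨h4, h5, h6, -⟩ h
      exact pinj _ _ (by omega)
  · intro β
    let Good : ℕ → Prop := fun t => ∃ x, x.1 ≠ β ∧ pos x = t
    have hG : ∀ t, t < Qs B + 2 * R + Ps β.1 → ¬ (Qs B ≤ t ∧ t < Qs B + 2 * R) →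
        ¬ (Qs β.1 ≤ t ∧ t < Qs β.1 + R) → Good t := by
      intro t h1 h2 h3
      by_cases c : t < Qs B
      · obtain ⟨γ, g1, g2, g3⟩ := exists_interval _ B t c
        change Qs γ ≤ t at g2
        change t < Qs γ + (R - a' γ) at g3
        have g4 : a' γ = a ⟨γ, g1⟩ := ha' ⟨γ, g1⟩
        have g5 : ((t - Qs γ + a' γ : ℕ) : ZMod R).val = t - Qs γ + a' γ :=
          ZMod.val_cast_of_lt (by omega)
        refine ⟨(⟨γ, g1⟩, ((t - Qs γ + a' γ : ℕ) : ZMod R)), fun e => h3 ?_, ?_⟩
        · have : γ = β.1 := congrArg Fin.val e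
          rw [← this]; omega
        · rw [posQ _ (by simp only [g5]; omega)]
          simp only [g5]; omega
      · obtain ⟨γ, g1, g2, g3⟩ := exists_interval a' β.1 (t - (Qs B + 2 * R))
          (by change _ < Ps β.1; omega)
        change Ps γ ≤ _ at g2
        change _ < Ps γ + a' γ at g3
        have g0 : γ < B := g1.trans β.2
        have g4 : a' γ = a ⟨γ, g0⟩ := ha' ⟨γ, g0⟩
        have g6 := ha'R γ
        have g5 : ((t - (Qs B + 2 * R) - Ps γ : ℕ) : ZMod R).val = t - (Qs B + 2 * R) - Ps γ :=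
          ZMod.val_cast_of_lt (by omega)
        refine ⟨(⟨γ, g0⟩, ((t - (Qs B + 2 * R) - Ps γ : ℕ) : ZMod R)), fun e => ?_, ?_⟩
        · have : γ = β.1 := congrArg Fin.val e
          omega
        · rw [posP _ (by simp only [g5]; omega)]
          simp only [g5]; omega
    have e1 := QP β.1
    have e2 := Qs1 β
    have e3 := QB β
    let M := (β.1 + 1) * R
    have hM : M = β.1 * R + R := by simp only [M]; ring
    have row : ∀ δ < R - a β, (β.1 - 5) * R ≤
        ((range M).filter fun t => Good t ∧ Good (t + (R + Qs B - Qs β.1 - δ))).card := by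
      intro δ hδ
      set s := R + Qs B - Qs β.1 - δ with hs
      have c1 := card_interval_le M (Qs B) (2 * R)
      have c2 := card_interval_le M (Qs β.1) R
      have c3 := card_interval_le M (Qs B - s) (2 * R)
      have c4 := card_interval_le M (Qs β.1 - s) R
      have c5 : range M ⊆ ((range M).filter fun t => Good t ∧ Good (t + s)) ∪
          (((range M).filter fun x => Qs B ≤ x ∧ x < Qs B + 2 * R) ∪
          (((range M).filter fun x => Qs β.1 ≤ x ∧ x < Qs β.1 + R) ∪
          (((range M).filter fun x => Qs B - s ≤ x ∧ x < Qs B - s + 2 * R) ∪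
          ((range M).filter fun x => Qs β.1 - s ≤ x ∧ x < Qs β.1 - s + R)))) := by
        intro t ht
        simp only [mem_union, mem_filter, ht, true_and]
        have ht' := mem_range.1 ht
        by_contra hc
        simp only [not_or] at hc
        obtain ⟨k1, k2, k3, k4, k5⟩ := hc
        exact k1 ⟨hG t (by omega) k2 k3, hG (t + s) (by omega) (by omega) (by omega)⟩
      have c6 := card_le_card c5
      rw [card_range] at c6
      have c7 := c6.trans ((card_union_le _ _).trans (add_le_add_right ((card_union_le _ _).trans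
        (add_le_add_right ((card_union_le _ _).trans (add_le_add_right (card_union_le _ _) _)) _))
        _))
      have c8 : (β.1 - 5) * R ≤ β.1 * R + R - 6 * R := by
        rw [Nat.sub_mul]; omega
      omega
    calc (β.1 - 5) * R * (R - a β) = ∑ δ ∈ range (R - a β), (β.1 - 5) * R := by
          simp [mul_comm]
      _ ≤ ∑ δ ∈ range (R - a β),
          ((range M).filter fun t => Good t ∧ Good (t + (R + Qs B - Qs β.1 - δ))).card :=
          sum_le_sum fun δ hδ => row δ (mem_range.1 hδ)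
      _ = ((range (R - a β)).sigma fun δ =>
          (range M).filter fun t => Good t ∧ Good (t + (R + Qs B - Qs β.1 - δ))).card :=
          (card_sigma _ _).symm
      _ ≤ _ := by
          unfold cnt
          refine card_le_card_of_surjOn
            (fun q => (⟨pos q.1 + R + Qs B - pos q.2 - Qs β.1, pos q.1⟩ : Σ _ : ℕ, ℕ)) ?_
          rintro ⟨δ, t⟩ h
          simp only [coe_sigma, Set.mem_sigma_iff, coe_range, Set.mem_Iio, coe_filter, mem_range,
            Set.mem_ofPred_eq] at h
          obtain ⟨h1, h2, ⟨x, h3, h4⟩, ⟨y, h5, h6⟩⟩ := h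
          refine ⟨(x, y), ?_, ?_⟩
          · simp only [coe_filter, mem_univ, true_and, Set.mem_ofPred_eq]
            exact ⟨h4 ▸ h2, by omega, by omega, h3, h5⟩
          · simp only [h4, h6]
            congr 1
            omega
  · rintro β β' x y h (h' | h')
    · obtain ⟨h1, h2, h3, -⟩ := h
      obtain ⟨h4, h5, h6, -⟩ := h'
      rcases lt_trichotomy β.1 β'.1 with c | c | c
      · have := Qm (_ + 1) _ c; omega
      · exact Fin.ext c
      · have := Qm (_ + 1) _ c; omega
    · have e1 := Dlt _ _ _ h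
      have e2 := Dlt _ _ _ h'
      omega
  · intro β x y h h'
    have e1 := Dlt _ _ _ h
    have e2 := Dlt _ _ _ h'
    omega
  · intro x y h1 h2 h3 h4
    have e1 := Phigh x h1
    have e2 := Phigh y h3
    omega
  · intro β x y h
    refine ⟨fun h' => ?_, fun h' => ?_⟩
    · have e1 := Phigh x h'.1
      have e2 := Dlt _ _ _ h
      have e3 := h'.2
      omega
    · have e1 := L5 _ _ _ h h'.1
      have e3 := h'.2
      omega

end

end Pool.Agent.Lib.MP_de1a09_co
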