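import Pool.Agent.Lib.MP_de1a09_co.Dec

/-! All decomposed trees as one forest. -/

set_option autoImplicit false
set_option linter.unusedVariables false
set_option linter.unusedSectionVars false

open Finset

namespace Pool.Agent.Lib.MP_de1a09_co

noncomputable section
open Classical

/-- a decomposed forest -/
structure Forest (K k r d0 σ : ℕ) (ι X : Type) [Fintype X] : Type where
  tr : X → ι
  p : X → X
  Rt : X → Prop
  d : X → ℕ
  A : X → Prop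
  Big : X → Prop
  tp : X → X
  ad : X → Fin k
  ty : X → Fin k → Role
  tr_p : ∀ x, tr (p x) = tr x
  tr_tp : ∀ x, tr (tp x) = tr x
  p_rt : ∀ x, Rt x → p x = x
  d_p : ∀ x, ¬ Rt x → d (p x) + 1 = d x
  A_rt : ∀ x, Rt x → A x
  Big_A : ∀ v, Big v → A v
  cntA : ∀ i, cnt (fun x => A x ∧ tr x = i) ≤ 3 * σ
  cntBig : ∀ i, cnt (fun x => Big x ∧ tr x = i) ≤ r
  small_ch : ∀ v, ¬ Big v → cnt (fun u => ¬ Rt u ∧ p u = v) ≤ d0
  small_big : ∀ u u', ¬ Rt u → ¬ Rt u' → p u = p u' → ¬ Big (p u) → Big u → Big u' → u = u'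
  tp_nA : ∀ v, ¬ A v → ¬ A (tp v)
  tp_p : ∀ v, ¬ A v → A (p (tp v))
  tp_self : ∀ v, A (p v) → tp v = v
  tp_par : ∀ v, ¬ A (p v) → tp (p v) = tp v
  tp_d : ∀ v, d (tp v) ≤ d v
  ad0 : ∀ v, (ad v).1 = 0 ↔ A (p v)
  ad_par : ∀ v, ¬ A (p v) → ¬ A v → ad (p v) = hp K (ad v)
  ad_inj : ∀ u v, ¬ A u → ¬ A v → tp u = tp v → ad u = ad v → u = v
  ty_tp : ∀ u v, tp u = tp v → ty u = ty v
  valid : ∀ v, Valid K (ty v)
  role_ne : ∀ v, ¬ A v → ty v (ad v) ≠ rN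
  role_ex : ∀ v a, ty v a ≠ rN → ∃ u, ¬ A u ∧ tp u = tp v ∧ ad u = a
  role_top : ∀ v, ¬ A v → A (p v) → ty v (ad v) = rT ∨ (ty v (ad v) = rB ∧ Big (p v)) ∨
    (ty v (ad v) = rS ∧ ¬ Big (p v))
  role_bot : ∀ b, A b → ¬ A (p b) → isZ (ty (p b) (ad (p b))) ∧
    ty (tp (p b)) (ad (tp (p b))) = rT
  bot_uniq : ∀ b b', A b → A b' → ¬ A (p b) → ¬ A (p b') → tp (p b) = tp (p b') → b = b'
  zt_ch : ∀ x, cnt (fun u => ¬ A u ∧ p u = x ∧ ty u (ad u) = rT) ≤ K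
  cntZ : ∀ i, cnt (fun v => (¬ A v ∧ Zinc K (ty v) (ad v)) ∧ tr v = i) ≤ 14 * σ

lemma cnt_sigma_fib {ι : Type} [Fintype ι] {V : ι → Type} [∀ i, Fintype (V i)]
    (q : (Σ i, V i) → Prop) (i : ι) (h : ∀ x, q x → x.1 = i) :
    cnt q = cnt (fun v => q ⟨i, v⟩) := by
  rw [cnt_sigma, sum_eq_single i]
  · intro j _ hj
    exact cnt_false fun v hv => hj (h _ hv)
  · simp

theorem exists_forest {ι : Type} [Fintype ι] {V : ι → Type} [∀ i, Fintype (V i)]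
    (G : ∀ i, SimpleGraph (V i)) (hG : ∀ i, (G i).IsTree) (n J h r d0 σ : ℕ)
    (hn : ∀ i, Fintype.card (V i) ≤ n)
    (hJ : 0 < J) (hh : 0 < h) (hd0 : 2 ^ J ≤ d0) (hr : 2 * (1 + n / d0) ≤ r)
    (hσ : 2 ^ J + 2 * n / J + 2 ^ J * (n / h) ≤ σ) :
    ∃ F : Forest (2 ^ J) ((2 ^ J + 1) ^ h) r d0 σ ι (Σ i, V i), F.tr = Sigma.fst ∧
      ∀ i u v, (G i).Adj u v → (¬ F.Rt ⟨i, u⟩ ∧ F.p ⟨i, u⟩ = ⟨i, v⟩) ∨
        (¬ F.Rt ⟨i, v⟩ ∧ F.p ⟨i, v⟩ = ⟨i, u⟩) := by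
  choose T hT using fun i => exists_RT (G i) (hG i)
  choose D hD using fun i => exists_Dec (T i) n J h r d0 σ (hn i) hJ hh hd0 hr hσ
  have inj : ∀ {i} {u v : V i}, (⟨i, u⟩ : Σ i, V i) = ⟨i, v⟩ ↔ u = v := fun {i u v} =>
    sigma_mk_injective.eq_iff
  refine ⟨⟨Sigma.fst, fun x => ⟨x.1, (D x.1).p x.2⟩, fun x => x.2 = (D x.1).rt,
    fun x => (D x.1).d x.2, fun x => (D x.1).A x.2, fun x => (D x.1).Big x.2,
    fun x => ⟨x.1, (D x.1).tp x.2⟩, fun x => (D x.1).ad x.2, fun x => (D x.1).ty x.2,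
    fun _ => rfl, fun _ => rfl, ?_, fun x => (D x.1).d_p x.2, ?_, fun x => (D x.1).Big_A x.2,
    ?_, ?_, ?_, ?_, fun x => (D x.1).tp_nA x.2, fun x => (D x.1).tp_p x.2, ?_, ?_,
    fun x => (D x.1).tp_d x.2, fun x => (D x.1).ad0 x.2, fun x => (D x.1).ad_par x.2, ?_, ?_,
    fun x => (D x.1).valid x.2, fun x => (D x.1).role_ne x.2, ?_, fun x => (D x.1).role_top x.2,
    fun x => (D x.1).role_bot x.2, ?_, ?_, ?_⟩, rfl, ?_⟩
  · rintro ⟨i, v⟩ h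
    obtain rfl : (D i).rt = v := h.symm
    exact inj.2 (D i).p_rt
  · rintro ⟨i, v⟩ h
    obtain rfl : (D i).rt = v := h.symm
    exact (D i).A_rt
  · intro i
    rw [cnt_sigma_fib _ i fun x hx => hx.2]
    exact (cnt_mono fun v hv => hv.1).trans (D i).cntA
  · intro i
    rw [cnt_sigma_fib _ i fun x hx => hx.2]
    exact (cnt_mono fun v hv => hv.1).trans (D i).cntBig
  · rintro ⟨i, v⟩ hv
    rw [cnt_sigma_fib _ i fun x hx => congrArg Sigma.fst hx.2]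
    exact (cnt_mono fun u hu => ⟨hu.1, inj.1 hu.2⟩).trans ((D i).small_ch v hv)
  · rintro ⟨i, u⟩ ⟨j, v⟩ h1 h2 h3 h4 h5 h6
    obtain rfl : i = j := congrArg Sigma.fst h3
    exact inj.2 ((D i).small_big u v h1 h2 (inj.1 h3) h4 h5 h6)
  · rintro ⟨i, v⟩ h
    exact inj.2 ((D i).tp_self v h)
  · rintro ⟨i, v⟩ h
    exact inj.2 ((D i).tp_par v h)
  · rintro ⟨i, u⟩ ⟨j, v⟩ h1 h2 h3 h4
    obtain rfl : i = j := congrArg Sigma.fst h3
    exact inj.2 ((D i).ad_inj u v h1 h2 (inj.1 h3) h4)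
  · rintro ⟨i, u⟩ ⟨j, v⟩ h3
    obtain rfl : i = j := congrArg Sigma.fst h3
    exact (D i).ty_tp u v (inj.1 h3)
  · rintro ⟨i, v⟩ a h
    obtain ⟨u, h1, h2, h3⟩ := (D i).role_ex v a h
    exact ⟨⟨i, u⟩, h1, inj.2 h2, h3⟩
  · rintro ⟨i, u⟩ ⟨j, v⟩ h1 h2 h3 h4 h5
    obtain rfl : i = j := congrArg Sigma.fst h5
    exact inj.2 ((D i).bot_uniq u v h1 h2 h3 h4 (inj.1 h5))
  · rintro ⟨i, v⟩
    rw [cnt_sigma_fib _ i fun x hx => congrArg Sigma.fst hx.2.1]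
    exact (cnt_mono fun u hu => ⟨hu.1, inj.1 hu.2.1, hu.2.2⟩).trans ((D i).zt_ch v)
  · intro i
    rw [cnt_sigma_fib _ i fun x hx => hx.2]
    exact (cnt_mono fun v hv => hv.1).trans (D i).cntZ
  · intro i u v huv
    have := hT i u v huv
    rw [← hD i] at this
    exact this.imp (fun h => ⟨h.1, inj.2 h.2⟩) fun h => ⟨h.1, inj.2 h.2⟩

namespace Forest
variable {K k r d0 σ : ℕ} {ι X : Type} [Fintype X] (F : Forest K k r d0 σ ι X)

/-- role of a vertex -/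
def role (v : X) : Role := F.ty v (F.ad v)

/-- cross edges, named by the child -/
def Cross (e : X) : Prop := (¬ F.A e ∧ F.A (F.p e)) ∨ (F.A e ∧ ¬ F.A (F.p e))

/-- hub end of a cross edge -/
def aend (e : X) : X := if F.A e then e else F.p e

/-- other end of a cross edge -/
def oend (e : X) : X := if F.A e then F.p e else e

/-- edges between hubs -/
def AA (e : X) : Prop := ¬ F.Rt e ∧ F.A e ∧ F.A (F.p e)

lemma nrt {v : X} (h : ¬ F.A v) : ¬ F.Rt v := fun h' => h (F.A_rt v h')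

lemma nrt' {v : X} (h : ¬ F.A (F.p v)) : ¬ F.Rt v := fun h' =>
  h (by rw [F.p_rt v h']; exact F.A_rt v h')

lemma tp_tp {v : X} (h : ¬ F.A v) : F.tp (F.tp v) = F.tp v := F.tp_self _ (F.tp_p v h)

lemma aend_A {e : X} (h : F.Cross e) : F.A (F.aend e) := by
  unfold aend; rcases h with h | h <;> simp [h.1, h.2]

lemma oend_nA {e : X} (h : F.Cross e) : ¬ F.A (F.oend e) := by
  unfold oend; rcases h with h | h <;> simp [h.1, h.2]

lemma tr_aend (e : X) : F.tr (F.aend e) = F.tr e := by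
  unfold aend; split_ifs <;> simp [F.tr_p]

lemma tr_oend (e : X) : F.tr (F.oend e) = F.tr e := by
  unfold oend; split_ifs <;> simp [F.tr_p]

end Forest

end

end Pool.Agent.Lib.MP_de1a09_co
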