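import Pool.Agent.Lib.MP_de1a09_co.Use
import Pool.Agent.Lib.MP_de1a09_co.Assemble

/-! The packing, given batches and numerical conditions. -/

set_option autoImplicit false
set_option linter.unusedVariables false
set_option linter.unusedSectionVars false

open Finset

namespace Pool.Agent.Lib.MP_de1a09_co

noncomputable section
open Classical

abbrev Cls (B k Sm r Qn : ℕ) : Type :=
  Fin B × ((Fin k → Role) → Fin (Sm + 1)) × (Fin r → Option (Slot k Sm) → Fin Qn)

lemma cnt_le_sum {X : Type} [Fintype X] {p : X → Prop} (g : X → X) (Q : X → Prop)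
    {inst : DecidablePred Q} (w : X → ℕ) (h1 : ∀ e, p e → Q (g e))
    (h2 : ∀ x, Q x → cnt (fun e => p e ∧ g e = x) ≤ w x) :
    cnt p ≤ ∑ x, if Q x then w x else 0 := by
  rw [cnt_fib p g]
  refine sum_le_sum fun x _ => ?_
  split_ifs with h
  · exact h2 x h
  · exact (cnt_false fun e (he : p e ∧ g e = x) => h (he.2 ▸ h1 e he.1)).le

lemma sum_le_cnt {X : Type} [Fintype X] {p : X → Prop} (g : X → X) (Q : X → Prop)
    {inst : DecidablePred Q} (w : X → ℕ)
    (h2 : ∀ x, Q x → w x ≤ cnt (fun e => p e ∧ g e = x)) :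
    (∑ x, if Q x then w x else 0) ≤ cnt p := by
  rw [cnt_fib p g]
  refine sum_le_sum fun x _ => ?_
  split_ifs with h
  · exact h2 x h
  · exact Nat.zero_le _

lemma ite_inst {α : Type} (p : Prop) (i1 i2 : Decidable p) (a b : α) :
    @ite α p i1 a b = @ite α p i2 a b := by congr

variable {K k r d0 σ : ℕ} {ι X : Type} [Fintype X] [Fintype ι]

theorem global {B R b N : ℕ} [NeZero R] [NeZero b] [NeZero N] (a ab : Fin B → ℕ)
    (hab : ∀ β, 0 < ab β ∧ ab β < a β ∧ a β < R) (F : Forest K k r d0 σ ι X) (bt : ι → Fin B)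
    (h5 : ∀ i, 5 < (bt i).1) (n N' Sm Qn q ζ M1 cA nb m0 E : ℕ) (η w0 : ℝ)
    (hn : ∀ i, cnt (fun x => F.tr x = i) ≤ n) (hN' : 0 < N') (hSm : n / N' < Sm) (hr : 0 < r)
    (hq : 0 < q) (hQn : (N' + 6 * σ) / q < Qn)
    (hE : 2 * (Fintype.card (Fin k → Role) * k * Fintype.card (Par B R)) ≤ E)
    (hB : ∀ i, (cnt (fun v => (¬ F.A v ∧ F.role v = rB) ∧ F.tr v = i) +
      (Fintype.card (Fin k → Role) * k + E) * N') * R ≤
      ((bt i).1 - 5) * ab (bt i) * (Fintype.card (Lab B R) * b) * N')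
    (hS : ∀ i, (cnt (fun v => (¬ F.A v ∧ F.role v = rS) ∧ F.tr v = i) +
      (Fintype.card (Fin k → Role) * k + E) * N') * R ≤
      ((bt i).1 - 5) * (a (bt i) - ab (bt i)) * (Fintype.card (Lab B R) * b) * N')
    (hO : ∀ i, (cnt (fun v => (¬ F.A v ∧ isOE (F.role v)) ∧ F.tr v = i) +
      (Fintype.card (Fin k → Role) * k + E) * N') * R ≤
      ((bt i).1 - 5) * (R - a (bt i)) * (Fintype.card (Lab B R) * b) * N')
    (hζ : 14 * σ + Fintype.card (Fin k → Role) * k * N' ≤ ζ * N') (hζb : ζ ≤ b)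
    (hζB : B * ζ ≤ Fintype.card (Lab B R) * b / R ^ 2)
    (hnb : ∀ β, cnt (fun i => bt i = β) ≤ nb)
    (hm0 : nb + Fintype.card (Cls B k Sm r Qn) * (2 * 3 ^ r * Fintype.card (Gam B R b)) ≤
      Fintype.card (Lab B R) * m0) (hm1 : m0 + 3 ^ r ≤ b * N)
    (hm2 : (m0 : ℝ) ≤ (1 - 4 * η) * (b * N))
    (hη0 : 0 < η) (hη : η ≤ 1 / 8) (hw00 : 0 ≤ w0) (hw0η : w0 ≤ η)
    (hw : 3 * w0 * (Fintype.card (Cl B R) * (Fintype.card (Blk B R b) + 1)) ≤ η ^ 3)
    (hM0 : 0 < M1) (hM1 : M1 ≤ N) (hd1 : (d0 + 1 : ℝ) ≤ w0 * M1) (hd2 : M1 ≤ cA)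
    (hcA : 6 * σ + r * q ≤ cA) (hNq : N' + r * q ≤ N) (hcA2 : (3 * σ + 4 * cA : ℝ) ≤ η * (b * N))
    (hz : ζ * R ^ 2 * (2 * N') ≤ Fintype.card (Lab B R) * b * M1)
    (hNM : N' + 2 * (M1 + r * (K + 1)) < N) :
    ∃ f : X → Blk B R b × ZMod N, (∀ u v, F.tr u = F.tr v → f u = f v → u = v) ∧
      ∀ e e', ¬ F.Rt e → ¬ F.Rt e' → s(f e, f (F.p e)) = s(f e', f (F.p e')) →
        F.tr e = F.tr e' := by
  obtain ⟨Δ⟩ := exists_design B R a fun β => (hab β).2.2
  obtain ⟨sl, cs, sl1, sl2, sl3, sl4, sl5⟩ := exists_slots F n N' Sm hN' hSm hn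
  haveI : Nonempty (Fin r) := ⟨⟨0, hr⟩⟩
  obtain ⟨ℓ, hℓ⟩ := exists_fib_inj (J := Fin r) F.Big F.tr
    (fun s _ => by rw [Fintype.card_fin]; exact F.cntBig _)
  set ω := Fintype.card (Lab B R) with hω
  set T := Fintype.card (Fin k → Role) with hT
  have ω0 : 0 < ω := Fintype.card_pos
  have b0 : 0 < b := Nat.pos_of_ne_zero (NeZero.ne b)
  have R0 : 0 < R := Nat.pos_of_ne_zero (NeZero.ne R)
  let Top : X → Prop := fun v => ¬ F.A v ∧ F.A (F.p v)
  let Wt : Option (Slot k Sm) → X → ℕ := fun o x =>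
    o.elim (F.degA x) fun s => cnt fun v => Top v ∧ F.p v = x ∧ sl v = s
  have tot1 : ∀ i, (∑ x, if F.Big x ∧ F.tr x = i then Wt none x else 0) ≤ 6 * σ := by
    intro i
    have e1 := F.sum_degA fun j => j = i
    have e2 : cnt (fun j => j = i) ≤ 1 := cnt_le_one fun u v hu hv => hu.trans hv.symm
    refine le_trans (sum_le_sum fun x _ => ?_) (e1.trans (by nlinarith))
    by_cases g1 : F.Big x <;> by_cases g2 : F.tr x = i <;> simp [g1, g2, Wt]
  have tot2 : ∀ i s, (∑ x, if F.Big x ∧ F.tr x = i then Wt (some s) x else 0) ≤ N' := fun i s =>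
    (sum_le_cnt F.p _ _ fun x hx => cnt_mono fun v hv =>
      ⟨⟨hv.1, by rw [← F.tr_p, hv.2.1, hx.2], hv.2.2⟩, hv.2.1⟩).trans (sl4 i s)
  have wlt : ∀ i l o, F.ws ℓ (Wt o) i l / q < Qn := by
    intro i l o
    refine lt_of_le_of_lt (Nat.div_le_div_right ((single_le_sum (f := F.ws ℓ (Wt o) i)
      (fun _ _ => Nat.zero_le _) (mem_univ l)).trans ?_)) hQn
    rw [F.sum_ws]
    rcases o with _ | s
    · have := tot1 i; omega
    · have := tot2 i s; omega
  let cls : ι → Cls B k Sm r Qn := fun i => (bt i, cs i, fun l o => ⟨_, wlt i l o⟩)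
  have hT : ∀ C : Cls B k Sm r Qn, (∃ i, cls i = C) →
      Nonempty (Tpl Δ b K k Sm ζ (ab C.1) C.1 fun τ => (C.2.1 τ).1) := by
    rintro _ ⟨i, rfl⟩
    have aux : ∀ {x y z : ℕ}, x * N' ≤ y + T * k * N' → (y + (T * k + E) * N') * R ≤ z * N' →
        (x + E) * R ≤ z := by
      intro x y z h1 h2
      have := Nat.mul_le_mul_right R h1
      exact Nat.le_of_mul_le_mul_right (by nlinarith) hN'
    refine exists_tpl Δ b K k Sm ζ _ _ _ (hab _).1 (hab _).2.1 (hab _).2.2 (h5 i) E hE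
      (aux (sl5 i (fun τ j => τ j = rB) fun τ j h => by rw [h]; decide) (hB i))
      (aux (sl5 i (fun τ j => τ j = rS) fun τ j h => by rw [h]; decide) (hS i))
      (aux (sl5 i (fun τ j => isOE (τ j)) fun τ j h => by
        rcases h with h | h <;> rw [h] <;> decide) (hO i)) ?_ hζb
    have := sl5 i (Zinc K) fun τ j h => by
      rcases h with (h | h) | h
      · rw [h]; decide
      · rw [h]; decide
      · exact h.2.1
    exact Nat.le_of_mul_le_mul_right (this.trans ((add_le_add_left (F.cntZ i) _).trans hζ)) hN'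
  let TT := fun C h => Classical.choice (hT C h)
  let blk0 : Cls B k Sm r Qn → Slot k Sm → Fin k → Blk B R b := fun C =>
    if h : ∃ i, cls i = C then (TT C h).blk else fun _ _ => (home C.1, 0)
  let Ti := fun i => TT (cls i) ⟨i, rfl⟩
  have hblk0 : ∀ i, blk0 (cls i) = (Ti i).blk := fun i => dif_pos ⟨i, rfl⟩
  let act0 : Cls B k Sm r Qn → Slot k Sm → Fin k → Prop := fun C s j =>
    Act K (fun τ => (C.2.1 τ).1) s ∧ s.1 j ≠ rN
  have G0 : 0 < 3 ^ r := by positivity
  haveI : Nonempty (Fin (b * N / 3 ^ r)) := ⟨⟨0, Nat.div_pos (by omega) G0⟩⟩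
  have cGr : Fintype.card (Fin r → ZMod 3) = 3 ^ r := by simp
  have smu : ∀ μ : Cls B k Sm r Qn → ℕ, (∀ C, μ C * Fintype.card (Gam B R b) ≤
      cnt (fun i => cls i = C) + 2 * Fintype.card (Fin r → ZMod 3) * Fintype.card (Gam B R b)) →
      ∀ β, (∑ C, if C.1 = β then μ C else 0) * Fintype.card (Gam B R b) ≤ ω * m0 :=
    fun μ h => sum_mu cls Prod.fst μ _ _ nb _ h hnb (by rw [cGr]; exact hm0)
  obtain ⟨γ, pos, hg, μ, μ1, μ2, μ3⟩ := exists_groups (Γ := Gam B R b) (Gr := Fin r → ZMod 3)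
    (Hg := Fin (b * N / 3 ^ r)) cls (fun C t => actC t (home C.1)) (fun μ h c => by
      refine (home_bound Prod.fst μ m0 (smu μ h) c).trans ?_
      rw [cGr, Fintype.card_fin]
      have e1 := Nat.div_add_mod (b * N) (3 ^ r)
      have e2 := Nat.mod_lt (b * N) G0
      rw [mul_comm] at e1
      omega)
  have hμ := smu μ μ2
  obtain ⟨em⟩ : Nonempty (Fin (b * N / 3 ^ r) × (Fin r → ZMod 3) ↪ ZMod b × ZMod N) :=
    Function.Embedding.nonempty_of_card_le (by
      simp only [Fintype.card_prod, cGr, Fintype.card_fin, ZMod.card]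
      exact Nat.div_mul_le_self _ _)
  let c : ι → Cl B R := fun i => actC (γ i) (home (bt i))
  let blk : ι → Slot k Sm → Fin k → Blk B R b := fun i s j => act (γ i) (blk0 (cls i) s j)
  let h0 : X → ZMod b × ZMod N := fun x => em (hg (F.tr x), pos (F.tr x) + Pi.single (ℓ x) 1)
  let bv : X → Blk B R b := fun v => blk (F.tr v) (sl v) (F.ad v)
  have cc : ∀ c', cnt (fun i => c i = c') ≤ m0 := by
    intro c'
    have := cnt_pair_le cls γ μ μ1 fun C t (_ : Unit) => actC t (home C.1) = c'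
    refine le_trans (cnt_surj Prod.fst fun i hi => ⟨(i, ()), hi, rfl⟩)
      (this.trans (le_trans (sum_le_sum fun C _ => Nat.mul_le_mul_left _ ?_)
        (home_bound Prod.fst μ m0 hμ c')))
    exact cnt_inj Prod.fst (fun q hq => hq) fun q q' _ _ h => Prod.ext h rfl
  have role : ∀ v, (sl v).1 (F.ad v) = F.role v := fun v => by rw [sl1]; rfl
  have hact : ∀ v, ¬ F.A v → act0 (cls (F.tr v)) (sl v) (F.ad v) := fun v hv =>
    ⟨sl3 v hv, by rw [role]; exact F.role_ne v hv⟩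
  have binj : ∀ i s j s' j', act0 (cls i) s j → act0 (cls i) s' j' → blk i s j = blk i s' j' →
      s = s' ∧ j = j' := by
    intro i s j s' j' h1 h2 h3
    have := act_inj _ h3
    rw [hblk0] at this
    exact (Ti i).inj s j s' j' h1.1 h1.2 h2.1 h2.2 this
  have bne : ∀ i s j, (home (bt i) : Cl B R).1 ≠ (blk0 (cls i) s j).1.1 := fun i s j => by
    rw [hblk0]; exact ((Ti i).ne s j).symm
  have bV : ∀ v, isV (bv v).1.1 ↔ ¬ isZ (F.role v) := fun v => by
    rw [← role, ← (Ti (F.tr v)).isV_iff, ← hblk0]; rfl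
  have gB : ∀ v, F.role v = rB → (gv (c (F.tr v)) (bv v).1).val < ab (bt (F.tr v)) := by
    intro v hv
    have := ((Ti (F.tr v)).hubB (sl v) (F.ad v) ((role v).trans hv)).2
    rwa [← hblk0, ← gv_act (γ (F.tr v)) (bne _ _ _)] at this
  have gS : ∀ v, F.role v = rS → ¬ (gv (c (F.tr v)) (bv v).1).val < ab (bt (F.tr v)) := by
    intro v hv
    have := ((Ti (F.tr v)).hubS (sl v) (F.ad v) ((role v).trans hv)).2
    rwa [← hblk0, ← gv_act (γ (F.tr v)) (bne _ _ _)] at this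
  have ae : ∀ v, ¬ F.A v → F.aend v = F.p v ∧ F.oend v = v := fun v hv => by
    simp [Forest.aend, Forest.oend, hv]
  have ae' : ∀ v, F.A v → F.aend v = v ∧ F.oend v = F.p v := fun v hv => by
    simp [Forest.aend, Forest.oend, hv]
  have crV : ∀ e, F.Cross e → isV (bv (F.oend e)).1.1 → Top e ∧
      ((F.role e = rB ∧ F.Big (F.p e)) ∨ (F.role e = rS ∧ ¬ F.Big (F.p e))) := by
    rintro e (g | g) hV
    · rw [(ae e g.1).2, bV] at hV
      exact ⟨g, (F.role_top e g.1 g.2).resolve_left fun h => hV (Or.inl h)⟩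
    · rw [(ae' e g.1).2, bV] at hV
      exact absurd (F.role_bot e g.1 g.2).1 hV
  have grp : ∀ u v, c (F.tr u) = c (F.tr v) → h0 u = h0 v → cls (F.tr u) = cls (F.tr v) ∧
      γ (F.tr u) = γ (F.tr v) ∧ (pos (F.tr u) = pos (F.tr v) → F.tr u = F.tr v) ∧
      pos (F.tr u) + Pi.single (ℓ u) 1 = pos (F.tr v) + Pi.single (ℓ v) 1 := by
    intro u v h1 h2
    have h3 := em.injective h2
    rw [Prod.mk.injEq] at h3
    obtain ⟨g1, g2, g3⟩ := μ3 _ _ h1 h3.1
    exact ⟨g1, g2, g3, h3.2⟩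
  have linj : ∀ c' y u v, (F.Big u ∧ c (F.tr u) = c' ∧ h0 u = y) →
      (F.Big v ∧ c (F.tr v) = c' ∧ h0 v = y) → ℓ u = ℓ v → u = v := by
    intro c' y u v hu hv h
    obtain ⟨g1, g2, g3, g4⟩ := grp u v (hu.2.1.trans hv.2.1.symm) (hu.2.2.trans hv.2.2.symm)
    rw [h] at g4
    exact hℓ u v hu.1 hv.1 (g3 (add_right_cancel g4)) h
  have comp : ∀ c' y o x0, (F.Big x0 ∧ c (F.tr x0) = c' ∧ h0 x0 = y) →
      (∑ x, if F.Big x ∧ c (F.tr x) = c' ∧ h0 x = y then Wt o x else 0) ≤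
        (∑ x, if F.Big x ∧ F.tr x = F.tr x0 then Wt o x else 0) + r * q := by
    intro c' y o x0 hx0
    refine le_trans (le_of_eq (sum_congr rfl fun _ _ => ite_inst _ _ _ _ _))
      (comp_bound F ℓ (Wt o) q hq (fun x => F.Big x ∧ c (F.tr x) = c' ∧ h0 x = y)
      (fun x hx => hx.1) (F.tr x0) (linj c' y) fun x hx => ?_)
    have g1 := (grp x x0 (hx.2.1.trans hx0.2.1.symm) (hx.2.2.trans hx0.2.2.symm)).1
    exact congrArg Fin.val (congrFun (congrFun (congrArg (fun C => C.2.2) g1) (ℓ x)) o)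
  have slotU : ∀ (P : X → Prop) (g : X → X) (U : Blk B R b) (i : ι),
      (∀ e, P e → ¬ F.A (g e) ∧ F.tr (g e) = i ∧ bv (g e) = U) →
      (∀ e e', P e → P e' → F.tp (g e) = F.tp (g e') → e = e') → cnt P ≤ N' := by
    intro P g U i h1 h2
    by_cases hex : ∃ e, P e
    swap
    · exact (cnt_false fun e he => hex ⟨e, he⟩).le.trans (Nat.zero_le _)
    obtain ⟨e0, he0⟩ := hex
    refine (cnt_inj (fun e => F.tp (g e)) (fun e he => ?_) h2).trans (sl4 i (sl (g e0)))
    obtain ⟨g1, g2, g3⟩ := h1 e he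
    obtain ⟨g4, g5, g6⟩ := h1 e0 he0
    refine ⟨⟨F.tp_nA _ g1, F.tp_p _ g1⟩, by rw [F.tr_tp, g2], (sl2 _ _ (F.tp_tp g1)).trans ?_⟩
    refine (binj i _ _ _ _ (g2 ▸ hact _ g1) (g5 ▸ hact _ g4) ?_).1
    have := g3.trans g6.symm
    simpa only [bv, g2, g5] using this
  have topU : ∀ i U, cnt (fun e => Top e ∧ F.tr e = i ∧ bv e = U) ≤ N' := fun i U =>
    slotU _ id U i (fun e he => ⟨he.1.1, he.2⟩) fun e e' he he' h => by
      rwa [id, id, F.tp_self e he.1.2, F.tp_self e' he'.1.2] at h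
  have botU : ∀ i U, cnt (fun e => (F.A e ∧ ¬ F.A (F.p e)) ∧ F.tr e = i ∧ bv (F.p e) = U) ≤ N' :=
    fun i U => slotU _ F.p U i (fun e he => ⟨he.1.2, (F.tr_p e).trans he.2.1, he.2.2⟩)
      fun e e' he he' h => F.bot_uniq e e' he.1.1 he'.1.1 he.1.2 he'.1.2 h
  let W : X → Blk B R b → ℕ := fun x U =>
    cnt fun e => F.Cross e ∧ F.aend e = x ∧ bv (F.oend e) = U
  let cp : Blk B R b → ℕ := fun U => if isV U.1.1 then N else M1
  have cp1 : ∀ U, M1 ≤ cp U := fun U => by simp only [cp]; split_ifs <;> omega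
  have cHs : (Fintype.card (ZMod b × ZMod N) : ℝ) = b * N := by simp
  obtain ⟨h, i1, i2, i3, i4⟩ := hosting F c h0 W cp cA η w0 hη0 hη hw00 hw0η hw
    (fun U => hM0.trans_le (cp1 U)) (by omega)
    (by
      intro x U h1 h2
      refine le_trans ?_ (hd1.trans (mul_le_mul_of_nonneg_left (by exact_mod_cast cp1 U) hw00))
      have e1 : W x U ≤ cnt (fun u => ¬ F.Rt u ∧ F.p u = x) + cnt (fun u => u = x) := by
        refine cnt_le_add fun e he => ?_
        rcases he.1 with g | g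
        · exact Or.inl ⟨F.nrt g.1, (ae e g.1).1.symm.trans he.2.1⟩
        · exact Or.inr ((ae' e g.1).1.symm.trans he.2.1)
      have e2 : cnt (fun e => e = x) ≤ 1 := cnt_le_one fun u v hu hv => hu.trans hv.symm
      have e3 := F.small_ch x h2
      exact_mod_cast (by omega : W x U ≤ d0 + 1))
    (hd1.trans (mul_le_mul_of_nonneg_left (by exact_mod_cast hd2) hw00))
    (by
      intro c' U
      rw [cHs]
      have e2 : cnt (fun e => F.Cross e ∧ c (F.tr e) = c' ∧ bv (F.oend e) = U) ≤ m0 * cp U := by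
        by_cases hV : isV U.1.1
        · simp only [cp, hV, if_true]
          refine (cnt_fib_le F.tr (fun i => c i = c') N' (fun e he => he.2.1) fun i _ =>
            (cnt_mono fun e he => ?_).trans (topU i U)).trans (Nat.mul_le_mul (cc c') (by omega))
          have g := (crV e he.1.1 (he.1.2.2 ▸ hV)).1
          exact ⟨g, he.2, (ae e g.1).2 ▸ he.1.2.2⟩
        · simp only [cp, hV, if_false]
          let P : Cls B k Sm r Qn → Slot k Sm × Fin k → Prop := fun C q =>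
            (∃ i, cls i = C) ∧ Act K (fun τ => (C.2.1 τ).1) q.1 ∧ Zinc K q.1.1 q.2
          have z1 := z_bound Prod.fst μ m0 ζ hμ P (fun C q => blk0 C q.1 q.2)
            (by rintro _ q ⟨⟨i, rfl⟩, -⟩; exact (bne i _ _).symm)
            (by
              intro C
              by_cases hC : ∃ i, cls i = C
              · obtain ⟨i, rfl⟩ := hC
                have := sl5 i (Zinc K) fun τ j h => by
                  rcases h with (h | h) | h
                  · rw [h]; decide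
                  · rw [h]; decide
                  · exact h.2.1
                exact (cnt_mono fun q hq => hq.2).trans (Nat.le_of_mul_le_mul_right
                  (this.trans ((add_le_add_left (F.cntZ i) _).trans hζ)) hN')
              · exact (cnt_false fun q hq => hC hq.1).le.trans (Nat.zero_le _)) c' U
          have z2 := cnt_pair_le cls γ μ μ1 fun C t q =>
            P C q ∧ actC t (home C.1) = c' ∧ act t (blk0 C q.1 q.2) = U
          have z3 := cnt_surj (p := fun q : ι × Slot k Sm × Fin k => P (cls q.1) q.2 ∧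
            c q.1 = c' ∧ blk q.1 q.2.1 q.2.2 = U) (q := fun i => ∃ q, P (cls i) q ∧ c i = c' ∧
              blk i q.1 q.2 = U) Prod.fst fun i ⟨q, hq⟩ => ⟨(i, q), hq, rfl⟩
          have z4 := cnt_fib_le (p := fun e => F.Cross e ∧ c (F.tr e) = c' ∧ bv (F.oend e) = U)
            F.tr (fun i => ∃ q, P (cls i) q ∧ c i = c' ∧ blk i q.1 q.2 = U) (N' + N')
            (fun e he => ⟨(sl (F.oend e), F.ad (F.oend e)), ⟨⟨_, rfl⟩,
              F.tr_oend e ▸ sl3 _ (F.oend_nA he.1), Or.inl (by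
                rw [role]; by_contra hc; exact hV (he.2.2 ▸ (bV _).2 hc))⟩, he.2.1,
              by rw [← he.2.2, ← F.tr_oend e]⟩)
            fun i _ => (cnt_le_add fun e he => by
              rcases he.1.1 with g | g
              · exact Or.inl ⟨g, he.2, (ae e g.1).2 ▸ he.1.2.2⟩
              · exact Or.inr ⟨g, he.2, (ae' e g.1).2 ▸ he.1.2.2⟩).trans
                (add_le_add (topU i U) (botU i U))
          have z5 := (Nat.mul_le_mul_right (ω * b) (z3.trans z2)).trans z1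
          refine z4.trans (Nat.le_of_mul_le_mul_right (c := ω * b) ?_ (by positivity))
          have z6 := Nat.mul_le_mul_right (2 * N') z5
          have z7 := Nat.mul_le_mul_right m0 hz
          nlinarith
      refine le_trans (Nat.cast_le.2 (le_trans (sum_le_cnt F.aend _ (fun x => W x U)
        fun x hx => cnt_mono fun e he =>
          ⟨⟨he.1, by rw [← F.tr_aend, he.2.1, hx.2], he.2.2⟩, he.2.1⟩) e2)) ?_
      rw [Nat.cast_mul]
      exact mul_le_mul_of_nonneg_right hm2 (Nat.cast_nonneg _))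
    (by
      intro c'
      rw [cHs]
      refine le_trans ?_ (mul_le_mul_of_nonneg_right hm2 (Nat.cast_nonneg _))
      exact_mod_cast Nat.mul_le_mul (cc c') (show 6 * σ ≤ cA by omega))
    (by
      intro u v h1 h2 h3 h4
      have g := (grp u v (by rw [h3]) h4).2.2.2
      rw [h3] at g
      refine hℓ u v h1 h2 h3 ?_
      by_contra hne
      have := congrFun (add_left_cancel g) (ℓ u)
      rw [Pi.single_eq_same, Pi.single_eq_of_ne hne] at this
      revert this; decide)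
    (by
      intro e e' g1 g2 g3 g4 g5 g6 g7 g8
      have n1 : ℓ e ≠ ℓ (F.p e) := fun h => by
        have e1 := hℓ e (F.p e) g3 g4 (F.tr_p e).symm h
        have e2 := F.d_p e g1.1
        rw [← e1] at e2; omega
      rcases Sym2.eq_iff.1 g8 with ⟨q1, q2⟩ | ⟨q1, q2⟩
      · obtain ⟨-, -, q3, q4⟩ := grp _ _ g7 q1
        obtain ⟨-, -, -, q5⟩ := grp _ _ (by rw [F.tr_p, F.tr_p, g7]) q2
        rw [F.tr_p, F.tr_p] at q5
        exact q3 (sidon n1 q4 q5)
      · obtain ⟨-, -, q3, q4⟩ := grp _ _ (by rw [F.tr_p, g7]) q1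
        obtain ⟨-, -, -, q5⟩ := grp _ _ (by rw [F.tr_p, g7]) q2
        rw [F.tr_p] at q3 q4 q5
        exact q3 (sidon n1 q4 q5))
    (by
      intro c' y
      by_cases hex : ∃ x0, F.Big x0 ∧ c (F.tr x0) = c' ∧ h0 x0 = y
      · obtain ⟨x0, hx0⟩ := hex
        refine le_trans (le_of_eq (sum_congr rfl fun _ _ => ite_inst _ _ _ _ _))
          ((comp c' y none x0 hx0).trans ((add_le_add_left (tot1 _) _).trans hcA))
      · exact (sum_eq_zero fun x _ => if_neg fun h => hex ⟨x, h⟩).le.trans (Nat.zero_le _))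
    (by rw [cHs]; exact hcA2)
  let hh : X → Blk B R b × ZMod N := fun x => ((c (F.tr x), (h x).1), (h x).2)
  have hh1 : ∀ {u v}, hh u = hh v → c (F.tr u) = c (F.tr v) ∧ h u = h v := by
    intro u v g
    simp only [hh, Prod.mk.injEq] at g
    exact ⟨g.1.1, Prod.ext g.1.2 g.2⟩
  have hh2 : ∀ {u x}, hh u = x → c (F.tr u) = x.1.1 ∧ h u = (x.1.2, x.2) := by
    rintro u _ rfl; exact ⟨rfl, rfl⟩
  have small : ∀ x U, cnt (fun e => (F.Cross e ∧ hh (F.aend e) = x ∧ bv (F.oend e) = U) ∧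
      ¬ F.Big (F.aend e)) ≤ cp U := fun x U =>
    (cnt_le_sum F.aend (fun y => (F.A y ∧ ¬ F.Big y) ∧ c (F.tr y) = x.1.1 ∧ h y = (x.1.2, x.2))
      (fun y => W y U) (fun e he => ⟨⟨F.aend_A he.1.1, he.2⟩, hh2 he.1.2.1⟩)
      fun y _ => cnt_mono fun e he => ⟨he.1.1.1, he.2, he.1.1.2.2⟩).trans (i4 _ _ U)
  have hh3 : ∀ {u x}, F.Big u → hh u = x → F.Big u ∧ c (F.tr u) = x.1.1 ∧ h0 u = (x.1.2, x.2) :=
    fun g1 g2 => ⟨g1, (hh2 g2).1, (i1 _ g1).symm.trans (hh2 g2).2⟩
  refine assemble F N N' (M1 + r * (K + 1)) Prod.fst (Hub Δ) 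
    (fun c y h1 h2 => Hub.ne Δ h1 (congrArg Prod.fst h2))
    (fun c y => Hub.anti Δ) c sl blk (fun i => act0 (cls i)) hh (fun U => ¬ isV U.1.1) bv
    (fun _ => rfl) sl2 (fun u v g => by rw [← sl1, ← sl1, g]) hact binj
    (fun i s j g => bne i s j (congrArg Prod.fst g).symm) sl4 ?_
    (fun v _ => by rw [bV, not_not]) ?_ ?_ (fun v _ => rfl)
    (fun u v g1 g2 g3 g4 => i2 u v g1 g2 g3 (hh1 g4).2) ?_ ?_ ?_ hNM
  · intro e he
    rw [← F.tr_oend]
    refine (Hub.act Δ _ (bne _ _ _)).2 ?_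
    rw [hblk0]
    by_cases hV : isV (bv (F.oend e)).1.1
    · obtain ⟨g1, g2⟩ := crV e he hV
      rw [(ae e g1.1).2]
      rcases g2 with g2 | g2
      exacts [((Ti _).hubB _ _ ((role e).trans g2.1)).1, ((Ti _).hubS _ _ ((role e).trans g2.1)).1]
    · rw [bV, not_not, ← role] at hV
      exact (Ti _).hubZ _ _ hV
  · intro i s j g1 g2
    have := (Ti i).low s j g1.1 g1.2 g2
    rw [← hblk0] at this
    exact ⟨fun g => this.1 (congrArg Prod.fst g :), fun g => this.2.1 ((Hub.act Δ _ this.1).1 g),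
      fun g => this.2.2 ((Hub.act Δ _ this.1.symm).1 g)⟩
  · intro U W'
    let P : Cls B k Sm r Qn → Slot k Sm × Fin k → Prop := fun C q =>
      (∃ i, cls i = C) ∧ act0 C q.1 q.2 ∧ q.2.1 ≠ 0
    refine le_trans (cnt_mono fun q hq => ⟨⟨⟨_, rfl⟩, hq.1⟩, hq.2⟩)
      ((cnt_pair_le cls γ μ μ1 fun C t q => P C q ∧
        s(act t (blk0 C q.1 (hp K q.2)), act t (blk0 C q.1 q.2)) = s(U, W')).trans
      (use_bound Prod.fst μ m0 N hμ (by omega) P (fun C q => blk0 C q.1 (hp K q.2))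
        (fun C q => blk0 C q.1 q.2) ?_ (cap Δ (ω * b / R ^ 2) ζ)
        (fun x y => (Nat.mul_le_mul_right _ (cap_sum Δ _ _ hζB x y)).trans
          (Nat.div_mul_le_self _ _)) ?_ U W'))
    · rintro _ q ⟨⟨i, rfl⟩, g1, g2⟩
      rw [hblk0]
      exact ((Ti i).low _ _ g1.1 g1.2 g2).1
    · intro C x y
      by_cases hC : ∃ i, cls i = C
      · obtain ⟨i, rfl⟩ := hC
        rw [hblk0]
        exact (cnt_mono fun q hq => ⟨⟨hq.1.2.1.1, hq.1.2.1.2, hq.1.2.2⟩, hq.2⟩).trans
          ((Ti i).use x y)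
      · exact (cnt_false fun q hq => hC hq.1.1).le.trans (Nat.zero_le _)
  · intro e e' g1 g2 g3
    rcases Sym2.eq_iff.1 g3 with ⟨q1, q2⟩ | ⟨q1, q2⟩
    · exact i3 e e' g1 g2 (hh1 q1).1 (by rw [(hh1 q1).2, (hh1 q2).2])
    · exact i3 e e' g1 g2 ((hh1 q1).1.trans (by rw [F.tr_p]))
        (by rw [(hh1 q1).2, (hh1 q2).2, Sym2.eq_swap])
  · intro x U hV
    rw [not_not] at hV
    by_cases hex : ∃ e, (F.Cross e ∧ hh (F.aend e) = x ∧ bv (F.oend e) = U) ∧ F.Big (F.aend e)
    · obtain ⟨e0, he0⟩ := hex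
      obtain ⟨t0, r0⟩ := crV e0 he0.1.1 (he0.1.2.2 ▸ hV)
      rw [(ae e0 t0.1).1, (ae e0 t0.1).2] at he0
      have x0 := hh3 he0.2 he0.1.2.1
      refine le_trans (cnt_le_sum F.p _ (Wt (some (sl e0))) (fun e he => ?_) fun y hy =>
        cnt_mono fun e he => ?_) ((comp _ _ (some (sl e0)) _ x0).trans
        ((add_le_add_left (tot2 _ _) _).trans hNq))
      · obtain ⟨t1, r1⟩ := crV e he.1 (he.2.2 ▸ hV)
        rw [(ae e t1.1).1, (ae e t1.1).2] at he
        refine hh3 ?_ he.2.1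
        by_contra hc
        have q1 := gB e0 (r0.resolve_right fun g => g.2 he0.2).1
        have q2 := gS e (r1.resolve_left fun g => hc g.2).1
        have q3 : c (F.tr e) = c (F.tr e0) := by
          have := (hh1 (he.2.1.trans he0.1.2.1.symm)).1
          rwa [F.tr_p, F.tr_p] at this
        have q4 : bt (F.tr e) = bt (F.tr e0) := by simpa [c, home] using congrArg Prod.fst q3
        rw [q3, q4, he.2.2] at q2
        rw [he0.1.2.2] at q1
        exact q2 q1
      · obtain ⟨t1, r1⟩ := crV e he.1.1 (he.1.2.2 ▸ hV)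
        refine ⟨t1, he.2, ?_⟩
        obtain ⟨q1, q2, -⟩ := grp y _ (hy.2.1.trans x0.2.1.symm) (hy.2.2.trans x0.2.2.symm)
        rw [← he.2, F.tr_p, F.tr_p] at q1 q2
        have q3 := he.1.2.2.trans he0.1.2.2.symm
        rw [(ae e t1.1).2] at q3
        refine (binj (F.tr e0) _ _ _ _ (q1 ▸ hact e t1.1) (hact e0 t0.1) ?_).1
        simpa only [bv, blk, q1, q2] using q3
    · refine le_trans (cnt_mono fun e he => ⟨he, fun g => hex ⟨e, he, g⟩⟩) ((small x U).trans ?_)
      simp only [cp, hV, if_true, le_refl]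
  · intro x U hV
    rw [cnt_split _ fun e => F.Big (F.aend e), add_comm]
    refine add_le_add ((small x U).trans (by simp only [cp, hV, if_false, le_refl])) ?_
    refine (cnt_fib_le F.aend (fun y => F.Big y ∧ c (F.tr y) = x.1.1 ∧ h0 y = (x.1.2, x.2))
      (K + 1) (fun e he => hh3 he.2 he.1.2.1) fun y _ => ?_).trans (Nat.mul_le_mul_right _ ?_)
    · refine (cnt_le_add (r := fun e => e = y) fun e he => ?_).trans (add_le_add (F.zt_ch y)
        (cnt_le_one fun u v hu hv => hu.trans hv.symm))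
      rcases he.1.1.1 with g | g
      · refine Or.inl ⟨g.1, (ae e g.1).1.symm.trans he.2, ?_⟩
        have q1 := he.1.1.2.2
        rw [(ae e g.1).2] at q1
        rw [← q1, bV, not_not] at hV
        rcases F.role_top e g.1 g.2 with q | q | q
        · exact q
        · rw [show F.role e = rB from q.1] at hV; exact absurd hV (by unfold isZ; decide)
        · rw [show F.role e = rS from q.1] at hV; exact absurd hV (by unfold isZ; decide)
      · exact Or.inr ((ae' e g.1).1.symm.trans he.2)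
    · exact cnt_le_of_inj_nat (fun y => (ℓ y).1) r (fun y _ => (ℓ y).2) fun u v hu hv g =>
        linj _ _ u v hu hv (Fin.ext g)

end

end Pool.Agent.Lib.MP_de1a09_co
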