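import Pool.Agent.Lib.MP_de1a09_co.Hub
import Pool.Agent.Lib.MP_de1a09_co.Bal

/-! Templates: blocks for the slots of a class of trees. -/

set_option autoImplicit false
set_option linter.unusedVariables false
set_option linter.unusedSectionVars false

open Finset

namespace Pool.Agent.Lib.MP_de1a09_co

noncomputable section
open Classical

abbrev Slot (k Sm : ℕ) : Type := (Fin k → Role) × Fin Sm

def Act {k Sm : ℕ} (K : ℕ) (cs : (Fin k → Role) → ℕ) (s : Slot k Sm) : Prop :=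
  Valid K s.1 ∧ s.2.1 < cs s.1

variable {B R : ℕ} [NeZero R] {a : Fin B → ℕ}

/-- a template -/
structure Tpl (Δ : Design B R a) (b K k Sm ζ ab : ℕ) (β : Fin B) (cs : (Fin k → Role) → ℕ) :
    Type where
  blk : Slot k Sm → Fin k → Blk B R b
  inj : ∀ s j s' j', Act K cs s → s.1 j ≠ rN → Act K cs s' → s'.1 j' ≠ rN →
    blk s j = blk s' j' → s = s' ∧ j = j'
  ne : ∀ s j, (blk s j).1.1 ≠ Sum.inl β
  hubB : ∀ s j, s.1 j = rB → Hub Δ (home β) (blk s j).1 ∧ (gv (home β) (blk s j).1).val < ab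
  hubS : ∀ s j, s.1 j = rS → Hub Δ (home β) (blk s j).1 ∧ ¬ (gv (home β) (blk s j).1).val < ab
  hubZ : ∀ s j, isZ (s.1 j) → Hub Δ (home β) (blk s j).1
  isV_iff : ∀ s j, isV (blk s j).1.1 ↔ ¬ isZ (s.1 j)
  low : ∀ s j, Act K cs s → s.1 j ≠ rN → j.1 ≠ 0 → Low Δ (blk s (hp K j)).1 (blk s j).1
  use : ∀ x y, cnt (fun q : Slot k Sm × Fin k => (Act K cs q.1 ∧ q.1.1 q.2 ≠ rN ∧ q.2.1 ≠ 0) ∧
    ((cell (blk q.1 (hp K q.2)).1 (blk q.1 q.2).1 = x ∧
      cell (blk q.1 q.2).1 (blk q.1 (hp K q.2)).1 = y) ∨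
     (cell (blk q.1 (hp K q.2)).1 (blk q.1 q.2).1 = y ∧
      cell (blk q.1 q.2).1 (blk q.1 (hp K q.2)).1 = x))) ≤
    cap Δ (Fintype.card (Lab B R) * b / R ^ 2) ζ β x y

lemma cnt_zmod (lo hi : ℕ) (h : hi ≤ R) :
    cnt (fun x : ZMod R => lo ≤ x.val ∧ x.val < hi) = hi - lo := by
  refine le_antisymm (cnt_le_of_inj_nat (fun x => x.val - lo) _ (fun x hx => by omega)
    fun x y hx hy h => ZMod.val_injective R (by omega)) ?_
  calc hi - lo = cnt (fun _ : Fin (hi - lo) => True) := by simp [cnt_true]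
    _ ≤ _ := by
      have e : ∀ i : Fin (hi - lo), ((lo + i.1 : ℕ) : ZMod R).val = lo + i.1 := fun i =>
        ZMod.val_cast_of_lt (by have := i.2; omega)
      refine cnt_inj (fun i => ((lo + i.1 : ℕ) : ZMod R)) (fun i _ => ?_) fun i j _ _ h => ?_
      · rw [e]; have := i.2; omega
      · have := congrArg ZMod.val h
        rw [e, e] at this
        exact Fin.ext (by omega)

lemma le_of_chain {L c F X b R : ℕ} (hR : 0 < R) (hc : 0 < c) (h1 : L * c ≤ F * X)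
    (h2 : F * (X * R) ≤ b * (c * R)) : L ≤ b := by
  have := Nat.mul_le_mul_right R h1
  exact Nat.le_of_mul_le_mul_right (c := c * R) (by nlinarith) (by positivity)

theorem exists_tpl (Δ : Design B R a) (b K k Sm ζ ab : ℕ) [NeZero b] (β : Fin B)
    (cs : (Fin k → Role) → ℕ) (h0 : 0 < ab) (h1 : ab < a β) (h2 : a β < R) (h5 : 5 < β.1)
    (E : ℕ) (hE : 2 * (Fintype.card (Fin k → Role) * k * Fintype.card (Par B R)) ≤ E)
    (hB : (cnt (fun q : Slot k Sm × Fin k => Act K cs q.1 ∧ q.1.1 q.2 = rB) + E) * R ≤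
      (β.1 - 5) * ab * (Fintype.card (Lab B R) * b))
    (hS : (cnt (fun q : Slot k Sm × Fin k => Act K cs q.1 ∧ q.1.1 q.2 = rS) + E) * R ≤
      (β.1 - 5) * (a β - ab) * (Fintype.card (Lab B R) * b))
    (hO : (cnt (fun q : Slot k Sm × Fin k => Act K cs q.1 ∧ isOE (q.1.1 q.2)) + E) * R ≤
      (β.1 - 5) * (R - a β) * (Fintype.card (Lab B R) * b))
    (hZ : cnt (fun q : Slot k Sm × Fin k => Act K cs q.1 ∧ Zinc K q.1.1 q.2) ≤ ζ) (hζ : ζ ≤ b) :
    Nonempty (Tpl Δ b K k Sm ζ ab β cs) := by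
  set ω := Fintype.card (Lab B R) with hω
  have hR : 0 < R := by omega
  have hω0 : 0 < ω := Fintype.card_pos
  let pD : VC B R × VC B R → Prop := fun q => Δ.D β q.1 q.2
  let pZ : Lab B R → Prop := fun l => a β ≤ (l.1 (Sum.inl β)).val
  let pb : ZMod R → Prop := fun x => 0 ≤ x.val ∧ x.val < ab
  let ps : ZMod R → Prop := fun x => ab ≤ x.val ∧ x.val < a β
  let po : ZMod R → Prop := fun x => a β ≤ x.val ∧ x.val < R
  let pX : ZMod R × ZMod R → Prop := fun x => pb x.1 ∧ ps x.2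
  let Q : Par B R → Prop := fun θ => pD θ.1 ∧ (pZ θ.2.1 ∧ pX θ.2.2)
  have cb : cnt pb = ab := cnt_zmod 0 ab (by omega)
  have cs' : cnt ps = a β - ab := cnt_zmod ab (a β) h2.le
  have co : cnt po = R - a β := cnt_zmod (a β) R le_rfl
  have cX : cnt pX = ab * (a β - ab) := by rw [← cs', ← cb]; exact cnt_and_mul pb ps
  have cZX : cnt (fun x : Lab B R × ZMod R × ZMod R => pZ x.1 ∧ pX x.2) =
      cnt pZ * (ab * (a β - ab)) := by rw [← cX]; exact cnt_and_mul pZ pX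
  have cQ : cnt Q = cnt pD * (cnt pZ * (ab * (a β - ab))) := by
    rw [← cZX]; exact cnt_and_mul pD fun x : Lab B R × ZMod R × ZMod R => pZ x.1 ∧ pX x.2
  set ρ := R - a β with hρ
  set σ := a β - ab with hσ
  have ρ0 : 0 < ρ := by omega
  have σ0 : 0 < σ := by omega
  have cD : (β.1 - 5) * R * ρ ≤ cnt pD := Δ.big β
  have cZ : ω * ρ ≤ cnt pZ * R := by
    rw [hω, ← co, ← cnt_true, ← cnt_and_mul]
    refine le_trans ?_ (le_of_eq ((cnt_and_mul pZ (fun _ : ZMod R => True)).trans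
      (by rw [cnt_true, ZMod.card])))
    refine cnt_inj (fun q => ((Function.update q.1.1 (Sum.inl β) q.2, q.1.2), q.1.1 (Sum.inl β)))
      (fun q hq => ⟨by simpa [pZ] using hq.2.1, trivial⟩) ?_
    rintro ⟨⟨u, v⟩, x⟩ ⟨⟨u', v'⟩, x'⟩ - - h
    simp only [Prod.mk.injEq] at h ⊢
    refine ⟨⟨funext fun ξ => ?_, h.1.2⟩, by simpa using congrFun h.1.1 (Sum.inl β)⟩
    by_cases c : ξ = Sum.inl β
    · rw [c, h.2]
    · simpa [c] using congrFun h.1.1 ξ
  have D0 : 0 < cnt pD := lt_of_lt_of_le (by have : 0 < β.1 - 5 := by omega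
                                             positivity) cD
  have Z0 : 0 < cnt pZ := Nat.pos_of_mul_pos_right (lt_of_lt_of_le (by positivity) cZ)
  have Q0 : 0 < cnt Q := by rw [cQ]; positivity
  obtain ⟨θ, hθ, bal⟩ := exists_bal' (J := Fin k) (Act (Sm := Sm) K cs) Prod.fst Q Q0
  have hE' : 2 * (Fintype.card (Fin k → Role) * Fintype.card (Fin k) * cnt Q) ≤ E := by
    rw [Fintype.card_fin]
    exact le_trans (Nat.mul_le_mul_left _ (Nat.mul_le_mul_left _ (cnt_le_card Q))) hE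
  set E' := Fintype.card (Fin k → Role) * Fintype.card (Fin k) * cnt Q with hE''
  -- fibres
  have tyc : ∀ γ : Ty B, cnt (fun x : VC B R => Sum.inl x.1 = γ) ≤ R := fun γ =>
    cnt_le_of_inj_nat (fun x => x.2.val) _ (fun x _ => ZMod.val_lt _) fun x y hx hy h =>
      Prod.ext (by simpa using hx.trans hy.symm) (ZMod.val_injective R h)
  have FO : ∀ y, cnt (fun x => Q x ∧ czO x = y) ≤ R * ρ * (ab * σ) := by
    intro y
    have e1 : cnt (fun q => pD q ∧ Sum.inl q.2.1 = y.1) ≤ R * ρ :=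
      (cnt_fib_le Prod.snd (fun x : VC B R => Sum.inl x.1 = y.1) ρ (fun q hq => hq.2)
        fun y' _ => (cnt_inj Prod.fst (fun q hq => by rw [← hq.2]; exact hq.1.1)
          fun q q' hq hq' h => Prod.ext h (hq.2.trans hq'.2.symm)).trans (Δ.fib2 β y')).trans
        (Nat.mul_le_mul_right _ (tyc _))
    refine le_trans ?_ (Nat.mul_le_mul e1 cX.le)
    rw [← cnt_and_mul]
    refine cnt_inj (fun x => (x.1, x.2.2))
      (fun x hx => ⟨⟨hx.1.1, congrArg Prod.fst hx.2⟩, hx.1.2.2⟩) fun x x' hx hx' h => ?_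
    simp only [Prod.mk.injEq] at h
    exact Prod.ext h.1 (Prod.ext (congrArg Prod.snd (hx.2.trans hx'.2.symm)) h.2)
  have FE : ∀ y, cnt (fun x => Q x ∧ czE x = y) ≤ R * ρ * (ab * σ) := by
    intro y
    have e1 : cnt (fun q => pD q ∧ Sum.inl q.1.1 = y.1) ≤ R * ρ :=
      (cnt_fib_le Prod.fst (fun x : VC B R => Sum.inl x.1 = y.1) ρ (fun q hq => hq.2)
        fun y' _ => (cnt_inj Prod.snd (fun q hq => by rw [← hq.2]; exact hq.1.1)
          fun q q' hq hq' h => Prod.ext (hq.2.trans hq'.2.symm) h).trans (Δ.fib1 β y')).trans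
        (Nat.mul_le_mul_right _ (tyc _))
    refine le_trans ?_ (Nat.mul_le_mul e1 cX.le)
    rw [← cnt_and_mul]
    refine cnt_inj (fun x => (x.1, x.2.2))
      (fun x hx => ⟨⟨hx.1.1, congrArg Prod.fst hx.2⟩, hx.1.2.2⟩) fun x x' hx hx' h => ?_
    simp only [Prod.mk.injEq] at h
    refine Prod.ext h.1 (Prod.ext ?_ h.2)
    have e2 : labE x.1 x.2.1 = labE x.1 x'.2.1 := by
      have := congrArg Prod.snd (hx.2.trans hx'.2.symm)
      simp only [czE] at this
      rwa [← h.1] at this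
    refine labE_inj (Δ.ne _ _ _ hx.1.1).1 (Sum.inr true) (by simp) (by simp)
      (fun ξ _ => by rw [e2]) (fun ξ _ => by rw [e2]) ?_ ?_
    · simpa [labE] using congrFun (congrArg Prod.fst e2) (Sum.inr true)
    · simpa [labE] using congrFun (congrArg Prod.snd e2) (Sum.inr true)
  have FR : ∀ y (f g : Par B R → ZMod R) (pg : ZMod R → Prop), (∀ x, Q x → pg (g x)) →
      (∀ x x', f x = f x' → g x = g x' → x.2.2 = x'.2.2) →
      cnt (fun x => Q x ∧ czR β x (f x) = y) ≤ ρ * (ρ * (R * cnt pg)) := by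
    intro y f g pg hg hfg
    by_cases hex : ∃ x, Q x ∧ czR β x (f x) = y
    swap
    · exact (cnt_false fun x hx => hex ⟨x, hx⟩).le.trans (Nat.zero_le _)
    obtain ⟨x0, hx0⟩ := hex
    have same : ∀ x x', czR β x (f x) = y → czR β x' (f x') = y → x.1.1 = x'.1.1 ∧ f x = f x' := by
      intro x x' e1 e2
      have e3 := e1.trans e2.symm
      simp only [czR, Prod.mk.injEq, Sum.inl.injEq] at e3
      exact ⟨Prod.ext e3.1 (by simpa using congrFun e3.2.2 (Sum.inl β)),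
        by simpa using congrFun e3.2.1 (Sum.inl β)⟩
    have e0 : cnt (fun z : VC B R × ZMod R × ZMod R × ZMod R => Δ.D β x0.1.1 z.1 ∧
        (po z.2.1 ∧ (True ∧ pg z.2.2.2))) ≤ ρ * (ρ * (R * cnt pg)) := by
      rw [cnt_and_mul (Δ.D β x0.1.1) fun z : ZMod R × ZMod R × ZMod R =>
          po z.1 ∧ (True ∧ pg z.2.2),
        cnt_and_mul po fun z : ZMod R × ZMod R => True ∧ pg z.2,
        cnt_and_mul (fun _ : ZMod R => True) pg, cnt_true, ZMod.card, co]
      exact Nat.mul_le_mul_right _ (Δ.fib1 β _)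
    refine le_trans (cnt_inj
      (fun x => (x.1.2, x.2.1.1 (Sum.inl β), x.2.1.2 (Sum.inl β), g x)) (fun x hx => ?_)
      fun x x' hx hx' h => ?_) e0
    · refine ⟨?_, ⟨hx.1.2.1, ZMod.val_lt _⟩, trivial, hg x hx.1⟩
      rw [← (same x x0 hx.2 hx0.2).1]; exact hx.1.1
    · simp only [Prod.mk.injEq] at h
      obtain ⟨e1, e2⟩ := same x x' hx.2 hx'.2
      have e3 : x.1 = x'.1 := Prod.ext e1 h.1
      refine Prod.ext e3 (Prod.ext ?_ (hfg x x' e2 h.2.2.2))
      have e4 := hx.2.trans hx'.2.symm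
      simp only [czR, Prod.mk.injEq, ← e3] at e4
      obtain ⟨n1, n2, n3, -⟩ := Δ.ne _ _ _ hx.1.1
      refine labE_inj n1 (Sum.inl β) (by simpa using n2.symm) (by simpa using n3.symm)
        (fun ξ hξ => ?_) (fun ξ hξ => ?_) h.2.1 h.2.2.1
      · simpa [hξ] using congrFun e4.2.1 ξ
      · simpa [hξ] using congrFun e4.2.2 ξ
  have FB := fun y => FR y (fun x => x.2.2.1) (fun x => x.2.2.2) ps (fun x hx => hx.2.2.2)
    fun x x' e1 e2 => Prod.ext e1 e2
  have FS := fun y => FR y (fun x => x.2.2.2) (fun x => x.2.2.1) pb (fun x hx => hx.2.2.1)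
    fun x x' e1 e2 => Prod.ext e2 e1
  rw [cs'] at FB
  rw [cb] at FS
  have key : (β.1 - 5) * R * ρ * (ω * ρ) ≤ cnt pD * (cnt pZ * R) := Nat.mul_le_mul cD cZ
  -- cluster loads
  let cl : Slot k Sm × Fin k → Cl B R := fun q => clOf β (θ q.1) (q.1.1 q.2)
  have hload : ∀ y, cnt (fun q : Slot k Sm × Fin k =>
      (Act K cs q.1 ∧ q.1.1 q.2 ≠ rN) ∧ cl q = y) ≤ b := by
    intro y
    by_cases hV : isV y.1
    swap
    · refine le_trans (cnt_mono fun q hq => ⟨hq.1.1, Or.inl ?_⟩) (hZ.trans hζ)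
      by_contra hc
      exact hV (hq.2 ▸ (isV_clOf β _ _).2 hc)
    have cases : ∀ q : Slot k Sm × Fin k, q.1.1 q.2 ≠ rN → cl q = y →
        (q.1.1 q.2 = rB ∧ czR β (θ q.1) (θ q.1).2.2.1 = y ∧ (y.2.1 (Sum.inl β)).val < ab) ∨
        (q.1.1 q.2 = rS ∧ czR β (θ q.1) (θ q.1).2.2.2 = y ∧ ps (y.2.1 (Sum.inl β))) ∨
        (((q.1.1 q.2 = rO ∧ czO (θ q.1) = y) ∨ (q.1.1 q.2 = rE ∧ czE (θ q.1) = y)) ∧
          a β ≤ (y.2.1 (Sum.inl β)).val) := by
      intro q hq hy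
      have hz : ¬ isZ (q.1.1 q.2) := (isV_clOf β _ _).1 (by rw [← hy] at hV; exact hV)
      obtain ⟨g1, g2, g3, g4⟩ := hθ q.1
      obtain ⟨n1, n2, n3, -⟩ := Δ.ne _ _ _ g1
      have : ∀ x : Role, x ≠ rN → ¬ isZ x → x = rB ∨ x = rS ∨ x = rO ∨ x = rE := by
        unfold isZ; decide
      simp only [cl] at hy
      rcases this _ hq hz with c | c | c | c <;> rw [c] at hy
      · refine Or.inl ⟨c, hy, ?_⟩
        rw [← hy]; simpa [clOf_B, czR] using g3.2
      · refine Or.inr (Or.inl ⟨c, hy, ?_⟩)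
        rw [← hy]; simpa [clOf_S, czR] using g4
      · refine Or.inr (Or.inr ⟨Or.inl ⟨c, hy⟩, ?_⟩)
        rw [← hy]; exact g2
      · refine Or.inr (Or.inr ⟨Or.inr ⟨c, hy⟩, ?_⟩)
        rw [← hy]; simpa [clOf_E, czE, labE, n2.symm, n3.symm] using g2
    by_cases c1 : (y.2.1 (Sum.inl β)).val < ab
    · have e1 := bal (fun τ j => τ j = rB) (fun x => czR β x x.2.2.1 = y)
      refine le_trans (cnt_mono fun q hq => ?_) (le_of_chain hR Q0
        (e1.trans (Nat.mul_le_mul (FB y) (add_le_add_right (show E' ≤ E by omega) _))) ?_)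
      · rcases cases q hq.1.2 hq.2 with c | c | c
        · exact ⟨⟨hq.1.1, c.2.1⟩, c.1⟩
        · exact absurd c.2.2.1 (by omega)
        · exact absurd c.2 (by omega)
      · refine (Nat.mul_le_mul_left _ hB).trans ?_
        rw [cQ]
        calc _ = (β.1 - 5) * R * ρ * (ω * ρ) * (ab * σ * b) := by ring
          _ ≤ cnt pD * (cnt pZ * R) * (ab * σ * b) := Nat.mul_le_mul_right _ key
          _ = _ := by ring
    by_cases c2 : (y.2.1 (Sum.inl β)).val < a β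
    · have e1 := bal (fun τ j => τ j = rS) (fun x => czR β x x.2.2.2 = y)
      refine le_trans (cnt_mono fun q hq => ?_) (le_of_chain hR Q0
        (e1.trans (Nat.mul_le_mul (FS y) (add_le_add_right (show E' ≤ E by omega) _))) ?_)
      · rcases cases q hq.1.2 hq.2 with c | c | c
        · exact absurd c.2.2 c1
        · exact ⟨⟨hq.1.1, c.2.1⟩, c.1⟩
        · exact absurd c.2 (by omega)
      · refine (Nat.mul_le_mul_left _ hS).trans ?_
        rw [cQ]
        calc _ = (β.1 - 5) * R * ρ * (ω * ρ) * (ab * σ * b) := by ring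
          _ ≤ cnt pD * (cnt pZ * R) * (ab * σ * b) := Nat.mul_le_mul_right _ key
          _ = _ := by ring
    · have e1 := (bal (fun τ j => τ j = rO) (fun x => czO x = y)).trans
        (Nat.mul_le_mul_right _ (FO y))
      have e2 := (bal (fun τ j => τ j = rE) (fun x => czE x = y)).trans
        (Nat.mul_le_mul_right _ (FE y))
      have e3 := cnt_disj (p := fun q : Slot k Sm × Fin k => Act K cs q.1 ∧ q.1.1 q.2 = rO)
        (q := fun q => Act K cs q.1 ∧ q.1.1 q.2 = rE)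
        (r := fun q => Act K cs q.1 ∧ isOE (q.1.1 q.2)) (fun q hq => ⟨hq.1, Or.inl hq.2⟩)
        (fun q hq => ⟨hq.1, Or.inr hq.2⟩)
        (fun q hq hq' => absurd (hq.2.symm.trans hq'.2) (by decide))
      have e4 := add_le_add e1 e2
      rw [← add_mul, ← mul_add] at e4
      refine le_trans (cnt_le_add fun q hq => ?_) (le_of_chain hR Q0
        (e4.trans (Nat.mul_le_mul_left _ (show _ ≤ cnt (fun q : Slot k Sm × Fin k =>
          Act K cs q.1 ∧ isOE (q.1.1 q.2)) + E by omega))) ?_)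
      · rcases cases q hq.1.2 hq.2 with c | c | c
        · exact absurd c.2.2 c1
        · exact absurd c.2.2.2 c2
        · exact c.1.imp (fun c => ⟨⟨hq.1.1, c.2⟩, c.1⟩) fun c => ⟨⟨hq.1.1, c.2⟩, c.1⟩
      · refine (Nat.mul_le_mul_left _ hO).trans ?_
        rw [cQ]
        calc _ = (β.1 - 5) * R * ρ * (ω * ρ) * (ab * σ * b) := by ring
          _ ≤ cnt pD * (cnt pZ * R) * (ab * σ * b) := Nat.mul_le_mul_right _ key
          _ = _ := by ring
  obtain ⟨jj, hjj⟩ := exists_fib_inj (J := ZMod b)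
    (fun q : Slot k Sm × Fin k => Act K cs q.1 ∧ q.1.1 q.2 ≠ rN) cl
    (fun q _ => by rw [ZMod.card]; exact hload _)
  refine ⟨⟨fun s j => (cl (s, j), jj (s, j)), ?_, fun s j => clOf_ne Δ (hθ s).1 _, ?_, ?_, ?_,
    fun s j => isV_clOf β _ _, ?_, ?_⟩⟩
  · intro s j s' j' g1 g2 g3 g4 g5
    simp only [Prod.mk.injEq] at g5
    simpa using hjj (s, j) (s', j') ⟨g1, g2⟩ ⟨g3, g4⟩ g5.1 g5.2
  · intro s j h
    obtain ⟨g1, g2, g3, g4⟩ := hθ s
    simp only [cl, h, clOf_B, (cell_home_R _ _ _).1]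
    exact ⟨hub_R Δ g1 (g3.2.trans h1), g3.2⟩
  · intro s j h
    obtain ⟨g1, g2, g3, g4⟩ := hθ s
    simp only [cl, h, clOf_S, (cell_home_R _ _ _).1]
    exact ⟨hub_R Δ g1 g4.2, not_lt.2 g4.1⟩
  · rintro s j (h | h) <;> simp only [cl, h, clOf_T, clOf_D] <;> exact hub_Z Δ _ _ _
  · intro s j g1 g2 g3
    exact low_allowed Δ (by omega) (hθ s).1 (g1.1 j g2 g3)
  · intro x y
    simp only [cl]
    unfold cap
    split_ifs with c1 c2
    · obtain ⟨x', y', hD, hxy⟩ : ∃ x' y', Δ.D β x' y' ∧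
          ((x = emb x' ∧ y = emb y') ∨ (x = emb y' ∧ y = emb x')) := by
        obtain ⟨x', y', g1, g2, g3 | g3⟩ := c1
        exacts [⟨x', y', g3, Or.inl ⟨g1, g2⟩⟩, ⟨y', x', g3, Or.inr ⟨g1, g2⟩⟩]
      have e1 := bal (fun τ j => isOE (τ j)) (fun z => z.1 = (x', y'))
      have e2 : cnt (fun z => Q z ∧ z.1 = (x', y')) ≤ cnt pZ * (ab * σ) := by
        rw [← cZX]
        exact cnt_inj Prod.snd (fun z hz => hz.1.2) fun z z' hz hz' h =>
          Prod.ext (hz.2.trans hz'.2.symm) h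
      have e3 := e1.trans (Nat.mul_le_mul e2 (add_le_add_right (show E' ≤ E by omega) _))
      refine le_trans (cnt_mono fun q hq => ?_) ((Nat.le_div_iff_mul_le (by positivity)).2
        (le_of_chain hR Q0 (F := cnt pZ * (ab * σ) * R ^ 2)
          (X := cnt (fun q : Slot k Sm × Fin k => Act K cs q.1 ∧ isOE (q.1.1 q.2)) + E)
          (L := cnt (fun q : Slot k Sm × Fin k =>
            (Act K cs q.1 ∧ (θ q.1).1 = (x', y')) ∧ isOE (q.1.1 q.2)) * R ^ 2) ?_ ?_))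
      · obtain ⟨⟨g1, g2, g3⟩, g4⟩ := hq
        have hD' := (hθ q.1).1
        have v1 : isV (clOf β (θ q.1) (q.1.1 (hp K q.2))).1 ∧
            isV (clOf β (θ q.1) (q.1.1 q.2)).1 := by
          rcases g4 with g4 | g4 <;> rcases hxy with ⟨rfl, rfl⟩ | ⟨rfl, rfl⟩ <;>
            exact ⟨⟨_, congrArg Prod.fst g4.1⟩, ⟨_, congrArg Prod.fst g4.2⟩⟩
        obtain ⟨g5, g6⟩ := cell_allowed Δ hD' (g1.1 _ g2 g3) ((isV_clOf _ _ _).1 v1.1)
          ((isV_clOf _ _ _).1 v1.2)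
        refine ⟨⟨g1, ?_⟩, g5⟩
        have : ((θ q.1).1.1 = x' ∧ (θ q.1).1.2 = y') ∨ ((θ q.1).1.1 = y' ∧ (θ q.1).1.2 = x') := by
          rcases g4 with g4 | g4 <;> rcases hxy with ⟨rfl, rfl⟩ | ⟨rfl, rfl⟩ <;>
            rcases g6 with g6 | g6 <;> rw [g6.1, g6.2] at g4 <;>
            first
              | exact Or.inl ⟨emb_inj g4.1, emb_inj g4.2⟩
              | exact Or.inl ⟨emb_inj g4.2, emb_inj g4.1⟩
              | exact Or.inr ⟨emb_inj g4.1, emb_inj g4.2⟩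
              | exact Or.inr ⟨emb_inj g4.2, emb_inj g4.1⟩
        rcases this with g7 | g7
        · exact Prod.ext g7.1 g7.2
        · simp only [pD, g7.1, g7.2] at hD'
          exact absurd hD' (Δ.asym _ _ _ hD)
      · have := Nat.mul_le_mul_right (R ^ 2) e3
        nlinarith
      · refine (Nat.mul_le_mul_left _ hO).trans ?_
        rw [cQ]
        calc _ = (β.1 - 5) * R * ρ * (cnt pZ * (ab * σ) * R * (ω * b)) := by ring
          _ ≤ cnt pD * (cnt pZ * (ab * σ) * R * (ω * b)) := Nat.mul_le_mul_right _ cD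
          _ = _ := by ring
    · refine (cnt_false fun q hq => c1 ?_).le
      obtain ⟨⟨g1, g2, g3⟩, g4⟩ := hq
      have hD' := (hθ q.1).1
      have v1 : isV (clOf β (θ q.1) (q.1.1 (hp K q.2))).1 ∧
          isV (clOf β (θ q.1) (q.1.1 q.2)).1 := by
        rcases g4 with ⟨rfl, rfl⟩ | ⟨rfl, rfl⟩
        exacts [c2, c2.symm]
      obtain ⟨g5, g6⟩ := cell_allowed Δ hD' (g1.1 _ g2 g3) ((isV_clOf _ _ _).1 v1.1)
        ((isV_clOf _ _ _).1 v1.2)
      rcases g4 with ⟨rfl, rfl⟩ | ⟨rfl, rfl⟩ <;> rcases g6 with g6 | g6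
      exacts [⟨_, _, g6.1, g6.2, Or.inl hD'⟩, ⟨_, _, g6.1, g6.2, Or.inr hD'⟩,
        ⟨_, _, g6.2, g6.1, Or.inr hD'⟩, ⟨_, _, g6.2, g6.1, Or.inl hD'⟩]
    · refine le_trans (cnt_mono fun q hq => ⟨hq.1.1, ?_⟩) hZ
      obtain ⟨⟨g1, g2, g3⟩, g4⟩ := hq
      by_contra hc
      simp only [Zinc, not_or, not_and] at hc
      have v1 := (isV_clOf β (θ q.1) _).2 hc.1
      have v2 := (isV_clOf β (θ q.1) _).2 (hc.2 g3 g2)
      rcases g4 with ⟨rfl, rfl⟩ | ⟨rfl, rfl⟩
      exacts [c2 ⟨v2, v1⟩, c2 ⟨v1, v2⟩]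

end

end Pool.Agent.Lib.MP_de1a09_co
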