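import Pool.Agent.Lib.MP_de1a09_co.Host
import Pool.Agent.Lib.MP_de1a09_co.Tpl

/-! Slots, groups of trees and rounded loads. -/

set_option autoImplicit false
set_option linter.unusedVariables false
set_option linter.unusedSectionVars false

open Finset

namespace Pool.Agent.Lib.MP_de1a09_co

noncomputable section
open Classical

lemma cnt_pair_le {ι Cls Γ J : Type*} [Fintype ι] [Fintype Cls] [Fintype Γ] [Fintype J]
    (cls : ι → Cls) (γ : ι → Γ) (μ : Cls → ℕ)
    (hμ : ∀ C t, cnt (fun i => cls i = C ∧ γ i = t) ≤ μ C) (Φ : Cls → Γ → J → Prop) :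
    cnt (fun q : ι × J => Φ (cls q.1) (γ q.1) q.2) ≤
      ∑ C, μ C * cnt (fun q : Γ × J => Φ C q.1 q.2) := by
  have := cnt_pair (fun _ : ι => True) (fun i => (cls i, γ i)) (fun p j => Φ p.1 p.2 j)
  simp only [true_and] at this
  rw [this, Fintype.sum_prod_type]
  refine sum_le_sum fun C _ => ?_
  rw [cnt_prod, mul_sum]
  refine sum_le_sum fun t _ => Nat.mul_le_mul_right _ (le_trans (cnt_mono fun i hi => ?_) (hμ C t))
  simpa using hi

lemma exists_groups {ι Cls Γ Gr C Hg : Type} [Fintype ι] [Fintype Cls] [Fintype Γ] [Nonempty Γ]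
    [Fintype Gr] [Nonempty Gr] [Fintype Hg] [Nonempty Hg] (cls : ι → Cls) (cc : Cls → Γ → C)
    (H : ∀ μ : Cls → ℕ, (∀ C, μ C * Fintype.card Γ ≤
      cnt (fun i => cls i = C) + 2 * Fintype.card Gr * Fintype.card Γ) →
      ∀ c, ∑ C, μ C * cnt (fun t => cc C t = c) ≤ Fintype.card Hg * Fintype.card Gr) :
    ∃ (γ : ι → Γ) (pos : ι → Gr) (hg : ι → Hg) (μ : Cls → ℕ),
      (∀ C t, cnt (fun i => cls i = C ∧ γ i = t) ≤ μ C) ∧
      (∀ C, μ C * Fintype.card Γ ≤
        cnt (fun i => cls i = C) + 2 * Fintype.card Gr * Fintype.card Γ) ∧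
      ∀ i i', cc (cls i) (γ i) = cc (cls i') (γ i') → hg i = hg i' →
        cls i = cls i' ∧ γ i = γ i' ∧ (pos i = pos i' → i = i') := by
  set G := Fintype.card Gr with hG
  set g := Fintype.card Γ with hg
  have G0 : 0 < G := Fintype.card_pos
  have g0 : 0 < g := Fintype.card_pos
  obtain ⟨e, e1, e2⟩ := exists_rank (fun _ : ι => True) cls
  simp only [true_and, forall_const] at e1 e2
  let n : Cls → ℕ := fun C => cnt (fun i => cls i = C)
  let S := Cls × Fin (Fintype.card ι + 1)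
  let Pg : S → Prop := fun s => s.2.1 < n s.1 / G + 1
  have elt : ∀ i, e i / G < Fintype.card ι + 1 := fun i =>
    Nat.lt_succ_of_le ((Nat.div_le_self _ _).trans ((e1 i).le.trans (cnt_le_card _)))
  let gr : ι → S := fun i => (cls i, ⟨e i / G, elt i⟩)
  have hPg : ∀ i, Pg (gr i) := fun i => Nat.lt_succ_of_le (Nat.div_le_div_right (e1 i).le)
  obtain ⟨θ, -, hθ⟩ := exists_bal Pg Prod.fst (fun _ : Γ => True)
    (by rw [cnt_true]; exact g0)
  rw [cnt_true, ← hg] at hθ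
  let Λ : Cls → ℕ := fun C => (n C / G + 1 + g) / g
  have hΛ : ∀ C t, cnt (fun s => (Pg s ∧ s.1 = C) ∧ θ s = t) ≤ Λ C := by
    intro C t
    refine (Nat.le_div_iff_mul_le g0).2 ((hθ C t).trans (add_le_add_left ?_ _))
    exact cnt_le_of_inj_nat (fun s => s.2.1) _ (fun s hs => hs.2 ▸ hs.1) fun s s' hs hs' h =>
      Prod.ext (hs.2.trans hs'.2.symm) (Fin.ext h)
  have hμ : ∀ C, Λ C * G * g ≤ n C + 2 * G * g := by
    intro C
    have a1 : Λ C * g ≤ n C / G + 1 + g := Nat.div_mul_le_self _ _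
    have a2 : n C / G * G ≤ n C := Nat.div_mul_le_self _ _
    have a3 := Nat.mul_le_mul_right G a1
    nlinarith
  let pos : ι → Gr := fun i => (Fintype.equivFin Gr).symm ⟨e i % G, Nat.mod_lt _ G0⟩
  have hpos : ∀ i i', gr i = gr i' → pos i = pos i' → i = i' := by
    intro i i' h1 h2
    simp only [gr, S, Prod.mk.injEq, Fin.mk.injEq] at h1
    simp only [pos, EmbeddingLike.apply_eq_iff_eq, Fin.mk.injEq] at h2
    refine e2 i i' h1.1 ?_
    rw [← Nat.div_add_mod (e i) G, ← Nat.div_add_mod (e i') G, h1.2, h2]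
  obtain ⟨hh, hhh⟩ := exists_fib_inj (J := Hg) Pg (fun s => cc s.1 (θ s)) (fun s _ => by
    generalize cc s.1 (θ s) = c
    refine Nat.le_of_mul_le_mul_right (le_trans ?_ (H (fun C => Λ C * G) hμ c)) G0
    rw [cnt_fib _ Prod.fst, sum_mul]
    refine sum_le_sum fun C _ => ?_
    have := cnt_fib_le (p := fun s : S => (Pg s ∧ cc s.1 (θ s) = c) ∧ s.1 = C) θ
      (fun t => cc C t = c) (Λ C) (fun s hs => hs.2 ▸ hs.1.2) fun t _ =>
        (cnt_mono fun s hs => ⟨⟨hs.1.1.1, hs.1.2⟩, hs.2⟩).trans (hΛ C t)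
    nlinarith)
  refine ⟨fun i => θ (gr i), pos, fun i => hh (gr i), fun C => Λ C * G, fun C t => ?_, hμ,
    fun i i' h1 h2 => ?_⟩
  · refine (cnt_fib_le gr (fun s => (Pg s ∧ s.1 = C) ∧ θ s = t) G
      (fun i hi => ⟨⟨hPg i, hi.1⟩, hi.2⟩) fun s _ => ?_).trans (Nat.mul_le_mul_right _ (hΛ C t))
    rw [hG, ← cnt_true]
    exact cnt_inj pos (fun _ _ => trivial) fun i i' h1 h2 => hpos i i' (h1.2.trans h2.2.symm)
  · have := hhh _ _ (hPg i) (hPg i') h1 h2
    exact ⟨congrArg Prod.fst this, congrArg θ this, hpos i i' this⟩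

variable {K k r d0 σ : ℕ} {ι X : Type} [Fintype X] [Fintype ι] (F : Forest K k r d0 σ ι X)

lemma exists_slots (n N' Sm : ℕ) (hN' : 0 < N') (hSm : n / N' < Sm)
    (hn : ∀ i, cnt (fun x => F.tr x = i) ≤ n) :
    ∃ (sl : X → Slot k Sm) (cs : ι → (Fin k → Role) → Fin (Sm + 1)),
      (∀ v, (sl v).1 = F.ty v) ∧ (∀ u v, F.tp u = F.tp v → sl u = sl v) ∧
      (∀ v, ¬ F.A v → Act K (fun τ => (cs (F.tr v) τ).1) (sl v)) ∧
      (∀ i s, cnt (fun v => (¬ F.A v ∧ F.A (F.p v)) ∧ F.tr v = i ∧ sl v = s) ≤ N') ∧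
      ∀ (i : ι) (Q : (Fin k → Role) → Fin k → Prop), (∀ τ j, Q τ j → τ j ≠ rN) →
        cnt (fun q : Slot k Sm × Fin k => Act K (fun τ => (cs i τ).1) q.1 ∧ Q q.1.1 q.2) * N' ≤
          cnt (fun v => (¬ F.A v ∧ Q (F.ty v) (F.ad v)) ∧ F.tr v = i) +
            Fintype.card (Fin k → Role) * k * N' := by
  let Top : X → Prop := fun v => ¬ F.A v ∧ F.A (F.p v)
  obtain ⟨e, e1, e2⟩ := exists_rank Top (fun v => (F.tr v, F.ty v))
  let m : ι → (Fin k → Role) → ℕ := fun i τ => cnt fun v => Top v ∧ (F.tr v, F.ty v) = (i, τ)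
  have hm : ∀ i τ, m i τ / N' < Sm := fun i τ => lt_of_le_of_lt (Nat.div_le_div_right
    ((cnt_mono fun v hv => congrArg Prod.fst hv.2).trans (hn i))) hSm
  have S0 : 0 < Sm := lt_of_le_of_lt (Nat.zero_le _) hSm
  have elt : ∀ v, Top v → e v / N' < m (F.tr v) (F.ty v) / N' + 1 := fun v hv =>
    Nat.lt_succ_of_le (Nat.div_le_div_right (e1 v hv).le)
  have emod : ∀ v, Top v → e v / N' % Sm = e v / N' := fun v hv =>
    Nat.mod_eq_of_lt (by have := elt v hv; have := hm (F.tr v) (F.ty v); omega)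
  refine ⟨fun v => (F.ty v, ⟨e (F.tp v) / N' % Sm, Nat.mod_lt _ S0⟩),
    fun i τ => ⟨m i τ / N' + 1, Nat.succ_lt_succ (hm i τ)⟩, fun v => rfl, fun u v h => ?_,
    fun v hv => ⟨F.valid v, ?_⟩, fun i s => ?_, fun i Q hQ => ?_⟩
  · simp only [h, F.ty_tp u v h]
  · have t1 : Top (F.tp v) := ⟨F.tp_nA v hv, F.tp_p v hv⟩
    have := elt _ t1
    rw [F.tr_tp, F.ty_tp _ _ (F.tp_tp hv)] at this
    simpa only [emod _ t1] using this
  · refine cnt_le_of_inj_nat (fun v => e v % N') _ (fun v _ => Nat.mod_lt _ hN')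
      fun u v hu hv h => ?_
    have h1 := hu.2.2.trans hv.2.2.symm
    simp only [Prod.mk.injEq, Fin.mk.injEq, F.tp_self u hu.1.2, F.tp_self v hv.1.2, emod u hu.1,
      emod v hv.1] at h1
    refine e2 u v hu.1 hv.1 (Prod.ext (hu.2.1.trans hv.2.1.symm) h1.1) ?_
    rw [← Nat.div_add_mod (e u) N', ← Nat.div_add_mod (e v) N', h1.2, h]
  · rw [cnt_pair (S := Slot k Sm) _ Prod.fst Q, sum_mul]
    have a1 : ∑ τ, m i τ * cnt (Q τ) ≤
        cnt (fun v => (¬ F.A v ∧ Q (F.ty v) (F.ad v)) ∧ F.tr v = i) := by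
      have a2 := cnt_pair (fun v => Top v ∧ F.tr v = i) F.ty Q
      refine le_trans (le_of_eq ?_) (a2.ge.trans (cnt_surj (fun v => (F.tp v, F.ad v)) ?_))
      · refine sum_congr rfl fun τ _ => ?_
        congr 1
        exact cnt_congr fun v => by simp [and_assoc]
      · rintro ⟨t, j⟩ ⟨⟨h1, h2⟩, h3⟩
        obtain ⟨u, g1, g2, g3⟩ := F.role_ex t j (hQ _ _ h3)
        simp only at h1 h2 h3
        refine ⟨u, ⟨⟨g1, by rw [F.ty_tp u t g2, g3]; exact h3⟩, ?_⟩, ?_⟩
        · rw [← F.tr_tp, g2, F.tr_tp, h2]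
        · rw [g2, g3, F.tp_self t h1.2]
    calc _ ≤ ∑ τ, (m i τ * cnt (Q τ) + k * N') := by
          refine sum_le_sum fun τ _ => ?_
          have b1 : cnt (fun s : Slot k Sm => Act K (fun τ => m i τ / N' + 1) s ∧ s.1 = τ) ≤
              m i τ / N' + 1 :=
            cnt_le_of_inj_nat (fun s => s.2.1) _ (fun s hs => hs.2 ▸ hs.1.2) fun s s' hs hs' h =>
              Prod.ext (hs.2.trans hs'.2.symm) (Fin.ext h)
          have b2 : m i τ / N' * N' ≤ m i τ := Nat.div_mul_le_self _ _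
          have b3 : cnt (Q τ) ≤ k := by simpa using cnt_le_card (Q τ)
          have b4 := Nat.mul_le_mul_right (cnt (Q τ) * N') b1
          have b5 := Nat.mul_le_mul_right (cnt (Q τ)) b2
          have b6 := Nat.mul_le_mul_right N' b3
          nlinarith
      _ ≤ _ := by
          rw [sum_add_distrib, sum_const, card_univ, smul_eq_mul, mul_assoc]
          exact add_le_add_left a1 _

/-- load of the big hub with a given index -/
def Forest.ws (ℓ : X → Fin r) (Wt : X → ℕ) (i : ι) (l : Fin r) : ℕ :=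
  ∑ x, if (F.Big x ∧ F.tr x = i) ∧ ℓ x = l then Wt x else 0

lemma Forest.sum_ws (ℓ : X → Fin r) (Wt : X → ℕ) (i : ι) :
    ∑ l, F.ws ℓ Wt i l = ∑ x, if F.Big x ∧ F.tr x = i then Wt x else 0 := by
  unfold Forest.ws
  rw [sum_comm]
  refine sum_congr rfl fun x _ => ?_
  by_cases h : F.Big x ∧ F.tr x = i
  · simp [h]
  · simp only [h, false_and, if_false, sum_const_zero]

lemma comp_bound (ℓ : X → Fin r) (Wt : X → ℕ) (q : ℕ) (hq : 0 < q) (Q : X → Prop)
    (hQ : ∀ x, Q x → F.Big x) (i0 : ι) (hinj : ∀ u v, Q u → Q v → ℓ u = ℓ v → u = v)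
    (hcls : ∀ x, Q x → F.ws ℓ Wt (F.tr x) (ℓ x) / q = F.ws ℓ Wt i0 (ℓ x) / q) :
    (∑ x, if Q x then Wt x else 0) ≤ (∑ x, if F.Big x ∧ F.tr x = i0 then Wt x else 0) + r * q := by
  calc _ ≤ ∑ x, if Q x then F.ws ℓ Wt i0 (ℓ x) + q else 0 := by
        refine sum_le_sum fun x _ => ?_
        split_ifs with h
        · have a1 : Wt x ≤ F.ws ℓ Wt (F.tr x) (ℓ x) := by
            refine le_trans (le_of_eq ?_) (single_le_sum (f := fun y =>
              if (F.Big y ∧ F.tr y = F.tr x) ∧ ℓ y = ℓ x then Wt y else 0)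
              (fun _ _ => Nat.zero_le _) (mem_univ x))
            simp [hQ x h]
          have a2 := Nat.div_add_mod (F.ws ℓ Wt (F.tr x) (ℓ x)) q
          have a3 := Nat.mod_lt (F.ws ℓ Wt (F.tr x) (ℓ x)) hq
          have a4 := Nat.mul_div_le (F.ws ℓ Wt i0 (ℓ x)) q
          rw [hcls x h] at a2
          omega
        · exact le_rfl
    _ = ∑ l, cnt (fun x => Q x ∧ ℓ x = l) * (F.ws ℓ Wt i0 l + q) :=
        sum_fib_mul ℓ (fun l => F.ws ℓ Wt i0 l + q) Q
    _ ≤ ∑ l, (F.ws ℓ Wt i0 l + q) := by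
        refine sum_le_sum fun l _ => ?_
        have := cnt_le_one (p := fun x => Q x ∧ ℓ x = l) fun u v hu hv =>
          hinj u v hu.1 hv.1 (hu.2.trans hv.2.symm)
        nlinarith
    _ = _ := by rw [sum_add_distrib, F.sum_ws]; simp

lemma sidon {r : ℕ} {x y : Fin r → ZMod 3} {a b c d : Fin r} (hab : a ≠ b)
    (h1 : x + Pi.single a 1 = y + Pi.single c 1) (h2 : x + Pi.single b 1 = y + Pi.single d 1) :
    x = y := by
  have e1 := congrFun h1 a
  have e2 := congrFun h2 a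
  by_cases h : a = c
  · subst h
    exact add_right_cancel h1
  · exfalso
    simp only [Pi.add_apply, Pi.single_eq_same, Pi.single_eq_of_ne h, Pi.single_eq_of_ne hab,
      add_zero] at e1 e2
    by_cases h' : a = d
    · subst h'
      rw [Pi.single_eq_same, ← e1] at e2
      generalize x a = z at e2
      revert z; decide
    · rw [Pi.single_eq_of_ne h', add_zero, ← e1] at e2
      generalize x a = z at e2
      revert z; decide

end

end Pool.Agent.Lib.MP_de1a09_co
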