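import Pool.Agent.Lib.MP_de1a09_co.Basic

/-! Sequential choice with a quadratic potential. -/

set_option autoImplicit false
set_option linter.unusedVariables false
set_option linter.unusedSectionVars false

open Finset

namespace Pool.Agent.Lib.MP_de1a09_co

noncomputable section
open Classical

lemma pos_sq_le (s a : ℝ) : (max (s + a) 0) ^ 2 ≤ (max s 0) ^ 2 + 2 * max s 0 * a + a ^ 2 := by
  rcases le_total s 0 with h | h <;> rcases le_total (s + a) 0 with h' | h'
  · rw [max_eq_right h, max_eq_right h']; nlinarith [sq_nonneg a]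
  · rw [max_eq_right h, max_eq_left h']; nlinarith
  · rw [max_eq_left h, max_eq_right h']; nlinarith [sq_nonneg (s + a)]
  · rw [max_eq_left h, max_eq_left h']; nlinarith

/-- load of a host in a coordinate -/
def load {X H S : Type*} (w : X → S → ℝ) (P : Finset X) (h : X → H) (y : H) (s : S) : ℝ :=
  ∑ x ∈ P, if h x = y then w x s else 0

lemma load_insert {X H S : Type*} (w : X → S → ℝ) {P : Finset X} (h : X → H) {a : X}
    (ha : a ∉ P) (z y : H) (s : S) :
    load w (insert a P) (Function.update h a z) y s =
      load w P h y s + if z = y then w a s else 0 := by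
  unfold load
  rw [sum_insert ha, Function.update_self, add_comm]
  congr 1
  refine sum_congr rfl fun x hx => ?_
  rw [Function.update_of_ne (by rintro rfl; exact ha hx)]

lemma seqChoice {X H S : Type*} [Fintype X] [Fintype H] [Fintype S] [Nonempty H]
    (Sm : X → Prop) (d : X → ℕ) (w : X → S → ℝ) (η w0 : ℝ) (hη0 : 0 < η) (hη : η ≤ 1 / 8)
    (hw : ∀ x s, 0 ≤ w x s) (hw0 : ∀ x s, Sm x → w x s ≤ w0) (hw00 : 0 ≤ w0) (hw0η : w0 ≤ η)
    (havg : ∀ s, (∑ x ∈ univ.filter Sm, w x s) ≤ (1 - 4 * η) * Fintype.card H)
    (hS : 3 * w0 * Fintype.card S ≤ η ^ 3)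
    (Inv : Finset X → (X → H) → Prop) (h0 : X → H) (hinit : Inv ∅ h0)
    (hstep : ∀ (P : Finset X) (a : X) (h : X → H), (∀ x ∈ P, Sm x) → Sm a → a ∉ P →
      (∀ x ∈ P, d x ≤ d a) → Inv P h → (∀ y s, load w P h y s ≤ 1) →
      (cnt (fun y => ¬ Inv (insert a P) (Function.update h a y)) : ℝ) ≤ η * Fintype.card H) :
    ∃ h, Inv (univ.filter Sm) h ∧ ∀ y s, load w (univ.filter Sm) h y s ≤ 1 := by
  set m : ℝ := (Fintype.card H : ℝ) with hm
  have hm1 : 1 ≤ m := by
    rw [hm]; exact_mod_cast Fintype.card_pos
  set p : ℝ := 1 / ((1 - 2 * η) * m) with hp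
  have hd : 0 < (1 - 2 * η) * m := mul_pos (by linarith) (by linarith)
  have hp0 : 0 < p := by positivity
  have hpm : p * ((1 - 2 * η) * m) = 1 := by rw [hp]; exact one_div_mul_cancel hd.ne'
  let W : Finset X → S → ℝ := fun P s => ∑ x ∈ P, w x s
  let Ψ : Finset X → (X → H) → ℝ := fun P h =>
    ∑ s, ∑ y, (max (load w P h y s - p * W P s) 0) ^ 2
  suffices H' : ∀ P : Finset X, (∀ x ∈ P, Sm x) → ∃ h, Inv P h ∧ (∀ y s, load w P h y s ≤ 1) ∧
      Ψ P h ≤ 3 * w0 * ∑ s, W P s by
    obtain ⟨h, h1, h2, -⟩ := H' (univ.filter Sm) fun x hx => (mem_filter.1 hx).2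
    exact ⟨h, h1, h2⟩
  intro P
  induction P using Finset.induction_on_max_value d with
  | empty => exact fun _ => ⟨h0, hinit, by simp [load], by simp [Ψ, W, load]⟩
  | insert a P ha hmax ih =>
    intro hP
    have hPs : ∀ x ∈ P, Sm x := fun x hx => hP x (mem_insert_of_mem hx)
    have hsa : Sm a := hP a (mem_insert_self _ _)
    obtain ⟨h, h1, h2, h3⟩ := ih hPs
    have hW : ∀ s, W P s ≤ (1 - 4 * η) * m := fun s =>
      (sum_le_sum_of_subset_of_nonneg (fun x hx => mem_filter.2 ⟨mem_univ _, hPs x hx⟩)
        fun x _ _ => hw x s).trans (havg s)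
    have hW0 : ∀ s, 0 ≤ W P s := fun s => sum_nonneg fun x _ => hw x s
    have hpW : ∀ s, p * W P s ≤ 1 - 2 * η := fun s => by
      have e1 : p * W P s ≤ p * ((1 - 4 * η) * m) := mul_le_mul_of_nonneg_left (hW s) hp0.le
      have e2 : (1 - 4 * η) * m ≤ (1 - 2 * η) * ((1 - 2 * η) * m) := by
        nlinarith [mul_pos hη0 hη0]
      have e3 : p * ((1 - 4 * η) * m) ≤ p * ((1 - 2 * η) * ((1 - 2 * η) * m)) :=
        mul_le_mul_of_nonneg_left e2 hp0.le
      have e4 : p * ((1 - 2 * η) * ((1 - 2 * η) * m)) = 1 - 2 * η := by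
        rw [mul_left_comm, hpm, mul_one]
      linarith
    -- few full hosts
    let Full : H → Prop := fun y => ∃ s, 1 - w0 < load w P h y s
    have hfull : (cnt Full : ℝ) ≤ η * m := by
      have e1 : (cnt Full : ℝ) * η ^ 2 ≤ Ψ P h := by
        simp only [Ψ]
        rw [sum_comm, cnt_eq_sum]
        push_cast
        rw [sum_mul]
        refine sum_le_sum fun y _ => ?_
        split_ifs with hy
        · obtain ⟨s, hs⟩ := hy
          have e2 : η ≤ max (load w P h y s - p * W P s) 0 :=
            le_max_of_le_left (by linarith [hpW s])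
          calc 1 * η ^ 2 ≤ (max (load w P h y s - p * W P s) 0) ^ 2 := by
                rw [one_mul]; exact pow_le_pow_left₀ hη0.le e2 2
            _ ≤ _ := single_le_sum
              (f := fun s => (max (load w P h y s - p * W P s) 0) ^ 2)
              (fun _ _ => sq_nonneg _) (mem_univ s)
        · rw [zero_mul]; exact sum_nonneg fun _ _ => sq_nonneg _
      have e2 : ∑ s, W P s ≤ Fintype.card S * m := by
        calc ∑ s, W P s ≤ ∑ _s : S, m := sum_le_sum fun s _ => (hW s).trans (by nlinarith)
          _ = _ := by simp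
      have e3 : (cnt Full : ℝ) * η ^ 2 ≤ η * m * η ^ 2 := by
        calc _ ≤ 3 * w0 * (Fintype.card S * m) :=
              e1.trans (h3.trans (mul_le_mul_of_nonneg_left e2 (by positivity)))
          _ = (3 * w0 * Fintype.card S) * m := by ring
          _ ≤ η ^ 3 * m := mul_le_mul_of_nonneg_right hS (by linarith)
          _ = _ := by ring
      exact le_of_mul_le_mul_right e3 (by positivity)
    have hbad := hstep P a h hPs hsa ha hmax h1 h2
    let Gd : H → Prop := fun y => ¬ (Full y ∨ ¬ Inv (insert a P) (Function.update h a y))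
    have hGd : (1 - 2 * η) * m ≤ cnt Gd := by
      have e1 := cnt_add_not (fun y => Full y ∨ ¬ Inv (insert a P) (Function.update h a y))
      have e2 := cnt_or Full (fun y => ¬ Inv (insert a P) (Function.update h a y))
      have e3 : (cnt Gd : ℝ) + cnt Full +
          cnt (fun y => ¬ Inv (insert a P) (Function.update h a y)) ≥ m := by
        rw [hm]; exact_mod_cast (by simp only [Gd]; omega)
      linarith
    have hGc : (univ.filter Gd).card = cnt Gd := by unfold cnt; congr
    have hGne : (univ.filter Gd).Nonempty := by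
      rw [← card_pos, hGc]
      have : (0 : ℝ) < cnt Gd := hd.trans_le hGd
      exact_mod_cast this
    have hWi : ∀ s, W (insert a P) s = W P s + w a s := fun s => by
      simp only [W]; rw [sum_insert ha, add_comm]
    have hsum : ∑ z ∈ univ.filter Gd, Ψ (insert a P) (Function.update h a z) ≤
        ∑ z ∈ univ.filter Gd, (Ψ P h + 3 * w0 * ∑ s, w a s) := by
      let u : H → S → ℝ := fun y s => max (load w P h y s - p * W P s) 0
      let α : H → H → ℝ := fun z y => (if z = y then 1 else 0) - p
      have e1 : ∀ z, Ψ (insert a P) (Function.update h a z) ≤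
          Ψ P h + (∑ s, ∑ y, 2 * u y s * w a s * α z y) + 3 * w0 * ∑ s, w a s := by
        intro z
        simp only [Ψ]
        rw [mul_sum, ← sum_add_distrib, ← sum_add_distrib]
        refine sum_le_sum fun s _ => ?_
        have e2 : ∑ y, (w a s * α z y) ^ 2 ≤ 3 * w0 * w a s := by
          have e3 : ∑ y, (α z y) ^ 2 ≤ 3 := by
            calc ∑ y, (α z y) ^ 2 ≤ ∑ y, ((if z = y then 1 else 0) + p ^ 2) := by
                  refine sum_le_sum fun y _ => ?_
                  simp only [α]
                  split_ifs <;> nlinarith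
              _ = 1 + m * p ^ 2 := by rw [sum_add_distrib]; simp [hm]
              _ ≤ 3 := by
                  have e4 : p * m ≤ 4 / 3 := by nlinarith
                  have e5 : p ≤ 4 / 3 := by nlinarith
                  nlinarith
          calc ∑ y, (w a s * α z y) ^ 2 = w a s ^ 2 * ∑ y, (α z y) ^ 2 := by
                rw [mul_sum]; exact sum_congr rfl fun y _ => by ring
            _ ≤ w a s ^ 2 * 3 := mul_le_mul_of_nonneg_left e3 (sq_nonneg _)
            _ ≤ _ := by nlinarith [hw a s, hw0 a s hsa]
        refine le_trans ?_ (add_le_add_right e2 _)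
        rw [← sum_add_distrib, ← sum_add_distrib]
        refine sum_le_sum fun y _ => ?_
        have e4 : load w (insert a P) (Function.update h a z) y s - p * W (insert a P) s =
            (load w P h y s - p * W P s) + w a s * α z y := by
          rw [load_insert w h ha, hWi]; simp only [α]; split_ifs <;> ring
        rw [e4]
        refine (pos_sq_le _ _).trans (le_of_eq ?_)
        simp only [u]; ring
      refine (sum_le_sum fun z _ => e1 z).trans ?_
      have e2 : ∑ z ∈ univ.filter Gd, ∑ s, ∑ y, 2 * u y s * w a s * α z y ≤ 0 := by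
        rw [sum_comm]
        refine sum_nonpos fun s _ => ?_
        rw [sum_comm]
        refine sum_nonpos fun y _ => ?_
        rw [← mul_sum]
        refine mul_nonpos_of_nonneg_of_nonpos
          (mul_nonneg (mul_nonneg (by norm_num) (le_max_right _ _)) (hw a s)) ?_
        simp only [α]
        rw [sum_sub_distrib, sum_const, nsmul_eq_mul]
        have e3 : ∑ z ∈ univ.filter Gd, (if z = y then (1 : ℝ) else 0) ≤ 1 := by
          rw [sum_ite_eq']; split_ifs <;> norm_num
        have e4 : 1 ≤ (cnt Gd : ℝ) * p := by nlinarith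
        rw [hGc]
        linarith
      simp only [sum_add_distrib] at e2 ⊢
      linarith
    obtain ⟨z, hz, hz2⟩ := exists_le_of_sum_le hGne hsum
    have hz3 : Gd z := (mem_filter.1 hz).2
    simp only [Gd, not_or, not_not] at hz3
    refine ⟨Function.update h a z, hz3.2, fun y s => ?_, hz2.trans ?_⟩
    · rw [load_insert w h ha]
      split_ifs with hy
      · subst hy
        have := hz3.1
        simp only [Full, not_exists, not_lt] at this
        linarith [this s, hw0 a s hsa]
      · simpa using h2 y s
    · simp only [hWi, sum_add_distrib]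
      linarith

end

end Pool.Agent.Lib.MP_de1a09_co
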