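import Pool.Agent.Lib.MP_de1a09_co.Forest
import Pool.Agent.Lib.MP_de1a09_co.Seq

/-! Hosting the small hubs. -/

set_option autoImplicit false
set_option linter.unusedVariables false
set_option linter.unusedSectionVars false

open Finset

namespace Pool.Agent.Lib.MP_de1a09_co

noncomputable section
open Classical

variable {K k r d0 σ : ℕ} {ι X : Type} [Fintype X] [Fintype ι] (F : Forest K k r d0 σ ι X)

/-- degree in the hub forest -/
def Forest.degA (x : X) : ℕ := cnt fun e => F.AA e ∧ (e = x ∨ F.p e = x)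

lemma Forest.sum_degA (Q : ι → Prop) :
    (∑ x, if Q (F.tr x) then F.degA x else 0) ≤ cnt Q * (6 * σ) := by
  have e1 : cnt (fun e => F.A e ∧ Q (F.tr e)) ≤ cnt Q * (3 * σ) :=
    cnt_fib_le F.tr Q _ (fun x hx => hx.2) fun i _ =>
      (cnt_mono fun x hx => ⟨hx.1.1, hx.2⟩).trans (F.cntA i)
  have e2 := cnt_fib (fun e => F.A e ∧ Q (F.tr e)) id
  have e3 := cnt_fib (fun e => F.A e ∧ Q (F.tr e)) F.p
  calc _ ≤ ∑ x, (cnt (fun e => (F.A e ∧ Q (F.tr e)) ∧ id e = x) +
        cnt (fun e => (F.A e ∧ Q (F.tr e)) ∧ F.p e = x)) := by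
        refine sum_le_sum fun x _ => ?_
        split_ifs with h
        · refine cnt_le_add fun e he => ?_
          rcases he.2 with g | g
          · exact Or.inl ⟨⟨he.1.2.1, g ▸ h⟩, g⟩
          · exact Or.inr ⟨⟨he.1.2.1, by rw [← F.tr_p, g]; exact h⟩, g⟩
        · exact Nat.zero_le _
    _ ≤ _ := by rw [sum_add_distrib, ← e2, ← e3]; nlinarith

lemma Forest.degA_le {x : X} (h : ¬ F.Big x) : F.degA x ≤ d0 + 1 := by
  have e1 : F.degA x ≤ cnt (fun u => ¬ F.Rt u ∧ F.p u = x) + cnt (fun u => u = x) :=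
    cnt_le_add fun e he => he.2.symm.imp (fun g => ⟨he.1.1, g⟩) id
  have e2 : cnt (fun e => e = x) ≤ 1 := cnt_le_one fun u v hu hv => hu.trans hv.symm
  have := F.small_ch x h
  omega

theorem hosting {C Hs S : Type} [Fintype C] [Fintype Hs] [Nonempty Hs] [Fintype S]
    (c : ι → C) (h0 : X → Hs) (W : X → S → ℕ) (cp : S → ℕ) (cA : ℕ) (η w0 : ℝ)
    (hη0 : 0 < η) (hη : η ≤ 1 / 8) (hw00 : 0 ≤ w0) (hw0η : w0 ≤ η)
    (hS : 3 * w0 * (Fintype.card C * (Fintype.card S + 1)) ≤ η ^ 3)
    (hcp : ∀ s, 0 < cp s) (hcA : 0 < cA)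
    (hW : ∀ x s, F.A x → ¬ F.Big x → (W x s : ℝ) ≤ w0 * cp s)
    (hd : (d0 + 1 : ℝ) ≤ w0 * cA)
    (havg : ∀ c' s, ((∑ x, if (F.A x ∧ ¬ F.Big x) ∧ c (F.tr x) = c' then W x s else 0 : ℕ) : ℝ) ≤
      (1 - 4 * η) * Fintype.card Hs * cp s)
    (havgA : ∀ c', (cnt (fun i => c i = c') * (6 * σ) : ℝ) ≤ (1 - 4 * η) * Fintype.card Hs * cA)
    (h0inj : ∀ u v, F.Big u → F.Big v → F.tr u = F.tr v → h0 u = h0 v → u = v)
    (h0AA : ∀ e e', F.AA e → F.AA e' → F.Big e → F.Big (F.p e) → F.Big e' → F.Big (F.p e') →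
      c (F.tr e) = c (F.tr e') → s(h0 e, h0 (F.p e)) = s(h0 e', h0 (F.p e')) → F.tr e = F.tr e')
    (h0deg : ∀ c' y, (∑ x, if F.Big x ∧ c (F.tr x) = c' ∧ h0 x = y then F.degA x else 0) ≤ cA)
    (hm : (3 * σ + 4 * cA : ℝ) ≤ η * Fintype.card Hs) :
    ∃ h : X → Hs, (∀ x, F.Big x → h x = h0 x) ∧
      (∀ u v, F.A u → F.A v → F.tr u = F.tr v → h u = h v → u = v) ∧
      (∀ e e', F.AA e → F.AA e' → c (F.tr e) = c (F.tr e') →
        s(h e, h (F.p e)) = s(h e', h (F.p e')) → F.tr e = F.tr e') ∧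
      ∀ c' y s, (∑ x, if (F.A x ∧ ¬ F.Big x) ∧ c (F.tr x) = c' ∧ h x = y then W x s else 0) ≤
        cp s := by
  let Sm : X → Prop := fun x => F.A x ∧ ¬ F.Big x
  let W' : X → Option S → ℕ := fun x o => o.elim (F.degA x) (W x)
  let cp' : Option S → ℕ := fun o => o.elim cA cp
  have cp0 : ∀ o, (0 : ℝ) < cp' o := by
    rintro (_ | s)
    · exact_mod_cast hcA
    · exact_mod_cast hcp s
  let w : X → C × Option S → ℝ := fun x q =>
    if c (F.tr x) = q.1 then (W' x q.2 : ℝ) / cp' q.2 else 0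
  have ld : ∀ (P : Finset X) (h : X → Hs) y c' o, load w P h y (c', o) ≤ 1 →
      (∑ x, if x ∈ P ∧ c (F.tr x) = c' ∧ h x = y then W' x o else 0) ≤ cp' o := by
    intro P h y c' o hl
    have e1 : load w P h y (c', o) =
        ((∑ x, if x ∈ P ∧ c (F.tr x) = c' ∧ h x = y then W' x o else 0 : ℕ) : ℝ) / cp' o := by
      unfold load
      push_cast
      rw [sum_div, ← sum_filter_add_sum_filter_not univ (fun x => x ∈ P),
        sum_eq_zero (s := univ.filter fun x => ¬ x ∈ P) (fun x hx => by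
          simp [(mem_filter.1 hx).2]), add_zero, filter_mem_eq_inter, univ_inter]
      refine sum_congr rfl fun x hx => ?_
      simp only [w, hx, true_and]
      by_cases g1 : h x = y <;> by_cases g2 : c (F.tr x) = c' <;> simp [g1, g2]
    rw [e1, div_le_one (cp0 o)] at hl
    exact_mod_cast hl
  let Inv : Finset X → (X → Hs) → Prop := fun P h => (∀ x, F.Big x → h x = h0 x) ∧
    (∀ u v, (F.Big u ∨ u ∈ P) → (F.Big v ∨ v ∈ P) → F.tr u = F.tr v → h u = h v → u = v) ∧
    (∀ e e', F.AA e → F.AA e' → (F.Big e ∨ e ∈ P) → (F.Big (F.p e) ∨ F.p e ∈ P) →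
      (F.Big e' ∨ e' ∈ P) → (F.Big (F.p e') ∨ F.p e' ∈ P) → c (F.tr e) = c (F.tr e') →
      s(h e, h (F.p e)) = s(h e', h (F.p e')) → F.tr e = F.tr e')
  obtain ⟨h, ⟨i1, i2, i3⟩, hl⟩ := seqChoice Sm F.d w η w0 hη0 hη
    (fun x q => by simp only [w]; split_ifs <;> positivity)
    (by
      rintro x ⟨c', o⟩ hx
      simp only [w]
      split_ifs
      · rw [div_le_iff₀ (cp0 o)]
        rcases o with _ | s
        · refine le_trans ?_ hd
          exact_mod_cast F.degA_le hx.2
        · exact hW x s hx.1 hx.2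
      · exact hw00) hw00 hw0η
    (by
      rintro ⟨c', o⟩
      have e1 : ∑ x ∈ univ.filter Sm, w x (c', o) =
          ((∑ x, if Sm x ∧ c (F.tr x) = c' then W' x o else 0 : ℕ) : ℝ) / cp' o := by
        push_cast
        rw [sum_div, sum_filter]
        refine sum_congr rfl fun x hx => ?_
        simp only [w]
        by_cases g1 : Sm x
        · rw [if_pos g1]
          by_cases g2 : c (F.tr x) = c'
          · rw [if_pos g2, if_pos ⟨g1, g2⟩]
          · rw [if_neg g2, if_neg fun g => g2 g.2, zero_div]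
        · rw [if_neg g1, if_neg fun g => g1 g.1, zero_div]
      refine le_trans (le_of_eq ?_) (e1.le.trans ?_)
      · congr
      rw [div_le_iff₀ (cp0 o)]
      rcases o with _ | s
      · refine le_trans ?_ (havgA c')
        have := (sum_le_sum (s := univ) (f := fun x => if Sm x ∧ c (F.tr x) = c' then
          W' x none else 0) (g := fun x => if c (F.tr x) = c' then F.degA x else 0)
          fun x _ => by
            by_cases g1 : Sm x <;> by_cases g2 : c (F.tr x) = c' <;> simp [g1, g2, W']).trans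
          (F.sum_degA fun i => c i = c')
        exact_mod_cast this
      · exact havg c' s)
    (by simpa using hS) Inv h0
    ⟨fun _ _ => rfl, fun u v g1 g2 => h0inj u v (by simpa using g1) (by simpa using g2),
      fun e e' g1 g2 g3 g4 g5 g6 => h0AA e e' g1 g2 (by simpa using g3) (by simpa using g4)
        (by simpa using g5) (by simpa using g6)⟩
    (by
      rintro P a h hP ha haP hmax ⟨i1, i2, i3⟩ hl
      let Pl : X → Prop := fun x => F.Big x ∨ x ∈ P
      have PlA : ∀ x, Pl x → F.A x := fun x hx => hx.elim (F.Big_A x) fun g => (hP x g).1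
      have Pla : ∀ x, Pl x → x ≠ a := by
        rintro x (g | g) rfl
        exacts [ha.2 g, haP g]
      have Pl' : ∀ x, (F.Big x ∨ x ∈ insert a P) → x ≠ a → Pl x := fun x g1 g2 =>
        g1.imp_right fun g => (mem_insert.1 g).resolve_left g2
      let Nb : X → Prop := fun u => u = F.p a ∨ (¬ F.Rt u ∧ F.p u = a ∧ F.Big u)
      have cNb : cnt Nb ≤ 2 := by
        have e1 : cnt Nb ≤ _ := cnt_or _ _
        have e2 : cnt (fun u => u = F.p a) ≤ 1 := cnt_le_one fun u v hu hv => hu.trans hv.symm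
        have e3 : cnt (fun u => ¬ F.Rt u ∧ F.p u = a ∧ F.Big u) ≤ 1 :=
          cnt_le_one fun u v hu hv => F.small_big u v hu.1 hv.1 (hu.2.1.trans hv.2.1.symm)
            (hu.2.1 ▸ ha.2) hu.2.2 hv.2.2
        omega
      let Us : Hs → X → Prop := fun y u => ∃ e', (F.AA e' ∧ Pl e' ∧ Pl (F.p e') ∧
        c (F.tr e') = c (F.tr a)) ∧ s(y, h u) = s(h e', h (F.p e'))
      have cU : ∀ u, cnt (fun y => Us y u) ≤ 2 * cA := by
        intro u
        have e1 : cnt (fun y => Us y u) ≤ cnt (fun e' => ∃ x,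
            (Pl x ∧ c (F.tr x) = c (F.tr a) ∧ h x = h u) ∧ (F.AA e' ∧ (e' = x ∨ F.p e' = x))) := by
          refine cnt_surj (fun e' => if h e' = h u then h (F.p e') else h e') ?_
          rintro y ⟨e', ⟨g1, g2, g3, g4⟩, g5⟩
          refine ⟨e', ?_, ?_⟩
          · rcases Sym2.eq_iff.1 g5 with g6 | g6
            · exact ⟨F.p e', ⟨g3, by rw [F.tr_p, g4], g6.2.symm⟩, g1, Or.inr rfl⟩
            · exact ⟨e', ⟨g2, g4, g6.2.symm⟩, g1, Or.inl rfl⟩
          · rcases Sym2.eq_iff.1 g5 with g6 | g6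
            · split_ifs with g7
              · rw [g6.1, g7, g6.2]
              · exact g6.1.symm
            · simp only [g6.2, if_true, g6.1]
        refine e1.trans ((cnt_exists_le _).trans ?_)
        have e2 := h0deg (c (F.tr a)) (h u)
        have e3 := ld P h (h u) (c (F.tr a)) none (hl _ _)
        refine le_trans ?_ ((add_le_add e2 e3).trans (by simp only [cp', Option.elim]; omega))
        rw [← sum_add_distrib]
        refine sum_le_sum fun x _ => ?_
        by_cases g : Pl x ∧ c (F.tr x) = c (F.tr a) ∧ h x = h u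
        · have e4 : cnt (fun e' => (Pl x ∧ c (F.tr x) = c (F.tr a) ∧ h x = h u) ∧
              (F.AA e' ∧ (e' = x ∨ F.p e' = x))) ≤ F.degA x := cnt_mono fun e he => he.2
          rcases g.1 with g1 | g1
          · rw [if_pos ⟨g1, g.2.1, (i1 x g1).symm.trans g.2.2⟩]; omega
          · rw [if_pos (c := x ∈ P ∧ _) ⟨g1, g.2⟩]
            simp only [W', Option.elim]; omega
        · exact (cnt_false fun e he => g he.1).le.trans (Nat.zero_le _)
      have e1 : cnt (fun y => ∃ u, (F.A u ∧ F.tr u = F.tr a) ∧ h u = y) ≤ 3 * σ :=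
        (cnt_surj h fun y hy => hy).trans (F.cntA _)
      have e2 := cnt_exists_le_mul Us Nb _ fun u _ => cU u
      have e3 : cnt (fun y => ¬ Inv (insert a P) (Function.update h a y)) ≤
          cnt (fun y => ∃ u, (F.A u ∧ F.tr u = F.tr a) ∧ h u = y) +
            cnt (fun y => ∃ u, Nb u ∧ Us y u) := by
        refine cnt_le_add fun y hy => ?_
        by_contra hc
        rw [not_or] at hc
        apply hy
        have up : ∀ x, x ≠ a → Function.update h a y x = h x := fun x g =>
          Function.update_of_ne g _ _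
        have new : ∀ e e', F.AA e → F.AA e' → (F.Big e ∨ e ∈ insert a P) →
            (F.Big e' ∨ e' ∈ insert a P) → (F.Big (F.p e') ∨ F.p e' ∈ insert a P) →
            c (F.tr e) = c (F.tr e') → (e = a ∨ F.p e = a) →
            s(Function.update h a y e, Function.update h a y (F.p e)) =
              s(Function.update h a y e', Function.update h a y (F.p e')) →
            F.tr e = F.tr e' := by
          intro e e' g1 g2 g3 g5 g6 g7 g8 g9
          by_contra hne
          have t1 : F.tr e = F.tr a := by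
            rcases g8 with g8 | g8
            · rw [g8]
            · rw [← g8, F.tr_p]
          have n1 : e' ≠ a := fun g => hne (by rw [t1, g])
          have n2 : F.p e' ≠ a := fun g => hne (by rw [t1, ← g, F.tr_p])
          have n3 : F.p e ≠ e := fun g => by
            have := F.d_p e g1.1
            rw [g] at this; omega
          rw [up _ n1, up _ n2] at g9
          apply hc.2
          rcases g8 with g8 | g8
          · subst g8
            rw [Function.update_self, up _ n3] at g9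
            exact ⟨F.p e, Or.inl rfl, e', ⟨g2, Pl' _ g5 n1, Pl' _ g6 n2, g7.symm⟩, g9⟩
          · have n4 : e ≠ a := fun g => n3 (g8.trans g.symm)
            rw [g8, Function.update_self, up _ n4, Sym2.eq_swap] at g9
            refine ⟨e, Or.inr ⟨g1.1, g8, (Pl' _ g3 n4).resolve_right fun g => ?_⟩, e',
              ⟨g2, Pl' _ g5 n1, Pl' _ g6 n2, by rw [← g7, t1]⟩, g9⟩
            have q1 := hmax e g
            have q2 := F.d_p e g1.1
            rw [g8] at q2; omega
        refine ⟨fun x g => (up x (Pla x (Or.inl g))).trans (i1 x g), fun u v g1 g2 g3 g4 => ?_,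
          fun e e' g1 g2 g3 g4 g5 g6 g7 g8 => ?_⟩
        · by_cases c1 : u = a <;> by_cases c2 : v = a
          · rw [c1, c2]
          · rw [c1, Function.update_self, up v c2] at g4
            exact absurd ⟨v, ⟨PlA v (Pl' v g2 c2), by rw [← g3, c1]⟩, g4.symm⟩ hc.1
          · rw [c2, Function.update_self, up u c1] at g4
            exact absurd ⟨u, ⟨PlA u (Pl' u g1 c1), by rw [g3, c2]⟩, g4⟩ hc.1
          · rw [up u c1, up v c2] at g4
            exact i2 u v (Pl' u g1 c1) (Pl' v g2 c2) g3 g4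
        · by_cases c1 : e = a ∨ F.p e = a
          · exact new e e' g1 g2 g3 g5 g6 g7 c1 g8
          by_cases c2 : e' = a ∨ F.p e' = a
          · exact (new e' e g2 g1 g5 g3 g4 g7.symm c2 g8.symm).symm
          rw [not_or] at c1 c2
          rw [up _ c1.1, up _ c1.2, up _ c2.1, up _ c2.2] at g8
          exact i3 e e' g1 g2 (Pl' _ g3 c1.1) (Pl' _ g4 c1.2) (Pl' _ g5 c2.1) (Pl' _ g6 c2.2) g7 g8
      refine le_trans ?_ hm
      have e4 : cnt (fun y => ¬ Inv (insert a P) (Function.update h a y)) ≤ 3 * σ + 4 * cA := by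
        nlinarith
      exact_mod_cast e4)
  have pl : ∀ x, F.A x → ∀ {inst : DecidablePred Sm}, F.Big x ∨ x ∈ univ.filter Sm :=
      fun x hx _ => by
    by_cases g : F.Big x
    · exact Or.inl g
    · exact Or.inr (mem_filter.2 ⟨mem_univ _, hx, g⟩)
  refine ⟨h, i1, fun u v g1 g2 => i2 u v (pl u g1) (pl v g2), fun e e' g1 g2 =>
    i3 e e' g1 g2 (pl _ g1.2.1) (pl _ g1.2.2) (pl _ g2.2.1) (pl _ g2.2.2), fun c' y s => ?_⟩
  have := ld _ h y c' (some s) (hl _ _)
  refine le_trans (le_of_eq (sum_congr rfl fun x _ => ?_)) this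
  simp [Sm, W']

end

end Pool.Agent.Lib.MP_de1a09_co
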