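import Pool.Agent.Lib.MP_de1a09_co.Basic

/-! Clusters, blocks and the translation group. -/

set_option autoImplicit false
set_option linter.unusedVariables false
set_option linter.unusedSectionVars false

open Finset

namespace Pool.Agent.Lib.MP_de1a09_co

noncomputable section
open Classical

abbrev Ty (B : ℕ) : Type := Fin B ⊕ Bool
abbrev Lab (B R : ℕ) : Type := (Ty B → ZMod R) × (Ty B → ZMod R)
abbrev Cl (B R : ℕ) : Type := Ty B × Lab B R
abbrev Blk (B R b : ℕ) : Type := Cl B R × ZMod b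

variable {B R b : ℕ}

def gv (y z : Cl B R) : ZMod R := z.2.1 y.1 + y.2.2 z.1

def cell (y z : Cl B R) : Ty B × ZMod R := (y.1, gv y z)

/-- the translation group -/
def Gam (B R b : ℕ) : AddSubgroup (Ty B → Lab B R × ZMod b) where
  carrier := {t | ∀ γ δ, γ ≠ δ → (t δ).1.1 γ + (t γ).1.2 δ = 0}
  add_mem' := by
    intro s t hs ht γ δ h
    have e1 := hs γ δ h
    have e2 := ht γ δ h
    simp only [Pi.add_apply, Prod.fst_add, Prod.snd_add]
    linear_combination e1 + e2
  zero_mem' := by intro γ δ h; simp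
  neg_mem' := by
    intro s hs γ δ h
    have e1 := hs γ δ h
    simp only [Pi.neg_apply, Prod.fst_neg, Prod.snd_neg]
    linear_combination -e1

instance [NeZero R] [NeZero b] : Fintype (Gam B R b) := Fintype.ofFinite _

def actC (t : Gam B R b) (y : Cl B R) : Cl B R := (y.1, y.2 + (t.1 y.1).1)

def act (t : Gam B R b) (U : Blk B R b) : Blk B R b := (actC t U.1, U.2 + (t.1 U.1.1).2)

@[simp] lemma actC_fst (t : Gam B R b) (y : Cl B R) : (actC t y).1 = y.1 := rfl
@[simp] lemma act_fst (t : Gam B R b) (U : Blk B R b) : (act t U).1 = actC t U.1 := rfl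

lemma act_inj (t : Gam B R b) {U W : Blk B R b} (h : act t U = act t W) : U = W := by
  obtain ⟨⟨γ, l⟩, j⟩ := U
  obtain ⟨⟨δ, l'⟩, j'⟩ := W
  simp only [act, actC, Prod.mk.injEq] at h
  obtain ⟨⟨rfl, h2⟩, h3⟩ := h
  rw [add_right_cancel h2, add_right_cancel h3]

lemma gv_act (t : Gam B R b) {y z : Cl B R} (h : y.1 ≠ z.1) :
    gv (actC t y) (actC t z) = gv y z := by
  have := t.2 y.1 z.1 h
  simp only [gv, actC, Prod.fst_add, Prod.snd_add, Pi.add_apply]
  linear_combination this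

lemma cell_act (t : Gam B R b) {y z : Cl B R} (h : y.1 ≠ z.1) :
    cell (actC t y) (actC t z) = cell y z := by
  simp only [cell, gv_act t h, actC_fst]

lemma cnt_hom {G M K E : Type*} [AddCommGroup G] [AddCommGroup M] [Fintype G] [Fintype K]
    [Fintype E] (φ : G → M) (hφ : ∀ s t, φ (s + t) = φ s + φ t) (s : K → G) (ex : K → E)
    (h : ∀ k k', φ (s k) = φ (s k') → ex k = ex k' → k = k') (x : M) :
    cnt (fun t => φ t = x) * Fintype.card K ≤ Fintype.card G * Fintype.card E := by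
  rw [← cnt_true (α := K), ← cnt_and_mul, ← Fintype.card_prod, ← cnt_true (α := G × E)]
  refine cnt_inj (fun q => (q.1 + s q.2, ex q.2)) (fun _ _ => trivial) ?_
  rintro ⟨t, k⟩ ⟨t', k'⟩ ⟨h1, -⟩ ⟨h2, -⟩ h3
  simp only [Prod.mk.injEq] at h1 h2 h3 ⊢
  have e1 := congrArg φ h3.1
  rw [hφ, hφ, h1, h2] at e1
  obtain rfl := h k k' (add_left_cancel e1) h3.2
  exact ⟨add_right_cancel h3.1, rfl⟩

/-- an element of the group with prescribed values at two types -/
def mkG (γ δ : Ty B) (hne : γ ≠ δ) (p q : Lab B R × ZMod b) (h1 : q.1.1 γ + p.1.2 δ = 0)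
    (h2 : p.1.1 δ + q.1.2 γ = 0) : Gam B R b :=
  ⟨fun η => if η = γ then p else if η = δ then q else
    ((fun ξ => if ξ = γ then - p.1.2 η else if ξ = δ then - q.1.2 η else 0,
      fun ξ => if ξ = γ then - p.1.1 η else if ξ = δ then - q.1.1 η else 0), 0), by
    intro ξ η h
    by_cases a1 : η = γ <;> by_cases a2 : η = δ <;> by_cases a3 : ξ = γ <;>
      by_cases a4 : ξ = δ <;> simp_all [hne.symm]⟩

variable [NeZero R] [NeZero b]

lemma cnt_act_pair (U0 W0 U W : Blk B R b) (h : U0.1.1 ≠ W0.1.1) :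
    cnt (fun t : Gam B R b => act t U0 = U ∧ act t W0 = W) * (Fintype.card (Lab B R) * b) ^ 2 ≤
      Fintype.card (Gam B R b) * R ^ 2 := by
  set γ := U0.1.1 with hγ
  set δ := W0.1.1 with hδ
  let mod : (Lab B R × ZMod b) × (Lab B R × ZMod b) → Lab B R × ZMod b := fun k =>
    ((Function.update k.2.1.1 γ (- k.1.1.2 δ), Function.update k.2.1.2 γ (- k.1.1.1 δ)), k.2.2)
  have key := cnt_hom (G := Gam B R b) (fun t => (t.1 γ, t.1 δ)) (fun s t => rfl)
    (K := (Lab B R × ZMod b) × (Lab B R × ZMod b))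
    (fun k => mkG γ δ h k.1 (mod k) (by simp [mod]) (by simp [mod]))
    (fun k => (k.2.1.1 γ, k.2.1.2 γ)) (by
      rintro ⟨p, ⟨q1, q2⟩, q3⟩ ⟨p', ⟨q1', q2'⟩, q3'⟩ h1 h2
      simp only [mkG, if_true, h.symm, if_false, Prod.mk.injEq, mod] at h1 h2 ⊢
      obtain ⟨rfl, ⟨h3, h4⟩, h5⟩ := h1
      refine ⟨rfl, ⟨?_, ?_⟩, h5⟩
      · funext ξ
        by_cases c : ξ = γ
        · rw [c]; exact h2.1
        · simpa [c] using congrFun h3 ξ
      · funext ξ
        by_cases c : ξ = γ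
        · rw [c]; exact h2.2
        · simpa [c] using congrFun h4 ξ)
    ((U.1.2 - U0.1.2, U.2 - U0.2), (W.1.2 - W0.1.2, W.2 - W0.2))
  simp only [Fintype.card_prod, ZMod.card] at key
  rw [pow_two, pow_two]
  refine le_trans (Nat.mul_le_mul (cnt_mono ?_) (le_of_eq ?_)) key
  · rintro t ⟨rfl, rfl⟩
    simp [act, actC, hγ, hδ]
  · simp only [Fintype.card_prod, ZMod.card]

lemma cnt_act_one (c0 c : Cl B R) :
    cnt (fun t : Gam B R b => actC t c0 = c) * Fintype.card (Lab B R) ≤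
      Fintype.card (Gam B R b) := by
  obtain ⟨δ, h⟩ : ∃ δ : Ty B, c0.1 ≠ δ := by
    by_cases h : c0.1 = Sum.inr true
    · exact ⟨Sum.inr false, by simp [h]⟩
    · exact ⟨_, h⟩
  set γ := c0.1 with hγ
  have key := cnt_hom (G := Gam B R b) (fun t => (t.1 γ).1) (fun s t => rfl) (K := Lab B R)
    (fun k => mkG γ δ h (k, 0) ((fun _ => - k.2 δ, fun _ => - k.1 δ), 0) (by simp) (by simp))
    (fun _ => ()) (by
      intro k k' h1 _
      simpa [mkG] using h1) (c.2 - c0.2)
  simp only [Fintype.card_unit, mul_one] at key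
  refine le_trans (Nat.mul_le_mul_right _ (cnt_mono ?_)) key
  rintro t rfl
  simp [actC, hγ]

end

end Pool.Agent.Lib.MP_de1a09_co
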