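import Pool.Agent.Lib.MP_de1a09_co.Design
import Pool.Agent.Lib.MP_de1a09_co.Lab
import Pool.Agent.Lib.MP_de1a09_co.Dec

/-! Hub pairs, capacities and the clusters attached to a parameter. -/

set_option autoImplicit false
set_option linter.unusedVariables false
set_option linter.unusedSectionVars false

open Finset

namespace Pool.Agent.Lib.MP_de1a09_co

noncomputable section
open Classical

variable {B R : ℕ} [NeZero R] {a : Fin B → ℕ} (Δ : Design B R a)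

abbrev Cell (B R : ℕ) : Type := Ty B × ZMod R
abbrev VC (B R : ℕ) : Type := Fin B × ZMod R

def emb (x : VC B R) : Cell B R := (Sum.inl x.1, x.2)

lemma emb_inj {x y : VC B R} (h : emb x = emb y) : x = y := by
  simp only [emb, Prod.mk.injEq, Sum.inl.injEq] at h
  exact Prod.ext h.1 h.2

def HubC (x y : Cell B R) : Prop :=
  ∃ β, x.1 = Sum.inl β ∧ ((∃ γ, y.1 = Sum.inl γ ∧ γ ≠ β ∧ x.2.val < a β ∧ Δ.Root β (γ, y.2)) ∨
    (∃ w, y.1 = Sum.inr w ∧ x.2 = 0))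

def Hub (c y : Cl B R) : Prop := HubC Δ (cell c y) (cell y c)

lemma Hub.ne {c y : Cl B R} (h : Hub Δ c y) : c.1 ≠ y.1 := by
  obtain ⟨β, h1, ⟨γ, h2, h3, -⟩ | ⟨w, h2, -⟩⟩ := h
  · simp only [cell] at h1 h2
    rw [h1, h2]; simpa using h3.symm
  · simp only [cell] at h1 h2
    rw [h1, h2]; simp

lemma Hub.anti {c y : Cl B R} (h : Hub Δ c y) : ¬ Hub Δ y c := by
  obtain ⟨β, h1, h2⟩ := h
  rintro ⟨β', h3, h4⟩
  rcases h2 with ⟨γ, h2, -, h5, h6⟩ | ⟨w, h2, -⟩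
  · rcases h4 with ⟨γ', h4, -, h7, h8⟩ | ⟨w, h4, -⟩
    · obtain rfl : γ' = β := by simpa using h4.symm.trans h1
      obtain rfl : β' = γ := by simpa using h3.symm.trans h2
      exact Δ.anti (γ', (cell c y).2) (β', (cell y c).2) h5 h6 h7 h8
    · simpa using h4.symm.trans h1
  · simpa using h3.symm.trans h2

lemma Hub.act {b : ℕ} (t : Gam B R b) {c y : Cl B R} (h : c.1 ≠ y.1) :
    Hub Δ (actC t c) (actC t y) ↔ Hub Δ c y := by
  unfold Hub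
  rw [cell_act t h, cell_act t h.symm]

def DC (β : Fin B) (x y : Cell B R) : Prop :=
  ∃ x' y', x = emb x' ∧ y = emb y' ∧ (Δ.D β x' y' ∨ Δ.D β y' x')

def isV (γ : Ty B) : Prop := ∃ β, γ = Sum.inl β

def cap (M ζ : ℕ) (β : Fin B) (x y : Cell B R) : ℕ :=
  if DC Δ β x y then M else if isV x.1 ∧ isV y.1 then 0 else ζ

lemma cap_sum (M ζ : ℕ) (h : B * ζ ≤ M) (x y : Cell B R) : ∑ β, cap Δ M ζ β x y ≤ M := by
  by_cases h1 : isV x.1 ∧ isV y.1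
  · simp only [cap, h1, and_self, if_true]
    rw [sum_ite_const]
    have : cnt (fun β => DC Δ β x y) ≤ 1 := by
      refine cnt_le_one ?_
      rintro β β' ⟨x', y', rfl, rfl, h2⟩ ⟨x'', y'', h3, h4, h5⟩
      rw [← emb_inj h3, ← emb_inj h4] at h5
      rcases h2 with h2 | h2
      exacts [Δ.uniq _ _ _ _ h2 h5, Δ.uniq _ _ _ _ h2 h5.symm]
    nlinarith
  · have : ∀ β, ¬ DC Δ β x y := by
      rintro β ⟨x', y', rfl, rfl, -⟩
      exact h1 ⟨⟨_, rfl⟩, ⟨_, rfl⟩⟩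
    simpa [cap, h1, this] using h

/-- a low pair of clusters -/
def Low (y z : Cl B R) : Prop := y.1 ≠ z.1 ∧ ¬ Hub Δ y z ∧ ¬ Hub Δ z y

lemma Low.symm {y z : Cl B R} (h : Low Δ y z) : Low Δ z y := ⟨h.1.symm, h.2.2, h.2.1⟩

lemma low_of_D {β : Fin B} {x' y' : VC B R} (h : Δ.D β x' y') {y z : Cl B R}
    (h1 : cell y z = emb x') (h2 : cell z y = emb y') : Low Δ y z := by
  have e1 : y.1 = Sum.inl x'.1 := congrArg Prod.fst h1
  have e2 : z.1 = Sum.inl y'.1 := congrArg Prod.fst h2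
  refine ⟨by rw [e1, e2]; simpa using (Δ.ne _ _ _ h).1, ?_, ?_⟩
  · unfold Hub
    rw [h1, h2]
    rintro ⟨β', g1, ⟨γ, g2, -, g3, g4⟩ | ⟨w, g2, -⟩⟩
    · obtain rfl : x'.1 = β' := by simpa [emb] using g1
      obtain rfl : y'.1 = γ := by simpa [emb] using g2
      exact (Δ.nohub _ _ _ h).1 ⟨g3, g4⟩
    · simp [emb] at g2
  · unfold Hub
    rw [h1, h2]
    rintro ⟨β', g1, ⟨γ, g2, -, g3, g4⟩ | ⟨w, g2, -⟩⟩
    · obtain rfl : y'.1 = β' := by simpa [emb] using g1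
      obtain rfl : x'.1 = γ := by simpa [emb] using g2
      exact (Δ.nohub _ _ _ h).2 ⟨g3, g4⟩
    · simp [emb] at g2

lemma low_of_Z {y z : Cl B R} {w : Bool} (hz : z.1 = Sum.inr w) (hne : y.1 ≠ z.1)
    (h : isV y.1 → gv y z ≠ 0) : Low Δ y z := by
  refine ⟨hne, ?_, ?_⟩
  · rintro ⟨β', g1, ⟨γ, g2, -⟩ | ⟨w, -, g2⟩⟩
    · simp [cell, hz] at g2
    · exact h ⟨β', g1⟩ g2
  · rintro ⟨β', g1, -⟩
    simp [cell, hz] at g1

/-- parameters -/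
abbrev Par (B R : ℕ) : Type := (VC B R × VC B R) × Lab B R × ZMod R × ZMod R

def home (β : Fin B) : Cl B R := (Sum.inl β, 0)

def czO (θ : Par B R) : Cl B R := (Sum.inl θ.1.2.1, θ.2.1)

def labE (q : VC B R × VC B R) (l : Lab B R) : Lab B R :=
  (fun ξ => if ξ = Sum.inl q.1.1 then l.1 (Sum.inl q.2.1) else if ξ = Sum.inl q.2.1 then
      q.2.2 - l.2 (Sum.inl q.1.1) else l.1 ξ,
    fun ξ => if ξ = Sum.inl q.1.1 then l.2 (Sum.inl q.2.1) else if ξ = Sum.inl q.2.1 then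
      q.1.2 - l.1 (Sum.inl q.1.1) else l.2 ξ)

def czE (θ : Par B R) : Cl B R := (Sum.inl θ.1.1.1, labE θ.1 θ.2.1)

def czR (β : Fin B) (θ : Par B R) (x : ZMod R) : Cl B R :=
  (Sum.inl θ.1.1.1, (Function.update (labE θ.1 θ.2.1).1 (Sum.inl β) x,
    Function.update (labE θ.1 θ.2.1).2 (Sum.inl β) θ.1.1.2))

def czZ (β : Fin B) (θ : Par B R) (w : Bool) : Cl B R :=
  (Sum.inr w, (fun ξ => if ξ = Sum.inl β then 0 else 1 - θ.2.1.2 (Sum.inr w), 0))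

def clOf (β : Fin B) (θ : Par B R) (x : Role) : Cl B R :=
  if x = rB then czR β θ θ.2.2.1 else if x = rS then czR β θ θ.2.2.2 else if x = rE then czE θ
  else if x = rT then czZ β θ true else if x = rD then czZ β θ false else czO θ

lemma clOf_B (β : Fin B) (θ : Par B R) : clOf β θ rB = czR β θ θ.2.2.1 := rfl
lemma clOf_S (β : Fin B) (θ : Par B R) : clOf β θ rS = czR β θ θ.2.2.2 := rfl
lemma clOf_O (β : Fin B) (θ : Par B R) : clOf β θ rO = czO θ := rfl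
lemma clOf_E (β : Fin B) (θ : Par B R) : clOf β θ rE = czE θ := rfl
lemma clOf_T (β : Fin B) (θ : Par B R) : clOf β θ rT = czZ β θ true := rfl
lemma clOf_D (β : Fin B) (θ : Par B R) : clOf β θ rD = czZ β θ false := rfl

lemma labE_inj {q : VC B R × VC B R} (h : q.1.1 ≠ q.2.1) {l l' : Lab B R} (ξ0 : Ty B)
    (n1 : ξ0 ≠ Sum.inl q.1.1) (n2 : ξ0 ≠ Sum.inl q.2.1)
    (h1 : ∀ ξ, ξ ≠ ξ0 → (labE q l).1 ξ = (labE q l').1 ξ)
    (h2 : ∀ ξ, ξ ≠ ξ0 → (labE q l).2 ξ = (labE q l').2 ξ) (h3 : l.1 ξ0 = l'.1 ξ0)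
    (h4 : l.2 ξ0 = l'.2 ξ0) : l = l' := by
  have a1 := h1 _ n1.symm
  have a2 := h1 _ n2.symm
  have a3 := h2 _ n1.symm
  have a4 := h2 _ n2.symm
  simp only [labE, if_true, Sum.inl.injEq, h.symm, if_false, sub_right_inj] at a1 a2 a3 a4
  refine Prod.ext (funext fun ξ => ?_) (funext fun ξ => ?_)
  · by_cases c0 : ξ = ξ0
    · rw [c0, h3]
    by_cases c1 : ξ = Sum.inl q.1.1
    · rw [c1, a4]
    by_cases c2 : ξ = Sum.inl q.2.1
    · rw [c2, a1]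
    simpa [labE, c1, c2] using h1 ξ c0
  · by_cases c0 : ξ = ξ0
    · rw [c0, h4]
    by_cases c1 : ξ = Sum.inl q.1.1
    · rw [c1, a2]
    by_cases c2 : ξ = Sum.inl q.2.1
    · rw [c2, a3]
    simpa [labE, c1, c2] using h2 ξ c0

lemma cell_EO {θ : Par B R} (h : θ.1.1.1 ≠ θ.1.2.1) :
    cell (czE θ) (czO θ) = emb θ.1.1 ∧ cell (czO θ) (czE θ) = emb θ.1.2 := by
  simp [cell, gv, czE, czO, labE, emb, h.symm]

lemma cell_RO {β : Fin B} {θ : Par B R} (x : ZMod R) (h : θ.1.1.1 ≠ θ.1.2.1)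
    (h2 : θ.1.2.1 ≠ β) :
    cell (czR β θ x) (czO θ) = emb θ.1.1 ∧ cell (czO θ) (czR β θ x) = emb θ.1.2 := by
  simp [cell, gv, czR, czO, labE, emb, h.symm, h2]

lemma cell_home_R (β : Fin B) (θ : Par B R) (x : ZMod R) :
    gv (home β) (czR β θ x) = x ∧ gv (czR β θ x) (home β) = θ.1.1.2 := by
  simp [gv, czR, home]

lemma hub_R {β : Fin B} {θ : Par B R} {x : ZMod R} (h : Δ.D β θ.1.1 θ.1.2) (hx : x.val < a β) :
    Hub Δ (home β) (czR β θ x) := by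
  refine ⟨β, rfl, Or.inl ⟨θ.1.1.1, rfl, (Δ.ne _ _ _ h).2.1, ?_, ?_⟩⟩
  · simpa only [cell, (cell_home_R β θ x).1] using hx
  · simpa only [cell, (cell_home_R β θ x).2] using (Δ.ne _ _ _ h).2.2.2

lemma hub_Z (β : Fin B) (θ : Par B R) (w : Bool) : Hub Δ (home β) (czZ β θ w) :=
  ⟨β, rfl, Or.inr ⟨w, rfl, by simp [cell, gv, czZ, home]⟩⟩

lemma low_OZ (hR : 1 < R) {β : Fin B} {θ : Par B R} (h : θ.1.2.1 ≠ β) (w : Bool) :
    Low Δ (czO θ) (czZ β θ w) := by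
  haveI : Fact (1 < R) := ⟨hR⟩
  exact low_of_Z Δ (w := w) rfl (by simp [czO, czZ]) fun _ => by simp [gv, czO, czZ, h]

lemma low_EZ (hR : 1 < R) {β : Fin B} {θ : Par B R} (h : θ.1.1.1 ≠ β) (w : Bool) :
    Low Δ (czE θ) (czZ β θ w) := by
  haveI : Fact (1 < R) := ⟨hR⟩
  exact low_of_Z Δ (w := w) rfl (by simp [czE, czZ]) fun _ => by simp [gv, czE, czZ, labE, h]

lemma low_ZZ (β : Fin B) (θ : Par B R) : Low Δ (czZ β θ true) (czZ β θ false) :=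
  low_of_Z Δ (w := false) rfl (by simp [czZ]) fun ⟨_, h⟩ => by simp [czZ] at h

lemma low_allowed (hR : 1 < R) {β : Fin B} {θ : Par B R} (h : Δ.D β θ.1.1 θ.1.2) {x y : Role}
    (hxy : allowed x y) : Low Δ (clOf β θ x) (clOf β θ y) := by
  obtain ⟨n1, n2, n3, -⟩ := Δ.ne _ _ _ h
  have l1 := low_of_D Δ h (cell_EO n1).1 (cell_EO n1).2
  have l2 := fun x => low_of_D Δ h (cell_RO x n1 n3).1 (cell_RO x n1 n3).2
  have l3 := low_OZ Δ hR n3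
  have l4 := low_EZ Δ hR n2
  rcases hxy with ⟨rfl | rfl | rfl, rfl⟩ | ⟨rfl, rfl⟩ | ⟨rfl, (rfl | rfl) | rfl⟩ |
    ⟨rfl | rfl, rfl⟩ | ⟨rfl, rfl | rfl⟩ <;>
    simp only [clOf_B, clOf_S, clOf_O, clOf_E, clOf_T, clOf_D]
  exacts [l2 _, l2 _, l1, l1.symm, (l3 _).symm, (l4 _).symm, low_ZZ Δ β θ, l3 _, l4 _,
    (l3 _).symm, (l4 _).symm]

lemma cell_allowed {β : Fin B} {θ : Par B R} (h : Δ.D β θ.1.1 θ.1.2) {x y : Role}
    (hxy : allowed x y) (hx : ¬ isZ x) (hy : ¬ isZ y) : isOE y ∧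
    ((cell (clOf β θ x) (clOf β θ y) = emb θ.1.1 ∧ cell (clOf β θ y) (clOf β θ x) = emb θ.1.2) ∨
    (cell (clOf β θ x) (clOf β θ y) = emb θ.1.2 ∧ cell (clOf β θ y) (clOf β θ x) = emb θ.1.1)) := by
  obtain ⟨n1, n2, n3, -⟩ := Δ.ne _ _ _ h
  rcases hxy with ⟨rfl | rfl | rfl, rfl⟩ | ⟨rfl, rfl⟩ | ⟨rfl, -⟩ | ⟨-, rfl⟩ | ⟨rfl, -⟩
  · exact ⟨Or.inl rfl, Or.inl (cell_RO _ n1 n3)⟩
  · exact ⟨Or.inl rfl, Or.inl (cell_RO _ n1 n3)⟩
  · exact ⟨Or.inl rfl, Or.inl (cell_EO n1)⟩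
  · exact ⟨Or.inr rfl, Or.inr (cell_EO n1).symm⟩
  · exact absurd (Or.inl rfl) hx
  · exact absurd (Or.inr rfl) hy
  · exact absurd (Or.inr rfl) hx

lemma isV_clOf (β : Fin B) (θ : Par B R) (x : Role) : isV (clOf β θ x).1 ↔ ¬ isZ x := by
  unfold clOf isZ
  split_ifs with h1 h2 h3 h4 h5
  · subst h1; simpa [czR, isV] using by decide
  · subst h2; simpa [czR, isV] using by decide
  · subst h3; simpa [czE, isV] using by decide
  · simp [czZ, isV, h4]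
  · simp [czZ, isV, h5]
  · simp [czO, isV, h4, h5]

lemma clOf_ne {β : Fin B} {θ : Par B R} (h : Δ.D β θ.1.1 θ.1.2) (x : Role) :
    (clOf β θ x).1 ≠ Sum.inl β := by
  obtain ⟨n1, n2, n3, -⟩ := Δ.ne _ _ _ h
  unfold clOf
  split_ifs <;> simp [czR, czE, czZ, czO, n2, n3]

end

end Pool.Agent.Lib.MP_de1a09_co
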