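import Mathlib

/-! Numerical inequalities. -/

set_option autoImplicit false
set_option linter.unusedVariables false

namespace Pool.Agent.Lib.MP_de1a09_co

lemma cap_aux {P y nb c N' R R' M : ℕ} (hR : 0 < R') (h1 : P * R' ≤ y * nb) (hy : 0 < y)
    (h2 : nb * R + c * N' * R * R' ≤ M * N' * R') : (P + c * N') * R ≤ y * M * N' := by
  refine Nat.le_of_mul_le_mul_right ?_ hR
  have e1 := Nat.mul_le_mul_right R h1
  have e2 := Nat.mul_le_mul_left y h2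
  have e3 := Nat.mul_le_mul_right (c * N' * R * R') (Nat.succ_le_of_lt hy)
  nlinarith

lemma size_aux {p t n B JE Y u : ℕ} (h1 : t * (p + 8) ≤ (p + 1) * n)
    (h2 : n ≤ (B + 2) * Y * (p + 8) * (u + 1)) (h3 : (p + 8) * (B + 2) ≤ (p + 10) * JE)
    (h4 : p + 8 ≤ u) : t ≤ JE * ((p + 5) * Y * u) := by
  have e1 : t ≤ (p + 1) * ((B + 2) * Y * (u + 1)) := by
    refine Nat.le_of_mul_le_mul_right (c := p + 8) ?_ (by omega)
    have := Nat.mul_le_mul_left (p + 1) h2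
    nlinarith
  have e2 : (p + 8) * (u + 1) ≤ (p + 9) * u := by nlinarith
  have e3 : (p + 1) * ((p + 10) * (p + 9)) ≤ (p + 5) * ((p + 8) * (p + 8)) := by
    nlinarith [Nat.zero_le (p * p)]
  refine e1.trans (Nat.le_of_mul_le_mul_right (c := (p + 8) * (p + 8)) ?_ (by positivity))
  calc _ = (p + 1) * Y * (((p + 8) * (B + 2)) * ((p + 8) * (u + 1))) := by ring
    _ ≤ (p + 1) * Y * (((p + 10) * JE) * ((p + 9) * u)) :=
        Nat.mul_le_mul_left _ (Nat.mul_le_mul h3 e2)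
    _ = (p + 1) * ((p + 10) * (p + 9)) * (Y * JE * u) := by ring
    _ ≤ (p + 5) * ((p + 8) * (p + 8)) * (Y * JE * u) := Nat.mul_le_mul_right _ e3
    _ = _ := by ring

lemma num1 {p Lc z : ℕ} (z0 : 0 < z) : 3072 * Lc * (p + 8) ≤ 224 * Lc * (16 * (p + 8) * z) := by
  have := Nat.mul_le_mul_left (Lc * (p + 8)) (Nat.succ_le_of_lt z0)
  nlinarith

lemma num2 {p Lc J : ℕ} (h0 : 0 < Lc) (h : 3072 * Lc * (p + 8) ≤ J) : p + 8 ≤ J := by nlinarith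

lemma num3 {p Lc J b1 v : ℕ} (h : 3072 * Lc * (p + 8) ≤ J) :
    24 * (Lc * b1 * (128 * (p + 8) * v)) ≤ J * b1 * v := by
  have := Nat.mul_le_mul_right (b1 * v) h
  nlinarith

lemma num4 {p Eb Q : ℕ} (hE : Eb = (p + 8) * Q) (h8 : 8 ≤ Eb) :
    (p + 8) * (Eb + 6 + 2 * (p + 8) * (Eb + Q) + 2) ≤ (p + 10) * (2 * (p + 8) * Eb) := by
  have e1 := Nat.mul_le_mul_left (p + 8) h8
  have e2 : (p + 8) * (2 * (p + 8) * Q) = 2 * (p + 8) * Eb := by rw [hE]; ring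
  nlinarith

lemma num5 {p t Eb B M v : ℕ} (ht : t ≤ 2 * (p + 8) * (Eb * (128 * (p + 5) * M * v)))
    (h1 : 2 * (p + 8) * Eb ≤ B) (M0 : 0 < M) (v0 : 0 < v) :
    t + 1 ≤ (B + 2) * M * (128 * (p + 8) * v) := by
  have e2 : 128 * (p + 5) * M * v ≤ M * (128 * (p + 8) * v) := by
    nlinarith [Nat.zero_le (M * v)]
  have e3 := Nat.mul_le_mul h1 e2
  have e4 : 0 < M * (128 * (p + 8) * v) := by positivity
  nlinarith

lemma num6 {p c M v R : ℕ} (hR : R = 3 * (p + 8))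
    (e1 : c * R * ((p + 7) * (p + 7)) ≤ M * (p + 9)) :
    128 * (p + 5) * M * v * R + c * (128 * (p + 7) * v) * R * (R - 3) ≤
      M * (128 * (p + 7) * v) * (R - 3) := by
  rw [show R - 3 = 3 * (p + 7) by omega]
  subst hR
  have e4 := Nat.mul_le_mul_right (384 * v) e1
  nlinarith

lemma num7 {p Mb v : ℕ} : Mb * (128 * (p + 8) * v) ≤ 128 * (p + 7) * v * (2 * Mb) := by
  nlinarith [Nat.zero_le (Mb * v * p), Nat.zero_le (Mb * v)]

lemma num8 {p v w y : ℕ} (h1 : v ≤ w) (h2 : 24 * y ≤ w) :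
    128 * (p + 7) * v + 6 * (4 * y) ≤ 256 * (p + 8) * w := by
  nlinarith [Nat.mul_le_mul_left p h1, Nat.zero_le (p * w)]

lemma num9 {p Lc b1 v Tk : ℕ} (e1 : Tk ≤ Lc * b1) :
    14 * (4 * (Lc * b1 * (128 * (p + 8) * v))) + Tk * (128 * (p + 7) * v) ≤
      224 * Lc * b1 * (128 * (p + 7) * v) := by
  have e2 := Nat.mul_le_mul_right (128 * (p + 7) * v) e1
  nlinarith [Nat.zero_le (Lc * b1 * v), Nat.zero_le (Lc * b1 * v * p)]

lemma num10 {p Lc b1 z : ℕ} (z0 : 0 < z) : 224 * Lc * b1 ≤ 224 * Lc * (16 * (p + 8) * z) * b1 := by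
  exact Nat.mul_le_mul_right _ (Nat.le_mul_of_pos_right _ (by positivity))

lemma num11 {p Lc b1 B Q ω : ℕ} (ω0 : 0 < ω) :
    B * (224 * Lc * b1) * Q ≤ ω * (224 * Lc * (16 * (p + 8) * (B * Q)) * b1) := by
  calc _ = 1 * 1 * (B * (224 * Lc * b1) * Q) := by ring
    _ ≤ ω * (16 * (p + 8)) * (B * (224 * Lc * b1) * Q) :=
        Nat.mul_le_mul_right _ (Nat.mul_le_mul ω0 (by omega))
    _ = _ := by ring

lemma num12 {p ω b v C : ℕ} (ω0 : 0 < ω) (h : C ≤ b * v) :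
    128 * (p + 5) * (ω * b) * v + C ≤ ω * (64 * (2 * p + 15) * (b * v)) := by
  have e1 : b * v ≤ ω * (b * v) := Nat.le_mul_of_pos_left _ ω0
  nlinarith

lemma num13 {p b v C : ℕ} (h : C ≤ b * v) :
    64 * (2 * p + 15) * (b * v) + C ≤ b * (128 * (p + 8) * v) := by nlinarith

lemma num14 {p b v : ℕ} : ((64 * (2 * p + 15) * (b * v) : ℕ) : ℝ) ≤
    (1 - 4 * (1 / (8 * ((p : ℝ) + 8)))) * (b * (128 * (p + 8) * v : ℕ)) := by
  push_cast; apply le_of_eq; field_simp; ring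

lemma num15 {p Lc Mb : ℕ} (h : 0 < Lc) :
    3 * (1 / ((3 * (Lc * (Mb + 1)) * (8 * (p + 8)) ^ 3 : ℕ) : ℝ)) * (Lc * (Mb + 1)) ≤
      (1 / (8 * ((p : ℝ) + 8))) ^ 3 := by
  have : (0 : ℝ) < Lc := by exact_mod_cast h
  push_cast; apply le_of_eq; field_simp

lemma num16 {r u Wd : ℕ} (h1 : 0 < Wd) (h2 : 1 ≤ r * u) :
    (((8 * (r * u) : ℕ) : ℝ) + 1) ≤ 1 / (Wd : ℝ) * (16 * (r * Wd * u) : ℕ) := by
  have e1 : (0 : ℝ) < Wd := by exact_mod_cast h1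
  have e2 : (1 : ℝ) ≤ r * u := by exact_mod_cast h2
  push_cast
  rw [show (1 : ℝ) / Wd * (16 * (r * Wd * u)) = 16 * (r * u) by field_simp]
  linarith

lemma num17 {p b v y : ℕ} (h : 24 * y ≤ b * v) :
    (3 * ((4 * y : ℕ) : ℝ) + 4 * (2 * (b * v) : ℕ)) ≤
      1 / (8 * ((p : ℝ) + 8)) * (b * (128 * (p + 8) * v : ℕ)) := by
  push_cast
  rw [show (1 : ℝ) / (8 * (p + 8)) * (b * (128 * (p + 8) * v)) = 16 * (b * v) by
    field_simp; ring]
  have : (24 * y : ℝ) ≤ b * v := by exact_mod_cast h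
  have : (0 : ℝ) ≤ y := Nat.cast_nonneg _
  linarith

lemma num18 {p Lc b1 B Q ω v : ℕ} (ω0 : 0 < ω) (B0 : 0 < B) :
    224 * Lc * b1 * Q * (2 * (128 * (p + 7) * v)) ≤
      ω * (224 * Lc * (16 * (p + 8) * (B * Q)) * b1) * (16 * v) := by
  calc _ = 1 * 1 * (p + 7) * (224 * Lc * b1 * Q * (256 * v)) := by ring
    _ ≤ ω * B * (p + 8) * (224 * Lc * b1 * Q * (256 * v)) :=
        Nat.mul_le_mul_right _ (Nat.mul_le_mul (Nat.mul_le_mul ω0 B0) (by omega))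
    _ = _ := by ring

lemma num19 {p v x : ℕ} (h : x ≤ v) (v0 : 0 < v) :
    128 * (p + 7) * v + 2 * (16 * v + x) < 128 * (p + 8) * v := by nlinarith

lemma num20 {p v : ℕ} : 128 * (p + 7) * v + v ≤ 128 * (p + 8) * v := by nlinarith

lemma num21 {p v : ℕ} : 16 * v ≤ 128 * (p + 8) * v := Nat.mul_le_mul_right _ (by omega)

end Pool.Agent.Lib.MP_de1a09_co
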