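import Pool.Agent.Lib.MP_de1a09_co.Global
import Pool.Agent.Lib.MP_de1a09_co.Batch
import Pool.Agent.Lib.MP_de1a09_co.Num

/-! Choice of parameters. -/

set_option autoImplicit false
set_option linter.unusedVariables false
set_option linter.unusedSectionVars false

open Finset

namespace Pool.Agent.Lib.MP_de1a09_co

noncomputable section
open Classical

theorem pack_nat (p : ℕ) : ∃ n0 : ℕ, ∀ n ≥ n0, ∀ t : ℕ, t * (p + 8) ≤ (p + 1) * n →
    ∀ T : (i : Fin t) → SimpleGraph (Fin (i.1 + 2)), (∀ i, (T i).IsTree) →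
    ∃ f : (i : Fin t) → (Fin (i.1 + 2) ↪ Fin n),
      ∀ i j, i ≠ j → Disjoint ((T i).map (f i)) ((T j).map (f j)) := by
  obtain ⟨R, hR⟩ : ∃ R, R = 3 * (p + 8) := ⟨_, rfl⟩
  haveI : NeZero R := ⟨by omega⟩
  have R0 : 0 < R := by omega
  obtain ⟨Eb, hEb⟩ : ∃ Eb, Eb = (p + 8) * R ^ 2 := ⟨_, rfl⟩
  have Eb8 : 8 ≤ Eb := by
    have : 0 < R ^ 2 := by positivity
    rw [hEb]; nlinarith
  obtain ⟨B, hB⟩ : ∃ B, B = Eb + 6 + 2 * (p + 8) * (Eb + R ^ 2) := ⟨_, rfl⟩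
  have B0 : 0 < B := by omega
  obtain ⟨ω, hω⟩ : ∃ ω, ω = Fintype.card (Lab B R) := ⟨_, rfl⟩
  have ω0 : 0 < ω := hω ▸ Fintype.card_pos
  obtain ⟨Lc, hLc⟩ : ∃ Lc, Lc = Fintype.card (Cl B R) := ⟨_, rfl⟩
  have hLc' : Lc = (B + 2) * ω := by
    rw [hLc, hω, Fintype.card_prod, Fintype.card_sum, Fintype.card_fin, Fintype.card_bool]
  have Lc0 : 0 < Lc := hLc ▸ Fintype.card_pos
  obtain ⟨z, hz⟩ : ∃ z, z = B * R ^ 2 := ⟨_, rfl⟩
  have z0 : 0 < z := by rw [hz]; positivity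
  obtain ⟨J, hJ⟩ : ∃ J, J = 224 * Lc * (16 * (p + 8) * z) := ⟨_, rfl⟩
  have J0 : 0 < J := by rw [hJ]; positivity
  have hJ1 : 3072 * Lc * (p + 8) ≤ J := hJ ▸ num1 z0
  obtain ⟨h, hh⟩ : ∃ h, h = J * 2 ^ J := ⟨_, rfl⟩
  have K0 : 0 < 2 ^ J := by positivity
  have h0 : 0 < h := by rw [hh]; positivity
  obtain ⟨k, hk⟩ : ∃ k, k = (2 ^ J + 1) ^ h := ⟨_, rfl⟩
  have k0 : 0 < k := by rw [hk]; positivity
  obtain ⟨Tk, hTk⟩ : ∃ Tk, Tk = Fintype.card (Fin k → Role) * k := ⟨_, rfl⟩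
  have Tk0 : 0 < Tk := by rw [hTk]; exact Nat.mul_pos Fintype.card_pos k0
  obtain ⟨E, hE⟩ : ∃ E, E = 2 * (Tk * Fintype.card (Par B R)) := ⟨_, rfl⟩
  obtain ⟨b1, hb1⟩ : ∃ b1, b1 = (Tk + E) * R * (p + 8) := ⟨_, rfl⟩
  have b1T : Tk ≤ b1 := by
    rw [hb1, mul_assoc]
    exact le_trans (Nat.le_add_right _ _) (Nat.le_mul_of_pos_right _ (by positivity))
  have b10 : 0 < b1 := by omega
  obtain ⟨b, hb⟩ : ∃ b, b = J * b1 := ⟨_, rfl⟩
  have bJ : J ≤ b := hb ▸ Nat.le_mul_of_pos_right _ b10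
  have Jp : p + 8 ≤ J := num2 Lc0 hJ1
  have b8 : 8 ≤ b := by omega
  haveI : NeZero b := ⟨by omega⟩
  obtain ⟨Mb, hMb⟩ : ∃ Mb, Mb = Fintype.card (Blk B R b) := ⟨_, rfl⟩
  have hMb' : Mb = Lc * b := by rw [hMb, hLc, Fintype.card_prod, ZMod.card]
  have Mb0 : 0 < Mb := hMb ▸ Fintype.card_pos
  obtain ⟨Wd, hWd⟩ : ∃ Wd, Wd = 3 * (Lc * (Mb + 1)) * (8 * (p + 8)) ^ 3 := ⟨_, rfl⟩
  have Wd1 : 8 * (p + 8) ≤ Wd := by
    rw [hWd]
    exact le_trans (Nat.le_self_pow (by norm_num) _) (Nat.le_mul_of_pos_left _ (by positivity))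
  have Wd0 : 0 < Wd := by omega
  obtain ⟨r, hr⟩ : ∃ r, r = 2 * (1 + 16 * (p + 8) * Wd * Mb) := ⟨_, rfl⟩
  have r0 : 0 < r := by omega
  obtain ⟨D, hD⟩ : ∃ D, D = Mb * (128 * (p + 8) * (r * Wd)) := ⟨_, rfl⟩
  have D0 : 0 < D := by rw [hD]; positivity
  obtain ⟨Cc, hCc⟩ : ∃ Cc, Cc = Fintype.card (Cls B k (2 * Mb + 1) r (256 * b * (p + 8) * r + 1)) *
    (2 * 3 ^ r * Fintype.card (Gam B R b)) := ⟨_, rfl⟩
  refine ⟨D * (3 ^ r + Cc + (2 ^ J + 1) + (p + 8)), fun n hn t ht T hT => ?_⟩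
  obtain ⟨u, hu⟩ : ∃ u, u = n / D := ⟨_, rfl⟩
  have u1 : 3 ^ r + Cc + (2 ^ J + 1) + (p + 8) ≤ u := by
    rw [hu]; exact (Nat.le_div_iff_mul_le D0).2 (by rw [mul_comm]; exact hn)
  have u2 : D * u ≤ n := hu ▸ Nat.mul_div_le n D
  have u3 : n ≤ D * (u + 1) := hu ▸ (Nat.lt_mul_div_succ n D0).le
  have ua : 3 ^ r ≤ u := le_trans (by simp only [add_assoc]; exact Nat.le_add_right _ _) u1
  have G0 : 0 < 3 ^ r := by positivity
  have ub : Cc ≤ u := by omega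
  have uc : 2 ^ J + 1 ≤ u := by omega
  have ud : p + 8 ≤ u := by omega
  have u0 : 0 < u := by omega
  obtain ⟨v, hv⟩ : ∃ v, v = r * Wd * u := ⟨_, rfl⟩
  have ru : u ≤ r * u := Nat.le_mul_of_pos_left _ r0
  have ruv : r * u ≤ v := by
    rw [hv, mul_right_comm]; exact Nat.le_mul_of_pos_right _ Wd0
  have v0 : 0 < v := by omega
  have bv : v ≤ b * v := Nat.le_mul_of_pos_left _ (by omega)
  obtain ⟨N, hN⟩ : ∃ N, N = 128 * (p + 8) * v := ⟨_, rfl⟩
  have vN : v ≤ N := hN ▸ Nat.le_mul_of_pos_left _ (by positivity)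
  haveI : NeZero N := ⟨by omega⟩
  obtain ⟨y, hy⟩ : ∃ y, y = Lc * b1 * N := ⟨_, rfl⟩
  have Ny : N ≤ y := hy ▸ Nat.le_mul_of_pos_left _ (by positivity)
  have y1 : 24 * y ≤ b * v := by rw [hy, hN, hb]; exact num3 hJ1
  have nnJ : Mb * N = J * y := by rw [hMb', hb, hy]; ring
  have ht1 : t ≤ 2 * (p + 8) * (Eb * (128 * (p + 5) * (ω * b) * v)) := by
    have := size_aux (B := B) (JE := 2 * (p + 8) * Eb) (Y := 128 * (ω * b) * (r * Wd)) (u := u) ht
      (u3.trans (le_of_eq (by rw [hD, hMb', hLc']; ring))) (hB ▸ num4 hEb Eb8) ud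
    exact this.trans (le_of_eq (by rw [hv]; ring))
  have ht2 : t + 1 ≤ Mb * N := by
    rw [hMb', hLc', hN, mul_assoc (B + 2)]
    exact num5 ht1 (by rw [hB, mul_add _ Eb]; omega) (Nat.mul_pos ω0 (by omega)) v0
  obtain ⟨F, F1, F2⟩ := exists_forest T hT (Mb * N) J h r (8 * (r * u)) (4 * y)
    (fun i => by have := i.2; rw [Fintype.card_fin]; omega) J0 h0 (by omega)
    (by
      rw [show Mb * N = 16 * (p + 8) * Wd * Mb * (8 * (r * u)) by rw [hN, hv]; ring,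
        Nat.mul_div_cancel _ (by positivity), hr])
    (by
      rw [nnJ, hh, Nat.mul_div_mul_left _ _ J0, mul_left_comm, Nat.mul_div_cancel_left _ J0]
      have := Nat.mul_div_le y (2 ^ J)
      omega)
  subst hk
  have csz : ∀ i, cnt (fun x => F.tr x = i) ≤ i.1 + 2 := fun i => by
    rw [cnt_sigma_fib _ i fun x hx => by rwa [F1] at hx]
    exact (cnt_le_card _).trans (by simp)
  obtain ⟨bt, a, ab, hab, h5, hnb, hcap⟩ := exists_batch t Eb (2 * (p + 8))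
    (128 * (p + 5) * (ω * b) * v) R B (by omega) (by
      have : 0 < b := by omega
      positivity) (by omega) ht1 hB
    (fun i => cnt fun x => (¬ F.A x ∧ F.role x = rB) ∧ F.tr x = i)
    (fun i => cnt fun x => (¬ F.A x ∧ F.role x = rS) ∧ F.tr x = i)
    (fun i => cnt fun x => (¬ F.A x ∧ isOE (F.role x)) ∧ F.tr x = i) (fun i => by
      have e1 := cnt_disj (p := fun x => (¬ F.A x ∧ F.role x = rB) ∧ F.tr x = i)
        (q := fun x => (¬ F.A x ∧ F.role x = rS) ∧ F.tr x = i)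
        (r := fun x => (F.role x = rB ∨ F.role x = rS) ∧ F.tr x = i)
        (fun x hx => ⟨Or.inl hx.1.2, hx.2⟩) (fun x hx => ⟨Or.inr hx.1.2, hx.2⟩)
        (fun x hx hx' => absurd (hx.1.2.symm.trans hx'.1.2) (by decide))
      have e2 := cnt_disj (p := fun x => (F.role x = rB ∨ F.role x = rS) ∧ F.tr x = i)
        (q := fun x => (¬ F.A x ∧ isOE (F.role x)) ∧ F.tr x = i)
        (r := fun x => F.tr x = i) (fun x hx => hx.2) (fun x hx => hx.2)
        (fun x hx hx' => by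
          have g := hx'.1.2
          rcases hx.1 with g1 | g1 <;> rw [g1] at g <;> exact absurd g (by unfold isOE; decide))
      have := csz i
      omega)
  have key : 128 * (p + 5) * (ω * b) * v * R + (Tk + E) * (128 * (p + 7) * v) * R * (R - 3) ≤
      ω * b * (128 * (p + 7) * v) * (R - 3) := by
    have e1 : (Tk + E) * R * ((p + 7) * (p + 7)) ≤ ω * b * (p + 9) := by
      have e2 : b1 * (p + 8) ≤ b := by rw [hb, mul_comm J]; exact Nat.mul_le_mul_left _ Jp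
      have e3 : b ≤ ω * b * (p + 9) := by
        rw [mul_right_comm]; exact Nat.le_mul_of_pos_left _ (by positivity)
      refine le_trans ?_ (e2.trans e3)
      rw [hb1, mul_assoc _ (p + 8)]
      exact Nat.mul_le_mul_left _ (Nat.mul_le_mul (by omega) (by omega))
    exact num6 hR e1
  have p0 : (0 : ℝ) < p + 8 := by positivity
  obtain ⟨f, f1, f2⟩ := global (N := N) (b := b) a ab hab F bt h5 (Mb * N) (128 * (p + 7) * v)
    (2 * Mb + 1) (256 * b * (p + 8) * r + 1) (Wd * u) (224 * Lc * b1) (16 * v) (2 * (b * v))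
    (128 * (p + 5) * (ω * b) * v) (64 * (2 * p + 15) * (b * v)) E (1 / (8 * (p + 8))) (1 / Wd)
    (fun i => (csz i).trans (by have := i.2; omega)) (by positivity)
    (Nat.lt_succ_of_le (Nat.div_le_of_le_mul (hN ▸ num7)))
    r0 (by positivity)
    (Nat.lt_succ_of_le (Nat.div_le_of_le_mul (by
      have e1 : Wd * u * (256 * b * (p + 8) * r) = 256 * (p + 8) * (b * v) := by rw [hv]; ring
      rw [e1]; exact num8 bv y1)))
    (by rw [hE, hTk])
    (fun i => by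
      rw [← hTk, ← hω]
      exact cap_aux (by omega) (hcap i).1 (Nat.mul_pos (by have := h5 i; omega) (hab _).1) key)
    (fun i => by
      rw [← hTk, ← hω]
      exact cap_aux (by omega) (hcap i).2.1 (Nat.mul_pos (by have := h5 i; omega)
        (by have := hab (bt i); omega)) key)
    (fun i => by
      rw [← hTk, ← hω]
      exact cap_aux (by omega) (hcap i).2.2 (Nat.mul_pos (by have := h5 i; omega)
        (by have := hab (bt i); omega)) key)
    (by rw [← hTk, hy, hN]; exact num9 (b1T.trans (Nat.le_mul_of_pos_left _ Lc0)))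
    (by rw [hb, hJ]; exact num10 z0)
    (by
      rw [← hω]
      refine (Nat.le_div_iff_mul_le (by positivity)).2 ?_
      rw [hb, hJ, hz]; exact num11 ω0)
    hnb (by rw [← hCc, ← hω]; exact num12 ω0 (by omega)) (hN ▸ num13 (by omega))
    (hN ▸ num14)
    (by positivity)
    (one_div_le_one_div_of_le (by norm_num) (by linarith [(Nat.cast_nonneg p : (0 : ℝ) ≤ p)]))
    (by positivity)
    (one_div_le_one_div_of_le (by positivity) (by exact_mod_cast Wd1))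
    (by rw [← hLc, ← hMb, hWd]; exact num15 Lc0)
    (by omega) (hN ▸ num21) (hv ▸ num16 Wd0 (by omega))
    (by have := Nat.mul_le_mul_right v b8; omega) (by rw [← mul_assoc r, ← hv]; omega)
    (by rw [← mul_assoc r, ← hv, hN]; exact num20) (hN ▸ num17 y1)
    (by rw [← hω, hb, hJ, hz]; exact num18 ω0 B0)
    (hN ▸ num19 ((Nat.mul_le_mul_left r uc).trans ruv) v0)
  obtain ⟨em⟩ : Nonempty (Blk B R b × ZMod N ↪ Fin n) :=
    Function.Embedding.nonempty_of_card_le (by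
      rw [Fintype.card_prod, ← hMb, ZMod.card, Fintype.card_fin]
      exact le_trans (le_of_eq (by rw [hN, hD, hv]; ring)) u2)
  refine ⟨fun i => ⟨fun x => em (f ⟨i, x⟩), fun x y g => sigma_mk_injective
    (β := fun i : Fin t => Fin (i.1 + 2))
    (f1 _ _ (by rw [F1]) (em.injective g))⟩, fun i j hij => ?_⟩
  have edge : ∀ i x y, (T i).Adj x y → ∃ e, ¬ F.Rt e ∧ F.tr e = i ∧
      s(f e, f (F.p e)) = s(f ⟨i, x⟩, f ⟨i, y⟩) := by
    intro i x y g
    rcases F2 i x y g with g | g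
    · exact ⟨_, g.1, by rw [F1], by rw [g.2]⟩
    · exact ⟨_, g.1, by rw [F1], by rw [g.2, Sym2.eq_swap]⟩
  rw [disjoint_iff_inf_le]
  rintro x y ⟨g1, g2⟩
  rw [SimpleGraph.map_adj] at g1 g2
  obtain ⟨x1, y1, g3, g4, g5⟩ := g1
  obtain ⟨x2, y2, g6, g7, g8⟩ := g2
  obtain ⟨e, q1, q2, q3⟩ := edge i x1 y1 g3
  obtain ⟨e', q4, q5, q6⟩ := edge j x2 y2 g6
  refine absurd (q2.symm.trans ((f2 e e' q1 q4 ?_).trans q5)) hij
  have q7 : f ⟨i, x1⟩ = f ⟨j, x2⟩ := em.injective (g4.trans g7.symm)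
  have q8 : f ⟨i, y1⟩ = f ⟨j, y2⟩ := em.injective (g5.trans g8.symm)
  rw [q3, q6, q7, q8]

end

end Pool.Agent.Lib.MP_de1a09_co
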