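import Pool.Agent.Lib.MP_de1a09_co.Basic

/-! Rooted trees in parent form, Steiner closure and pigeonhole choices. -/

set_option autoImplicit false
set_option linter.unusedVariables false
set_option linter.unusedSectionVars false

open Finset

namespace Pool.Agent.Lib.MP_de1a09_co

noncomputable section
open Classical

/-- a rooted tree in parent form -/
structure RT (V : Type) : Type where
  rt : V
  p : V → V
  d : V → ℕ
  p_rt : p rt = rt
  d_p : ∀ v, v ≠ rt → d (p v) + 1 = d v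

lemma exists_RT {V : Type} [Fintype V] (G : SimpleGraph V) (h : G.IsTree) :
    ∃ T : RT V, ∀ u v, G.Adj u v → (u ≠ T.rt ∧ T.p u = v) ∨ (v ≠ T.rt ∧ T.p v = u) := by
  have hc := h.connected
  obtain ⟨rt⟩ := hc.nonempty
  have key : ∀ v, v ≠ rt → ∃ u, G.Adj v u ∧ G.dist u rt + 1 = G.dist v rt := by
    intro v hv
    obtain ⟨w, hw⟩ := hc.exists_walk_length_eq_dist v rt
    cases w with
    | nil => exact absurd rfl hv
    | cons hadj w' =>
      rename_i u
      refine ⟨u, hadj, le_antisymm ?_ ?_⟩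
      · have := G.dist_le w'
        simp only [SimpleGraph.Walk.length_cons] at hw
        omega
      · have h1 := hc.dist_triangle (u := v) (v := u) (w := rt)
        have h2 : G.dist v u = 1 := SimpleGraph.dist_eq_one_iff_adj.2 hadj
        omega
  choose! q hq1 hq2 using key
  let p : V → V := fun v => if v = rt then rt else q v
  have hp : ∀ v, v ≠ rt → p v = q v := fun v hv => by simp [p, hv]
  refine ⟨⟨rt, p, fun v => G.dist v rt, by simp [p], fun v hv => by rw [hp v hv]; exact hq2 v hv⟩,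
    fun u v huv => ?_⟩
  have hcard := h.card_edgeFinset
  let f : V → Sym2 V := fun v => s(v, q v)
  have hinj : Set.InjOn f (univ.erase rt : Finset V) := by
    intro x hx y hy hxy
    have hx' : x ≠ rt := by simpa using hx
    have hy' : y ≠ rt := by simpa using hy
    rcases Sym2.eq_iff.1 hxy with ⟨h1, -⟩ | ⟨h1, h2⟩
    · exact h1
    · have e1 := hq2 x hx'
      have e2 := hq2 y hy'
      rw [h2] at e1; rw [← h1] at e2
      omega
  have hsub : (univ.erase rt).image f ⊆ G.edgeFinset := by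
    intro e he
    obtain ⟨x, hx, rfl⟩ := mem_image.1 he
    simpa [f] using hq1 x (by simpa using hx)
  have heq : (univ.erase rt).image f = G.edgeFinset := by
    refine eq_of_subset_of_card_le hsub ?_
    rw [card_image_of_injOn hinj, card_erase_of_mem (mem_univ _), card_univ]
    omega
  have : s(u, v) ∈ (univ.erase rt).image f := by rw [heq]; simpa using huv
  obtain ⟨x, hx, hxe⟩ := mem_image.1 this
  have hx' : x ≠ rt := by simpa using hx
  rcases Sym2.eq_iff.1 hxe with ⟨rfl, h2⟩ | ⟨rfl, h2⟩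
  · exact Or.inl ⟨hx', (hp x hx').trans h2⟩
  · exact Or.inr ⟨hx', (hp x hx').trans h2⟩

namespace RT
variable {V : Type} [Fintype V] (T : RT V)

/-- number of children -/
def ch (v : V) : ℕ := cnt fun u => u ≠ T.rt ∧ T.p u = v

lemma sum_ch : ∑ v, T.ch v ≤ Fintype.card V := by
  unfold ch
  rw [← cnt_fib (fun u => u ≠ T.rt) T.p]
  exact cnt_le_card _

/-- ancestors of a set -/
def X (S : V → Prop) (v : V) : Prop := ∃ s, S s ∧ ∃ j : ℕ, T.p^[j] s = v

/-- branch vertices -/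
def Br (S : V → Prop) (v : V) : Prop :=
  ∃ u u', u ≠ u' ∧ u ≠ T.rt ∧ u' ≠ T.rt ∧ T.p u = v ∧ T.p u' = v ∧ T.X S u ∧ T.X S u'

variable {T}

lemma X_of {S : V → Prop} {v : V} (h : S v) : T.X S v := ⟨v, h, 0, rfl⟩

lemma X_p {S : V → Prop} {v : V} (h : T.X S v) : T.X S (T.p v) := by
  obtain ⟨s, h1, j, h2⟩ := h
  exact ⟨s, h1, j + 1, by rw [Function.iterate_succ_apply', h2]⟩

lemma X_mono {S S' : V → Prop} (hS : ∀ v, S v → S' v) {v : V} (h : T.X S v) : T.X S' v := by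
  obtain ⟨s, h1, j, h2⟩ := h
  exact ⟨s, hS s h1, j, h2⟩

lemma Br_mono {S S' : V → Prop} (hS : ∀ v, S v → S' v) {v : V} (h : T.Br S v) : T.Br S' v := by
  obtain ⟨u, u', h1, h2, h3, h4, h5, h6, h7⟩ := h
  exact ⟨u, u', h1, h2, h3, h4, h5, X_mono hS h6, X_mono hS h7⟩

lemma X_Br {S : V → Prop} {v : V} (h : T.Br S v) : T.X S v := by
  obtain ⟨u, u', h1, h2, h3, h4, h5, h6, h7⟩ := h
  exact h4 ▸ X_p h6

lemma X_child {S : V → Prop} (hrt : S T.rt) {v : V} (h : T.X S v) (hv : ¬ S v) :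
    ∃ u, u ≠ T.rt ∧ T.X S u ∧ T.p u = v := by
  obtain ⟨s, h1, j, h2⟩ := h
  cases j with
  | zero => exact absurd (h2 ▸ h1) hv
  | succ j =>
    rw [Function.iterate_succ_apply'] at h2
    refine ⟨T.p^[j] s, fun h => hv ?_, ⟨s, h1, j, rfl⟩, h2⟩
    rw [h, T.p_rt] at h2
    exact h2 ▸ hrt

lemma steiner {S Y : V → Prop} (hrt : S T.rt) (hY : ∀ v, Y v → T.X S v) :
    cnt (fun u => (u ≠ T.rt ∧ T.X S u) ∧ Y (T.p u)) + cnt (fun v => S v ∧ Y v) ≤
      cnt Y + cnt S := by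
  have h1 := cnt_split (fun u => u ≠ T.rt ∧ T.X S u) (fun u => Y (T.p u))
  have h2 : cnt (fun u => u ≠ T.rt ∧ T.X S u) ≤ cnt (T.X S) := cnt_mono fun _ h => h.2
  have h3 : cnt (fun v => (T.X S v ∧ ¬ Y v) ∧ ¬ S v) ≤
      cnt (fun u => (u ≠ T.rt ∧ T.X S u) ∧ ¬ Y (T.p u)) :=
    cnt_surj T.p fun v hv => by
      obtain ⟨u, g1, g2, g3⟩ := X_child hrt hv.1.1 hv.2
      exact ⟨u, ⟨⟨g1, g2⟩, g3 ▸ hv.1.2⟩, g3⟩
  have h4 := cnt_split (T.X S) Y
  have h5 := cnt_split (fun v => T.X S v ∧ ¬ Y v) S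
  have h6 : cnt (fun v => T.X S v ∧ Y v) ≤ cnt Y := cnt_mono fun _ h => h.2
  have h7 := cnt_split S Y
  have h8 : cnt (fun v => (T.X S v ∧ ¬ Y v) ∧ S v) ≤ cnt (fun v => S v ∧ ¬ Y v) :=
    cnt_mono fun _ h => ⟨h.2, h.1.2⟩
  omega

lemma cnt_Br {S : V → Prop} (hrt : S T.rt) : cnt (fun v => T.Br S v ∧ ¬ S v) ≤ cnt S := by
  have h1 := steiner (T := T) (Y := fun v => T.Br S v ∧ ¬ S v) hrt fun v hv => X_Br hv.1
  have h2 : cnt (fun v => T.Br S v ∧ ¬ S v) * 2 ≤
      cnt (fun u => (u ≠ T.rt ∧ T.X S u) ∧ (T.Br S (T.p u) ∧ ¬ S (T.p u))) := by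
    rw [← sum_ite_const, cnt_fib _ T.p]
    refine sum_le_sum fun v _ => ?_
    split_ifs with hv
    · obtain ⟨u, u', g1, g2, g3, g4, g5, g6, g7⟩ := hv.1
      have := cnt_disj (p := fun x => x = u) (q := fun x => x = u')
        (r := fun x => ((x ≠ T.rt ∧ T.X S x) ∧ (T.Br S (T.p x) ∧ ¬ S (T.p x))) ∧ T.p x = v)
        (fun x hx => by rw [hx, g4]; exact ⟨⟨⟨g2, g6⟩, hv⟩, rfl⟩)
        (fun x hx => by rw [hx, g5]; exact ⟨⟨⟨g3, g7⟩, hv⟩, rfl⟩)
        (fun x hx hx' => g1 (hx.symm.trans hx'))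
      have e1 : 0 < cnt (fun x => x = u) := cnt_pos.2 ⟨u, rfl⟩
      have e2 : 0 < cnt (fun x => x = u') := cnt_pos.2 ⟨u', rfl⟩
      omega
    · exact Nat.zero_le _
  omega

lemma cnt_Ch {S : V → Prop} (hrt : S T.rt) :
    cnt (fun u => (u ≠ T.rt ∧ T.X S u) ∧ S (T.p u)) ≤ cnt S := by
  have h1 := steiner (T := T) (Y := S) hrt fun v hv => X_of hv
  have h2 : cnt (fun v => S v ∧ S v) = cnt S := cnt_congr fun v => and_self_iff
  omega

variable (T)

lemma exists_scale (J : ℕ) (hJ : 0 < J) :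
    ∃ j < J, 2 ^ j * cnt (fun v => 2 ^ j ≤ T.ch v) * J ≤ 2 * Fintype.card V := by
  have h1 : ∀ c J : ℕ, (∑ j ∈ range J, if 2 ^ j ≤ c then 2 ^ j else 0) ≤ 2 * c ∧
      (∑ j ∈ range J, if 2 ^ j ≤ c then 2 ^ j else 0) < 2 ^ J := by
    intro c J
    induction J with
    | zero => simp
    | succ J ih =>
      rw [sum_range_succ, pow_succ]
      split_ifs with h <;> omega
  have h2 : ∑ j ∈ range J, 2 ^ j * cnt (fun v => 2 ^ j ≤ T.ch v) ≤ 2 * Fintype.card V := by
    calc _ = ∑ j ∈ range J, ∑ v, (if 2 ^ j ≤ T.ch v then 2 ^ j else 0) := by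
          refine sum_congr rfl fun j _ => ?_
          rw [mul_comm, ← sum_ite_const]
          exact sum_congr rfl fun v _ => by congr
      _ = ∑ v, ∑ j ∈ range J, (if 2 ^ j ≤ T.ch v then 2 ^ j else 0) := sum_comm
      _ ≤ ∑ v, 2 * T.ch v := sum_le_sum fun v _ => (h1 _ _).1
      _ ≤ _ := by rw [← mul_sum]; exact Nat.mul_le_mul_left _ T.sum_ch
  obtain ⟨j, hj, h3⟩ := exists_le_of_sum_le (s := range J) (nonempty_range_iff.2 hJ.ne')
    (f := fun j => 2 ^ j * cnt (fun v => 2 ^ j ≤ T.ch v) * J)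
    (g := fun _ => 2 * Fintype.card V) (by
      rw [← sum_mul, sum_const, card_range, smul_eq_mul, mul_comm J]
      exact Nat.mul_le_mul_right _ h2)
  exact ⟨j, mem_range.1 hj, h3⟩

lemma exists_res (h : ℕ) (hh : 0 < h) :
    ∃ ρ < h, cnt (fun v => T.d v % h = ρ) * h ≤ Fintype.card V := by
  have h2 : ∑ ρ : Fin h, cnt (fun v => T.d v % h = ρ) ≤ Fintype.card V := by
    rw [← cnt_true (α := V), cnt_fib (fun _ => True)
      (fun v => (⟨T.d v % h, Nat.mod_lt _ hh⟩ : Fin h))]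
    exact sum_le_sum fun ρ _ => cnt_mono fun v hv => ⟨trivial, Fin.ext hv⟩
  haveI : Nonempty (Fin h) := ⟨⟨0, hh⟩⟩
  obtain ⟨ρ, -, h3⟩ := exists_le_of_sum_le (s := (univ : Finset (Fin h))) univ_nonempty
    (f := fun ρ : Fin h => cnt (fun v => T.d v % h = ρ.1) * h) (g := fun _ => Fintype.card V) (by
      rw [← sum_mul, sum_const, card_univ, Fintype.card_fin, smul_eq_mul, mul_comm h]
      exact Nat.mul_le_mul_right _ h2)
  exact ⟨ρ, ρ.2, h3⟩

lemma cnt_high (d0 : ℕ) : cnt (fun v => d0 < T.ch v) * d0 ≤ Fintype.card V := by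
  refine le_trans ?_ T.sum_ch
  rw [← sum_ite_const]
  refine sum_le_sum fun v _ => ?_
  split_ifs with h <;> omega

/-- top vertex of the piece of a vertex -/
def top (A : V → Prop) (v : V) : V :=
  if h : v = T.rt ∨ A (T.p v) then v else top A (T.p v)
termination_by T.d v
decreasing_by have := T.d_p v (fun h' => h (Or.inl h')); omega

/-- heap address of a vertex inside its piece -/
def adr (A : V → Prop) (K : ℕ) (idx : V → ℕ) (v : V) : ℕ :=
  if h : v = T.rt ∨ A (T.p v) then 0 else K * adr A K idx (T.p v) + idx v + 1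
termination_by T.d v
decreasing_by have := T.d_p v (fun h' => h (Or.inl h')); omega

lemma induct (P : V → Prop) (h : ∀ v, (v ≠ T.rt → P (T.p v)) → P v) (v : V) : P v := by
  induction hn : T.d v using Nat.strong_induction_on generalizing v with
  | _ n ih => exact h v fun hv => ih _ (by have := T.d_p v hv; omega) _ rfl

end RT

end

end Pool.Agent.Lib.MP_de1a09_co
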