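import Pool.Agent.Lib.MP_de1a09_co.Groups

/-! Averaging over the translation group. -/

set_option autoImplicit false
set_option linter.unusedVariables false
set_option linter.unusedSectionVars false

open Finset

namespace Pool.Agent.Lib.MP_de1a09_co

noncomputable section
open Classical

variable {B R b : ℕ} [NeZero R] [NeZero b] {Cls : Type} [Fintype Cls]

lemma sum_ite_const' {β : Type*} [Fintype β] (q : β → Prop) {inst : DecidablePred q} (M : ℕ) :
    (∑ b, if q b then M else 0) = cnt q * M := by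
  rw [← sum_ite_const]
  exact sum_congr rfl fun _ _ => by congr

lemma sum_mu {ι : Type} [Fintype ι] (cls : ι → Cls) (bt : Cls → Fin B) (μ : Cls → ℕ)
    (g E nb M : ℕ) (h1 : ∀ C, μ C * g ≤ cnt (fun i => cls i = C) + E)
    (h2 : ∀ β, cnt (fun i => bt (cls i) = β) ≤ nb) (h3 : nb + Fintype.card Cls * E ≤ M)
    (β : Fin B) : (∑ C, if bt C = β then μ C else 0) * g ≤ M := by
  rw [sum_mul]
  calc _ ≤ ∑ C, (cnt (fun i => bt (cls i) = β ∧ cls i = C) + E) := by
        refine sum_le_sum fun C _ => ?_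
        split_ifs with h
        · exact (h1 C).trans (add_le_add_left (cnt_mono fun i hi => ⟨hi ▸ h, hi⟩) _)
        · simp
    _ ≤ _ := by
        rw [sum_add_distrib, ← cnt_fib, sum_const, card_univ, smul_eq_mul]
        exact le_trans (add_le_add_left (h2 β) _) h3

lemma sum_bt (bt : Cls → Fin B) (μ : Cls → ℕ) (w : Fin B → ℕ) :
    ∑ C, μ C * w (bt C) = ∑ β, (∑ C, if bt C = β then μ C else 0) * w β := by
  simp only [sum_mul]
  rw [sum_comm]
  refine sum_congr rfl fun C _ => ?_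
  simp

lemma home_bound (bt : Cls → Fin B) (μ : Cls → ℕ) (m0 : ℕ)
    (hμ : ∀ β, (∑ C, if bt C = β then μ C else 0) * Fintype.card (Gam B R b) ≤
      Fintype.card (Lab B R) * m0) (c : Cl B R) :
    ∑ C, μ C * cnt (fun t : Gam B R b => actC t (home (bt C)) = c) ≤ m0 := by
  rw [sum_bt bt μ fun β => cnt (fun t : Gam B R b => actC t (home β) = c)]
  by_cases hc : isV c.1
  · obtain ⟨β, hβ⟩ := hc
    rw [sum_eq_single β]
    · refine Nat.le_of_mul_le_mul_right (c := Fintype.card (Lab B R)) ?_ Fintype.card_pos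
      have := Nat.mul_le_mul_left (∑ C, if bt C = β then μ C else 0)
        (cnt_act_one (b := b) (home β) c)
      have := hμ β
      nlinarith
    · intro β' _ h
      rw [cnt_false fun t ht => h (by
        simpa [home] using (congrArg Prod.fst ht).trans hβ), mul_zero]
    · simp
  · rw [sum_eq_zero fun β _ => by
      rw [cnt_false fun t ht => hc ⟨β, (congrArg Prod.fst ht).symm⟩, mul_zero]]
    exact Nat.zero_le _

lemma use_bound {J : Type} [Fintype J] (bt : Cls → Fin B) (μ : Cls → ℕ) (m0 N : ℕ)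
    (hμ : ∀ β, (∑ C, if bt C = β then μ C else 0) * Fintype.card (Gam B R b) ≤
      Fintype.card (Lab B R) * m0) (hm0 : m0 ≤ b * N) (P : Cls → J → Prop)
    (U0 W0 : Cls → J → Blk B R b) (hne : ∀ C q, P C q → (U0 C q).1.1 ≠ (W0 C q).1.1)
    (cp : Fin B → Cell B R → Cell B R → ℕ)
    (hcp : ∀ x y, (∑ β, cp β x y) * R ^ 2 ≤ Fintype.card (Lab B R) * b)
    (huse : ∀ C x y, cnt (fun q => P C q ∧
      ((cell (U0 C q).1 (W0 C q).1 = x ∧ cell (W0 C q).1 (U0 C q).1 = y) ∨
       (cell (U0 C q).1 (W0 C q).1 = y ∧ cell (W0 C q).1 (U0 C q).1 = x))) ≤ cp (bt C) x y)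
    (U W : Blk B R b) :
    ∑ C, μ C * cnt (fun q : Gam B R b × J => P C q.2 ∧
      s(act q.1 (U0 C q.2), act q.1 (W0 C q.2)) = s(U, W)) ≤ N := by
  set ω := Fintype.card (Lab B R) with hω
  set g := Fintype.card (Gam B R b) with hg
  have ω0 : 0 < ω := Fintype.card_pos
  have b0 : 0 < b := Nat.pos_of_ne_zero (NeZero.ne b)
  have e1 : ∀ C, cnt (fun q : Gam B R b × J => P C q.2 ∧
      s(act q.1 (U0 C q.2), act q.1 (W0 C q.2)) = s(U, W)) * (ω * b) ^ 2 ≤
      cp (bt C) (cell U.1 W.1) (cell W.1 U.1) * (g * R ^ 2) := by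
    intro C
    refine le_trans ?_ (Nat.mul_le_mul_right _ (huse C (cell U.1 W.1) (cell W.1 U.1)))
    rw [cnt_prod', sum_mul, ← sum_ite_const]
    refine sum_le_sum fun q _ => ?_
    split_ifs with h
    · have n1 := hne C q h.1
      by_cases c1 : (U0 C q).1.1 = U.1.1
      · refine le_trans (Nat.mul_le_mul_right _ (cnt_mono fun t ht => ?_))
          (cnt_act_pair _ _ U W n1)
        refine (Sym2.eq_iff.1 ht.2).resolve_right fun h' => n1 ?_
        rw [c1, ← h'.2]; rfl
      · refine le_trans (Nat.mul_le_mul_right _ (cnt_mono fun t ht => ?_))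
          (cnt_act_pair _ _ W U n1)
        refine (Sym2.eq_iff.1 ht.2).resolve_left fun h' => c1 ?_
        rw [← h'.1]; rfl
    · rw [cnt_false fun t ht => h ⟨ht.1, ?_⟩, zero_mul]
      have n1 := hne C q ht.1
      rcases Sym2.eq_iff.1 ht.2 with ⟨rfl, rfl⟩ | ⟨rfl, rfl⟩
      · exact Or.inl ⟨(cell_act t n1).symm, (cell_act t n1.symm).symm⟩
      · exact Or.inr ⟨(cell_act t n1).symm, (cell_act t n1.symm).symm⟩
  refine Nat.le_of_mul_le_mul_right (c := (ω * b) ^ 2) ?_ (by positivity)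
  rw [sum_mul]
  calc _ ≤ ∑ C, μ C * (cp (bt C) (cell U.1 W.1) (cell W.1 U.1) * (g * R ^ 2)) :=
        sum_le_sum fun C _ => by rw [mul_assoc]; exact Nat.mul_le_mul_left _ (e1 C)
    _ = ∑ β, (∑ C, if bt C = β then μ C else 0) *
          (cp β (cell U.1 W.1) (cell W.1 U.1) * (g * R ^ 2)) :=
        sum_bt bt μ fun β => cp β (cell U.1 W.1) (cell W.1 U.1) * (g * R ^ 2)
    _ ≤ ∑ β, cp β (cell U.1 W.1) (cell W.1 U.1) * (R ^ 2 * (ω * m0)) := by
        refine sum_le_sum fun β _ => ?_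
        have := Nat.mul_le_mul_left (cp β (cell U.1 W.1) (cell W.1 U.1) * R ^ 2) (hμ β)
        nlinarith
    _ ≤ _ := by
        rw [← sum_mul, ← mul_assoc]
        calc _ ≤ ω * b * (ω * (b * N)) :=
              Nat.mul_le_mul (hcp _ _) (Nat.mul_le_mul_left _ hm0)
          _ = _ := by ring

lemma z_bound {J : Type} [Fintype J] (bt : Cls → Fin B) (μ : Cls → ℕ) (m0 ζ : ℕ)
    (hμ : ∀ β, (∑ C, if bt C = β then μ C else 0) * Fintype.card (Gam B R b) ≤
      Fintype.card (Lab B R) * m0) (P : Cls → J → Prop)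
    (W0 : Cls → J → Blk B R b) (hne : ∀ C q, P C q → (W0 C q).1.1 ≠ Sum.inl (bt C))
    (hζ : ∀ C, cnt (P C) ≤ ζ) (c : Cl B R) (U : Blk B R b) :
    (∑ C, μ C * cnt (fun q : Gam B R b × J => P C q.2 ∧ actC q.1 (home (bt C)) = c ∧
      act q.1 (W0 C q.2) = U)) * (Fintype.card (Lab B R) * b) ≤ ζ * R ^ 2 * m0 := by
  set ω := Fintype.card (Lab B R) with hω
  set g := Fintype.card (Gam B R b) with hg
  have ω0 : 0 < ω := Fintype.card_pos
  have b0 : 0 < b := Nat.pos_of_ne_zero (NeZero.ne b)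
  have e1 : ∀ C, cnt (fun q : Gam B R b × J => P C q.2 ∧ actC q.1 (home (bt C)) = c ∧
      act q.1 (W0 C q.2) = U) * (ω * b) ^ 2 ≤
      if Sum.inl (bt C) = c.1 then ζ * (b * (g * R ^ 2)) else 0 := by
    intro C
    split_ifs with hc
    swap
    · rw [cnt_false fun q hq => hc (congrArg Prod.fst hq.2.1), zero_mul]
    refine le_trans ?_ (Nat.mul_le_mul_right _ (hζ C))
    rw [cnt_prod', sum_mul, ← sum_ite_const]
    refine sum_le_sum fun q _ => ?_
    split_ifs with h
    · rw [cnt_fib _ (fun t : Gam B R b => (act t (home (bt C), 0)).2), sum_mul]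
      calc _ ≤ ∑ _j : ZMod b, g * R ^ 2 := sum_le_sum fun j _ =>
            le_trans (Nat.mul_le_mul_right _ (cnt_mono fun t ht =>
              ⟨Prod.ext ht.1.2.1 ht.2, ht.1.2.2⟩))
              (cnt_act_pair (home (bt C), 0) (W0 C q) (c, j) U (hne C q h).symm)
        _ = _ := by simp
    · rw [cnt_false fun t ht => h ht.1, zero_mul]
  refine Nat.le_of_mul_le_mul_right (c := ω * b) ?_ (by positivity)
  rw [mul_assoc, ← pow_two, sum_mul]
  calc _ ≤ ∑ C, μ C * (if Sum.inl (bt C) = c.1 then ζ * (b * (g * R ^ 2)) else 0) :=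
        sum_le_sum fun C _ => by rw [mul_assoc]; exact Nat.mul_le_mul_left _ (e1 C)
    _ = ∑ β, (∑ C, if bt C = β then μ C else 0) *
          (if Sum.inl β = c.1 then ζ * (b * (g * R ^ 2)) else 0) :=
        sum_bt bt μ fun β => if Sum.inl β = c.1 then ζ * (b * (g * R ^ 2)) else 0
    _ ≤ ∑ β, (if Sum.inl β = c.1 then ζ * R ^ 2 * m0 * (ω * b) else 0) := by
        refine sum_le_sum fun β _ => ?_
        split_ifs
        · have := Nat.mul_le_mul_left (ζ * R ^ 2 * b) (hμ β)
          nlinarith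
        · simp
    _ ≤ _ := by
        rw [sum_ite_const']
        exact (Nat.mul_le_mul_right _ (cnt_le_one fun u v hu hv => by
          simpa using hu.trans hv.symm)).trans (by rw [one_mul])

end

end Pool.Agent.Lib.MP_de1a09_co
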